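import Pool.Agent.Helper52.HS.Defs
import Pool.Agent.Helper39.AH.Chain

/-!
# Project HS: algebra of locally finite chains
-/

set_option linter.unusedSectionVars false

namespace Pool.Agent.Helper52.HS

open Pool.Agent.Helper39.AH

variable {G : Type} [Group G] {V : Type} [AddCommGroup V] {S : Type} [DecidableEq S]

/-! ### translations -/

theorem act_apply (v : G) (F : G → V) (g : G) : act v F g = F (g * v⁻¹) := rfl

@[simp] theorem act_one (F : G → V) : act (1 : G) F = F := by
  funext g; simp [act]

theorem act_act (u v : G) (F : G → V) : act u (act v F) = act (v * u) F := by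
  funext g; simp [act, mul_assoc]

@[simp] theorem act_zero (v : G) : act v (0 : G → V) = 0 := rfl

theorem act_add (v : G) (F F' : G → V) : act v (F + F') = act v F + act v F' := rfl

theorem act_neg (v : G) (F : G → V) : act v (-F) = -act v F := rfl

theorem act_sub (v : G) (F F' : G → V) : act v (F - F') = act v F - act v F' := rfl

/-- translation as a homomorphism -/
def actH (v : G) : (G → V) →+ (G → V) where
  toFun := act v
  map_zero' := rfl
  map_add' _ _ := rfl

theorem act_sum {ι : Type} (v : G) (I : Finset ι) (F : ι → G → V) :
    act v (∑ i ∈ I, F i) = ∑ i ∈ I, act v (F i) := map_sum (actH v) F I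

@[simp] theorem act_inv_act (v : G) (F : G → V) : act v⁻¹ (act v F) = F := by
  rw [act_act, mul_inv_cancel, act_one]

@[simp] theorem act_act_inv (v : G) (F : G → V) : act v (act v⁻¹ F) = F := by
  rw [act_act, inv_mul_cancel, act_one]

/-! ### values of words -/

variable (gen : S → G)

@[simp] theorem val_nil : val gen [] = 1 := rfl
@[simp] theorem val_cons_true (s : S) (l : List (S × Bool)) :
    val gen ((s, true) :: l) = gen s * val gen l := rfl
@[simp] theorem val_cons_false (s : S) (l : List (S × Bool)) :
    val gen ((s, false) :: l) = (gen s)⁻¹ * val gen l := rfl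

theorem val_append (l l' : List (S × Bool)) : val gen (l ++ l') = val gen l * val gen l' := by
  induction l with
  | nil => simp
  | cons p l ih =>
    obtain ⟨s, b⟩ := p
    cases b <;> simp [ih, mul_assoc]

theorem val_eq_lift (l : List (S × Bool)) :
    val gen l = FreeGroup.lift gen (FreeGroup.mk l) := by
  induction l with
  | nil =>
    have : (FreeGroup.mk ([] : List (S × Bool))) = 1 := rfl
    rw [this, map_one, val_nil]
  | cons p l ih =>
    obtain ⟨s, b⟩ := p
    cases b
    · rw [val_cons_false, mk_cons_false, map_mul, map_inv, FreeGroup.lift_apply_of, ih]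
    · rw [val_cons_true, mk_cons_true, map_mul, FreeGroup.lift_apply_of, ih]

theorem val_invRev (l : List (S × Bool)) : val gen (FreeGroup.invRev l) = (val gen l)⁻¹ := by
  rw [val_eq_lift, val_eq_lift, ← FreeGroup.inv_mk, map_inv]

/-! ### paths -/

@[simp] theorem path_nil (F : G → V) : path gen [] F = 0 := rfl
theorem path_cons_true (s : S) (l : List (S × Bool)) (F : G → V) :
    path gen ((s, true) :: l) F = Pi.single s F + path gen l (act (gen s) F) := rfl
theorem path_cons_false (s : S) (l : List (S × Bool)) (F : G → V) :
    path gen ((s, false) :: l) F =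
      -Pi.single s (act (gen s)⁻¹ F) + path gen l (act (gen s)⁻¹ F) := rfl

theorem path_add (l : List (S × Bool)) (F F' : G → V) :
    path gen l (F + F') = path gen l F + path gen l F' := by
  induction l generalizing F F' with
  | nil => simp
  | cons p l ih =>
    obtain ⟨s, b⟩ := p
    cases b
    · rw [path_cons_false, path_cons_false, path_cons_false, act_add, ih, Pi.single_add]
      abel
    · rw [path_cons_true, path_cons_true, path_cons_true, act_add, ih, Pi.single_add]
      abel

/-- `path` as a homomorphism -/
def pathH (l : List (S × Bool)) : (G → V) →+ (S → G → V) where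
  toFun := path gen l
  map_zero' := by
    have h := path_add gen l (0 : G → V) 0
    rw [add_zero] at h
    exact (left_eq_add.1 h)
  map_add' := path_add gen l

theorem path_zero (l : List (S × Bool)) : path gen l (0 : G → V) = 0 := (pathH gen l).map_zero
theorem path_neg (l : List (S × Bool)) (F : G → V) : path gen l (-F) = -path gen l F :=
  (pathH gen l).map_neg F
theorem path_sub (l : List (S × Bool)) (F F' : G → V) :
    path gen l (F - F') = path gen l F - path gen l F' := (pathH gen l).map_sub F F'
theorem path_sum {ι : Type} (l : List (S × Bool)) (I : Finset ι) (F : ι → G → V) :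
    path gen l (∑ i ∈ I, F i) = ∑ i ∈ I, path gen l (F i) := map_sum (pathH gen l) F I

theorem path_append (l l' : List (S × Bool)) (F : G → V) :
    path gen (l ++ l') F = path gen l F + path gen l' (act (val gen l) F) := by
  induction l generalizing F with
  | nil => simp
  | cons p l ih =>
    obtain ⟨s, b⟩ := p
    cases b
    · rw [List.cons_append, path_cons_false, path_cons_false, ih, act_act, val_cons_false]
      abel
    · rw [List.cons_append, path_cons_true, path_cons_true, ih, act_act, val_cons_true]
      abel

theorem path_step (l₁ l₂ : List (S × Bool)) (s : S) (b : Bool) (F : G → V) :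
    path gen (l₁ ++ (s, b) :: (s, !b) :: l₂) F = path gen (l₁ ++ l₂) F := by
  rw [path_append, path_append]
  congr 1
  cases b
  · rw [Bool.not_false, path_cons_false, path_cons_true, act_act_inv]
    abel
  · rw [Bool.not_true, path_cons_true, path_cons_false, act_inv_act]
    abel

theorem path_mk {l l' : List (S × Bool)} (h : FreeGroup.mk l = FreeGroup.mk l') (F : G → V) :
    path gen l F = path gen l' F := by
  have h1 : ∀ {a b : List (S × Bool)}, FreeGroup.Red.Step a b → path gen a F = path gen b F := by
    intro a b hab
    cases hab with
    | not => exact path_step gen _ _ _ _ F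
  have h2 : ∀ {a b : List (S × Bool)}, FreeGroup.Red a b → path gen a F = path gen b F := by
    intro a b hab
    induction hab with
    | refl => rfl
    | tail _ h3 ih => exact ih.trans (h1 h3)
  obtain ⟨c, hc1, hc2⟩ := FreeGroup.Red.exact.1 h
  exact (h2 hc1).trans (h2 hc2).symm

theorem path_invRev (l : List (S × Bool)) (F : G → V) :
    path gen (FreeGroup.invRev l) F = -path gen l (act (val gen l)⁻¹ F) := by
  have h1 : FreeGroup.mk (l ++ FreeGroup.invRev l) = FreeGroup.mk ([] : List (S × Bool)) := by
    rw [← FreeGroup.mul_mk, ← FreeGroup.inv_mk, mul_inv_cancel]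
    rfl
  have h2 := path_mk gen h1 (act (val gen l)⁻¹ F)
  rw [path_append, act_act_inv, path_nil] at h2
  exact eq_neg_of_add_eq_zero_right h2

/-! ### boundaries -/

theorem bd1_add [Fintype S] (c c' : S → G → V) : bd1 gen (c + c') = bd1 gen c + bd1 gen c' := by
  unfold bd1
  rw [← Finset.sum_add_distrib]
  refine Finset.sum_congr rfl fun s _ => ?_
  rw [Pi.add_apply, act_add]
  abel

/-- the boundary as a homomorphism -/
def bd1H [Fintype S] : (S → G → V) →+ (G → V) where
  toFun := bd1 gen
  map_zero' := by
    have h := bd1_add gen (0 : S → G → V) 0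
    rw [add_zero] at h
    exact (left_eq_add.1 h)
  map_add' := bd1_add gen

theorem bd1_zero [Fintype S] : bd1 gen (0 : S → G → V) = 0 := (bd1H gen).map_zero
theorem bd1_neg [Fintype S] (c : S → G → V) : bd1 gen (-c) = -bd1 gen c := (bd1H gen).map_neg c
theorem bd1_sub [Fintype S] (c c' : S → G → V) : bd1 gen (c - c') = bd1 gen c - bd1 gen c' :=
  (bd1H gen).map_sub c c'
theorem bd1_sum [Fintype S] {ι : Type} (I : Finset ι) (c : ι → S → G → V) :
    bd1 gen (∑ i ∈ I, c i) = ∑ i ∈ I, bd1 gen (c i) := map_sum (bd1H gen) c I

theorem bd1_single [Fintype S] (s : S) (F : G → V) :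
    bd1 gen (Pi.single s F) = act (gen s) F - F := by
  unfold bd1
  rw [Finset.sum_eq_single s]
  · rw [Pi.single_eq_same]
  · intro t _ hts
    rw [Pi.single_eq_of_ne hts, act_zero, sub_zero]
  · intro h
    exact absurd (Finset.mem_univ s) h

theorem bd1_path [Fintype S] (l : List (S × Bool)) (F : G → V) :
    bd1 gen (path gen l F) = act (val gen l) F - F := by
  induction l generalizing F with
  | nil => simp [bd1_zero]
  | cons p l ih =>
    obtain ⟨s, b⟩ := p
    cases b
    · rw [path_cons_false, bd1_add, bd1_neg, bd1_single, ih, act_act (val gen l), act_act_inv,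
        val_cons_false]
      abel
    · rw [path_cons_true, bd1_add, bd1_single, ih, act_act (val gen l), val_cons_true]
      abel

/-- a chain is the sum of its edges -/
theorem chain_eq_sum [Fintype S] (c : S → G → V) : c = ∑ s, path gen [(s, true)] (c s) := by
  funext t
  rw [Finset.sum_apply]
  rw [Finset.sum_eq_single t]
  · rw [path_cons_true, path_nil, add_zero, Pi.single_eq_same]
  · intro s _ hst
    rw [path_cons_true, path_nil, add_zero, Pi.single_eq_of_ne hst.symm]
  · intro h
    exact absurd (Finset.mem_univ t) h

/-! ### naturality and left translations -/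

theorem path_map {W : Type} [AddCommGroup W] (f : V →+ W) (l : List (S × Bool)) (F : G → V) :
    path gen l (fun g => f (F g)) = fun s g => f (path gen l F s g) := by
  induction l generalizing F with
  | nil => funext s g; simp
  | cons p l ih =>
    obtain ⟨s, b⟩ := p
    funext t g
    have e : ∀ v : G, act v (fun g => f (F g)) = fun g => f (act v F g) := fun v => rfl
    cases b
    · rw [path_cons_false, path_cons_false, e, ih]
      simp only [Pi.add_apply, Pi.neg_apply, map_add, map_neg]
      congr 2
      rcases eq_or_ne t s with rfl | h
      · simp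
      · simp [Pi.single_eq_of_ne h]
    · rw [path_cons_true, path_cons_true, e, ih]
      simp only [Pi.add_apply, map_add]
      congr 1
      rcases eq_or_ne t s with rfl | h
      · simp
      · simp [Pi.single_eq_of_ne h]

theorem path_left (y : G) (l : List (S × Bool)) (F : G → V) :
    path gen l (fun g => F (y * g)) = fun s g => path gen l F s (y * g) := by
  induction l generalizing F with
  | nil => funext s g; simp
  | cons p l ih =>
    obtain ⟨s, b⟩ := p
    funext t g
    have e : ∀ v : G, act v (fun g => F (y * g)) = fun g => act v F (y * g) := fun v => by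
      funext g; simp [act, mul_assoc]
    cases b
    · rw [path_cons_false, path_cons_false, e, ih]
      simp only [Pi.add_apply, Pi.neg_apply]
      congr 2
      rcases eq_or_ne t s with rfl | h
      · simp
      · simp [Pi.single_eq_of_ne h]
    · rw [path_cons_true, path_cons_true, e, ih]
      simp only [Pi.add_apply]
      congr 1
      rcases eq_or_ne t s with rfl | h
      · simp
      · simp [Pi.single_eq_of_ne h]

theorem bd1_map [Fintype S] {W : Type} [AddCommGroup W] (f : V →+ W) (c : S → G → V) :
    bd1 gen (fun s g => f (c s g)) = fun g => f (bd1 gen c g) := by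
  funext g
  simp [bd1, act, Finset.sum_apply, map_sum]

theorem bd1_left [Fintype S] (y : G) (c : S → G → V) :
    bd1 gen (fun s g => c s (y * g)) = fun g => bd1 gen c (y * g) := by
  funext g
  simp [bd1, act, Finset.sum_apply, mul_assoc]

/-! ### supports -/

/-- the coefficient of `path gen l F` at the edge `(g, s)` depends only on the values of `F` at the
finitely many starting points `g'` such that the path from `g'` contains `g` -/
theorem path_congr (l : List (S × Bool)) {F F' : G → V} {s : S} {g : G}
    (h : ∀ g', g ∈ vs gen l g' → F g' = F' g') : path gen l F s g = path gen l F' s g := by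
  induction l generalizing F F' with
  | nil => rfl
  | cons p l ih =>
    obtain ⟨t, b⟩ := p
    cases b
    · rw [path_cons_false, path_cons_false]
      simp only [Pi.add_apply, Pi.neg_apply]
      congr 1
      · congr 1
        rcases eq_or_ne s t with rfl | hst
        · simp only [Pi.single_eq_same, act]
          refine h _ ?_
          rw [vs_cons_false, inv_inv, mul_inv_cancel_right]
          exact List.mem_cons_of_mem _ (mem_vs_self _ _ _)
        · simp [Pi.single_eq_of_ne hst]
      · refine ih fun g' hg' => ?_
        simp only [act]
        refine h _ ?_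
        rw [vs_cons_false, inv_inv, mul_inv_cancel_right]
        exact List.mem_cons_of_mem _ hg'
    · rw [path_cons_true, path_cons_true]
      simp only [Pi.add_apply]
      congr 1
      · rcases eq_or_ne s t with rfl | hst
        · simp only [Pi.single_eq_same]
          refine h _ ?_
          rw [vs_cons_true]
          exact List.mem_cons_self
        · simp [Pi.single_eq_of_ne hst]
      · refine ih fun g' hg' => ?_
        simp only [act]
        refine h _ ?_
        rw [vs_cons_true, inv_mul_cancel_right]
        exact List.mem_cons_of_mem _ hg'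

/-! ### 2-chains -/

variable (P : FinPres G)

theorem bd2_add (d d' : P.R → G → V) : bd2 P (d + d') = bd2 P d + bd2 P d' := by
  unfold bd2
  rw [← Finset.sum_add_distrib]
  refine Finset.sum_congr rfl fun r _ => ?_
  rw [Pi.add_apply, path_add]

/-- the boundary of 2-chains as a homomorphism -/
def bd2H : (P.R → G → V) →+ (P.S → G → V) where
  toFun := bd2 P
  map_zero' := by
    have h := bd2_add P (0 : P.R → G → V) 0
    rw [add_zero] at h
    exact (left_eq_add.1 h)
  map_add' := bd2_add P

theorem bd2_zero : bd2 P (0 : P.R → G → V) = 0 := (bd2H P).map_zero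
theorem bd2_neg (d : P.R → G → V) : bd2 P (-d) = -bd2 P d := (bd2H P).map_neg d
theorem bd2_sub (d d' : P.R → G → V) : bd2 P (d - d') = bd2 P d - bd2 P d' :=
  (bd2H P).map_sub d d'
theorem bd2_sum {ι : Type} (I : Finset ι) (d : ι → P.R → G → V) :
    bd2 P (∑ i ∈ I, d i) = ∑ i ∈ I, bd2 P (d i) := map_sum (bd2H P) d I

theorem bd1_bd2 (d : P.R → G → V) : bd1 P.gen (bd2 P d) = 0 := by
  unfold bd2
  rw [bd1_sum]
  refine Finset.sum_eq_zero fun r _ => ?_
  rw [bd1_path, P.rel_one, act_one, sub_self]

theorem bd2_map {W : Type} [AddCommGroup W] (f : V →+ W) (d : P.R → G → V) :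
    bd2 P (fun r g => f (d r g)) = fun s g => f (bd2 P d s g) := by
  unfold bd2
  funext s g
  simp only [Finset.sum_apply, map_sum]
  exact Finset.sum_congr rfl fun r _ => congrFun (congrFun (path_map P.gen f (P.rel r) (d r)) s) g

theorem bd2_left (y : G) (d : P.R → G → V) :
    bd2 P (fun r g => d r (y * g)) = fun s g => bd2 P d s (y * g) := by
  unfold bd2
  funext s g
  simp only [Finset.sum_apply]
  exact Finset.sum_congr rfl fun r _ => congrFun (congrFun (path_left P.gen y (P.rel r) (d r)) s) g

end Pool.Agent.Helper52.HS
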