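import Pool.Agent.Helper52.HS.Alg

/-!
# HS-SUM: paths of locally finite sums

`act v (fun g => ∑ᶠ i, F i g) = fun g => ∑ᶠ i, act v (F i) g` holds by definition. `finite_path` and
`path_finsum` by induction on the word (for all `F`), with `finsum_add_distrib`, `finsum_neg_distrib`
(finite supports: `Function.support` of `fun i => F i g` is the set `{i | F i g ≠ 0}`); the value of
`Pi.single s F` at `t, g` is `F g` if `t = s` and `0` otherwise. `bd2_finsum`: finite sum over `P.R` of `path_finsum`
(`finsum_sum_comm`-type interchange: `finsum_sum_comm` or induction on the finite set).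
-/

set_option linter.unusedSectionVars false

namespace Pool.Agent.Helper52.HS

variable {G : Type} [Group G] {V : Type} [AddCommGroup V] {S : Type} [DecidableEq S] {ι : Type}

theorem finite_path (gen : S → G) (l : List (S × Bool)) (F : ι → G → V)
    (hF : ∀ g, {i | F i g ≠ 0}.Finite) (s : S) (g : G) :
    {i | path gen l (F i) s g ≠ 0}.Finite := by
  induction l generalizing F with
  | nil => simp
  | cons p l ih =>
    obtain ⟨t, b⟩ := p
    have hact : ∀ v : G, ∀ g, {i | act v (F i) g ≠ 0}.Finite := fun v g => hF (g * v⁻¹)
    cases b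
    · refine ((hact (gen t)⁻¹ g).union (ih (fun i => act (gen t)⁻¹ (F i)) (hact _))).subset ?_
      intro i hi
      by_contra h
      simp only [Set.mem_union, Set.mem_ofPred_eq, not_or, not_not] at h
      refine hi ?_
      rw [path_cons_false, Pi.add_apply, Pi.add_apply, h.2, add_zero, Pi.neg_apply, Pi.neg_apply,
        neg_eq_zero]
      rcases eq_or_ne s t with rfl | hs
      · rw [Pi.single_eq_same]
        exact h.1
      · rw [Pi.single_eq_of_ne hs]
        rfl
    · refine ((hF g).union (ih (fun i => act (gen t) (F i)) (hact _))).subset ?_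
      intro i hi
      by_contra h
      simp only [Set.mem_union, Set.mem_ofPred_eq, not_or, not_not] at h
      refine hi ?_
      rw [path_cons_true, Pi.add_apply, Pi.add_apply, h.2, add_zero]
      rcases eq_or_ne s t with rfl | hs
      · rw [Pi.single_eq_same]
        exact h.1
      · rw [Pi.single_eq_of_ne hs]
        rfl

private theorem single_finsum (t s : S) (F : ι → G → V) (g : G) :
    (Pi.single t (fun g => ∑ᶠ i, F i g) : S → G → V) s g =
      ∑ᶠ i, (Pi.single t (F i) : S → G → V) s g := by
  rcases eq_or_ne s t with rfl | hs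
  · rw [Pi.single_eq_same]
    exact finsum_congr fun i => by rw [Pi.single_eq_same]
  · rw [Pi.single_eq_of_ne hs, Pi.zero_apply, ← finsum_zero (α := ι)]
    exact finsum_congr fun i => by rw [Pi.single_eq_of_ne hs, Pi.zero_apply]

private theorem finite_single (t s : S) (F : ι → G → V) (g : G)
    (hF : ∀ g, {i | F i g ≠ 0}.Finite) :
    {i | (Pi.single t (F i) : S → G → V) s g ≠ 0}.Finite := by
  refine (hF g).subset fun i hi h0 => hi ?_
  rcases eq_or_ne s t with rfl | hs
  · rw [Pi.single_eq_same]
    exact h0
  · rw [Pi.single_eq_of_ne hs]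
    rfl

theorem path_finsum (gen : S → G) (l : List (S × Bool)) (F : ι → G → V)
    (hF : ∀ g, {i | F i g ≠ 0}.Finite) :
    path gen l (fun g => ∑ᶠ i, F i g) = fun s g => ∑ᶠ i, path gen l (F i) s g := by
  induction l generalizing F with
  | nil =>
    funext s g
    simp
  | cons p l ih =>
    obtain ⟨t, b⟩ := p
    have hact : ∀ v : G, ∀ g, {i | act v (F i) g ≠ 0}.Finite := fun v g => hF (g * v⁻¹)
    have e : ∀ v : G, act v (fun g => ∑ᶠ i, F i g) = fun g => ∑ᶠ i, act v (F i) g := fun v => rfl
    funext s g
    cases b
    · rw [path_cons_false, e, ih _ (hact _)]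
      simp only [Pi.add_apply, Pi.neg_apply]
      rw [single_finsum, ← finsum_neg_distrib, ← finsum_add_distrib]
      · exact finsum_congr fun i => by
          rw [path_cons_false, Pi.add_apply, Pi.add_apply, Pi.neg_apply, Pi.neg_apply]
      · refine (finite_single t s (fun i => act (gen t)⁻¹ (F i)) g (hact _)).subset ?_
        intro i hi h0
        exact hi (by simp only [h0, neg_zero])
      · exact finite_path gen l _ (hact _) s g
    · rw [path_cons_true, e, ih _ (hact _)]
      simp only [Pi.add_apply]
      rw [single_finsum, ← finsum_add_distrib]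
      · exact finsum_congr fun i => by
          rw [path_cons_true, Pi.add_apply, Pi.add_apply]
      · exact finite_single t s F g hF
      · exact finite_path gen l _ (hact _) s g

theorem finite_bd2 (P : FinPres G) (d : ι → P.R → G → V)
    (hd : ∀ r g, {i | d i r g ≠ 0}.Finite) (s : P.S) (g : G) :
    {i | bd2 P (d i) s g ≠ 0}.Finite := by
  have h1 : (⋃ r : P.R, {i | path P.gen (P.rel r) (d i r) s g ≠ 0}).Finite :=
    Set.finite_iUnion fun r => finite_path P.gen (P.rel r) (fun i => d i r) (hd r) s g
  refine h1.subset fun i hi => ?_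
  by_contra h
  refine hi ?_
  unfold bd2
  rw [Finset.sum_apply, Finset.sum_apply]
  refine Finset.sum_eq_zero fun r _ => ?_
  by_contra h0
  exact h (Set.mem_iUnion.2 ⟨r, h0⟩)

theorem bd2_finsum (P : FinPres G) (d : ι → P.R → G → V)
    (hd : ∀ r g, {i | d i r g ≠ 0}.Finite) :
    bd2 P (fun r g => ∑ᶠ i, d i r g) = fun s g => ∑ᶠ i, bd2 P (d i) s g := by
  funext s g
  unfold bd2
  simp only [Finset.sum_apply]
  rw [finsum_sum_comm]
  · refine Finset.sum_congr rfl fun r _ => ?_
    exact congrFun (congrFun (path_finsum P.gen (P.rel r) (fun i => d i r) (hd r)) s) g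
  · intro r _
    exact finite_path P.gen (P.rel r) (fun i => d i r) (hd r) s g

end Pool.Agent.Helper52.HS
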