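import Pool.Agent.Helper52.HS.PushD
import Pool.Agent.Helper52.HS.SumL

/-!
# HS-AA: recursion along the flow; cutting a cycle at a coset; locally finite sums

* `exists_rec`: well-founded recursion `W a = c a + ∑ b with ν b = a, pu b (W b)`; carry the membership in a subtype
  (`W a : Cy a`; `pu b w` for `w ∈ Cy b` is in `Cy (ν b) = Cy a`), or define `W` with values in `X` and prove `W a ∈ Cy a` by
  well-founded induction.
* `cut_coset`: the cosets are right `H`-invariant and `τ t ∈ H`, so
  `bd1 τ (cut) g = if (g : G ⧸ H) = a then bd1 τ c g else 0 = 0`.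
* `chn_finsum`: `path_finsum` for every `t`, interchange of the finite sum over `t` with the `∑ᶠ` (`finsum_sum_comm`; the supports are finite by
  `finite_path`); the last claim: `chn` of the chain with the value `∑ᶠ a, C a t g`.
-/

set_option linter.unusedSectionVars false

namespace Pool.Agent.Helper52.HS

variable {G : Type} [Group G] {T : Type} [Fintype T] [DecidableEq T]

theorem exists_rec {A X : Type} [AddCommGroup X] (ν : A → A)
    (hwf : WellFounded (fun a b => ν a = b)) (hfin : ∀ b, {a | ν a = b}.Finite)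
    (Cy : A → AddSubgroup X) (pu : A → X → X) (hpu : ∀ a, ∀ w ∈ Cy a, pu a w ∈ Cy (ν a))
    (c : A → X) (hc : ∀ a, c a ∈ Cy a) :
    ∃ W : A → X, (∀ a, W a ∈ Cy a) ∧ ∀ a, W a = c a + ∑ b ∈ (hfin a).toFinset, pu b (W b) := by
  have hmem : ∀ a, ∀ b : {b // b ∈ (hfin a).toFinset}, ν b.1 = a := by
    intro a b
    have := b.2
    rw [Set.Finite.mem_toFinset] at this
    exact this
  let W : A → X := hwf.fix (C := fun _ => X) fun a ih =>
    c a + ∑ b ∈ (hfin a).toFinset.attach, pu b.1 (ih b.1 (hmem a b))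
  have hW : ∀ a, W a = c a + ∑ b ∈ (hfin a).toFinset, pu b (W b) := by
    intro a
    rw [← Finset.sum_attach (hfin a).toFinset (fun b => pu b (W b))]
    exact hwf.fix_eq _ a
  refine ⟨W, fun a => ?_, hW⟩
  induction a using hwf.induction with
  | _ a ih =>
    rw [hW a]
    refine (Cy a).add_mem (hc a) ((Cy a).sum_mem fun b hb => ?_)
    rw [Set.Finite.mem_toFinset] at hb
    have hb' : ν b = a := hb
    have h1 := hpu b (W b) (ih b hb')
    rw [hb'] at h1
    exact h1

open Classical in
theorem cut_coset (H : Subgroup G) {τ : T → G} (hτ : ∀ t, τ t ∈ H) (c : T → G → ℤ)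
    (hc : bd1 τ c = 0) (a : G ⧸ H) :
    bd1 τ (fun t g => if (g : G ⧸ H) = a then c t g else 0) = 0 := by
  funext g
  have h1 := congrFun hc g
  have e : ∀ t, ((g * (τ t)⁻¹ : G) : G ⧸ H) = (g : G ⧸ H) := by
    intro t
    rw [QuotientGroup.eq]
    simpa using hτ t
  simp only [bd1, act, Finset.sum_apply, Pi.sub_apply, Pi.zero_apply, e] at h1 ⊢
  by_cases h : (g : G ⧸ H) = a
  · simpa only [h, if_true] using h1
  · simp [h]

theorem finite_chn (P : FinPres G) (τ : T → G) {A : Type} (C : A → T → G → ℤ)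
    (hC : ∀ t g, {a | C a t g ≠ 0}.Finite) (s : P.S) (g : G) :
    {a | chn P τ (C a) s g ≠ 0}.Finite := by
  have h : {a | chn P τ (C a) s g ≠ 0} ⊆
      ⋃ t, {a | path P.gen (word P (τ t)) (C a t) s g ≠ 0} := by
    intro a ha
    simp only [chn, Finset.sum_apply, Set.mem_ofPred_eq] at ha
    obtain ⟨t, -, ht⟩ := Finset.exists_ne_zero_of_sum_ne_zero ha
    exact Set.mem_iUnion.2 ⟨t, ht⟩
  exact (Set.finite_iUnion fun t =>
    finite_path P.gen (word P (τ t)) (fun a => C a t) (hC t) s g).subset h

theorem chn_finsum (P : FinPres G) (τ : T → G) {A : Type} (C : A → T → G → ℤ)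
    (hC : ∀ t g, {a | C a t g ≠ 0}.Finite) :
    chn P τ (fun t g => ∑ᶠ a, C a t g) = fun s g => ∑ᶠ a, chn P τ (C a) s g := by
  funext s g
  simp only [chn, Finset.sum_apply]
  rw [finsum_sum_comm]
  · refine Finset.sum_congr rfl fun t _ => ?_
    exact congrFun (congrFun (path_finsum P.gen (word P (τ t)) (fun a => C a t) (hC t)) s) g
  · intro t _
    exact finite_path P.gen (word P (τ t)) (fun a => C a t) (hC t) s g

end Pool.Agent.Helper52.HS
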