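import Pool.Agent.Helper52.HS.AsmA

/-!
# HS-AS: all locally finite `H`-cycles bound

`hpush`: the conclusion of `push_uniform` for all `u ∈ Λ`; `y`, `ℓ`, the well-founded relation and the local finiteness are those of
`coset_flow`. Let `ν a = (y a * ℓ a : G ⧸ H)`. A function vanishes off the coset `a` if it vanishes at all `g` with
`(g : G ⧸ H) ≠ a`; `(g : G ⧸ H) = a` iff `(y a)⁻¹ * g ∈ H` (`QuotientGroup.eq`).
(1) Let `Cy a` be the subgroup of the `c : T → G → ℤ` vanishing off `a` with `bd1 τ c = 0`. By `hpush` choose for every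
`a` and `c ∈ Cy a` some `pu a c ∈ Cy (ν a)` and `dd a c : P.R → G → ℤ` with
`chn P τ (c - pu a c) = bd2 P (dd a c)`, and `dd a c r g ≠ 0` implies `(y a)⁻¹ g φ⁻¹ ∈ H` for some `φ` in the
finite union `Φ` of the sets `Φ u`, `u ∈ Λ`; i.e. `a = (g * φ⁻¹ : G ⧸ H)`.
(2) Given `c` with `bd1 τ c = 0` let `c_a t g = if (g : G ⧸ H) = a then c t g else 0`; `c_a ∈ Cy a` by `cut_coset`. Take
`W` from `exists_rec`.
(3) At every `t, g`: `c t g = ∑ᶠ a, (W a - pu a (W a)) t g`: for `a₀ = (g : G ⧸ H)`: `∑ᶠ a, W a t g = W a₀ t g`, and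
`∑ᶠ a, pu a (W a) t g = ∑ b with ν b = a₀, pu b (W b) t g` as `pu a (W a)` vanishes off `ν a`. So
`chn P τ c = ∑ᶠ a, chn P τ (W a - pu a (W a))` (`chn_finsum`) `= ∑ᶠ a, bd2 P (dd a (W a)) = bd2 P (fun r g => ∑ᶠ a, dd a (W a) r g)` (pointwise, by
`bd2_finsum`; the families are locally finite: at `g` only `a = (g : G ⧸ H)` and the finitely many `a` with
`ν a = (g : G ⧸ H)`, respectively the `a = (g φ⁻¹ : G ⧸ H)`, contribute).
-/

set_option linter.unusedSectionVars false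

namespace Pool.Agent.Helper52.HS

variable {G : Type} [Group G] {T : Type} [Fintype T] [DecidableEq T]

/-- the cycles on the coset `a` -/
private def as_Cy (τ : T → G) (H : Subgroup G) (a : G ⧸ H) : AddSubgroup (T → G → ℤ) where
  carrier := {c | (∀ (t : T) (g : G), (g : G ⧸ H) ≠ a → c t g = 0) ∧ bd1 τ c = 0}
  zero_mem' := ⟨fun _ _ _ => rfl, bd1_zero τ⟩
  add_mem' := by
    rintro c c' ⟨h1, h2⟩ ⟨h1', h2'⟩
    refine ⟨fun t g hg => ?_, ?_⟩
    · rw [Pi.add_apply, Pi.add_apply, h1 t g hg, h1' t g hg, add_zero]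
    · rw [bd1_add, h2, h2', add_zero]
  neg_mem' := by
    rintro c ⟨h1, h2⟩
    refine ⟨fun t g hg => ?_, ?_⟩
    · rw [Pi.neg_apply, Pi.neg_apply, h1 t g hg, neg_zero]
    · rw [bd1_neg, h2, neg_zero]

theorem chn_bounds (P : FinPres G) (H : Subgroup G) {τ : T → G}
    (hτ : Subgroup.closure (Set.range τ) = H) (Λ : Finset G) (y ℓ : G ⧸ H → G)
    (hy : ∀ a, ((y a : G) : G ⧸ H) = a) (hℓ : ∀ a, ℓ a ∈ Λ)
    (hwf : WellFounded (fun a b : G ⧸ H => ((y a * ℓ a : G) : G ⧸ H) = b))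
    (hfin : ∀ b : G ⧸ H, {a : G ⧸ H | ((y a * ℓ a : G) : G ⧸ H) = b}.Finite)
    (hpush : ∀ u ∈ Λ, ∃ Φ : Finset G, ∀ (y : G) (c : T → G → ℤ),
      (∀ t g, y⁻¹ * g ∉ H → c t g = 0) →
      bd1 τ c = 0 → ∃ c' : T → G → ℤ, (∀ t g, (y * u)⁻¹ * g ∉ H → c' t g = 0) ∧
        bd1 τ c' = 0 ∧ ∃ d : P.R → G → ℤ,
          (∀ r g, d r g ≠ 0 → ∃ φ ∈ Φ, y⁻¹ * g * φ⁻¹ ∈ H) ∧
          chn P τ (c - c') = bd2 P d)
    (c : T → G → ℤ) (hc : bd1 τ c = 0) : ∃ d : P.R → G → ℤ, chn P τ c = bd2 P d := by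
  classical
  have hτH : ∀ t, τ t ∈ H := fun t => hτ ▸ Subgroup.subset_closure (Set.mem_range_self t)
  choose! Φ hΦ using hpush
  set Φ' : Finset G := Λ.biUnion Φ with hΦ'
  have hcy : ∀ (a : G ⧸ H) (g : G), (g : G ⧸ H) = a ↔ (y a)⁻¹ * g ∈ H := by
    intro a g
    rw [← QuotientGroup.eq, hy a, eq_comm]
  have key : ∀ (a : G ⧸ H) (w : T → G → ℤ), w ∈ as_Cy τ H a →
      ∃ (w' : T → G → ℤ) (d : P.R → G → ℤ), w' ∈ as_Cy τ H ((y a * ℓ a : G) : G ⧸ H) ∧
        (∀ r g, d r g ≠ 0 → ∃ φ ∈ Φ', ((g * φ⁻¹ : G) : G ⧸ H) = a) ∧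
        chn P τ (w - w') = bd2 P d := by
    intro a w hw
    obtain ⟨w', h1, h2, d, h3, h4⟩ := hΦ (ℓ a) (hℓ a) (y a) w
      (fun t g hg => hw.1 t g (fun h => hg ((hcy a g).1 h))) hw.2
    refine ⟨w', d, ⟨fun t g hg => h1 t g fun h => hg ?_, h2⟩, fun r g hr => ?_, h4⟩
    · exact (QuotientGroup.eq.2 h).symm
    · obtain ⟨φ, hφ, hm⟩ := h3 r g hr
      refine ⟨φ, Finset.mem_biUnion.2 ⟨ℓ a, hℓ a, hφ⟩, (hcy a _).2 ?_⟩
      rw [← mul_assoc]
      exact hm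
  choose! pu dd hpu1 hpu2 hpu3 using key
  obtain ⟨W, hW1, hW2⟩ := exists_rec (fun a : G ⧸ H => ((y a * ℓ a : G) : G ⧸ H)) hwf hfin
    (as_Cy τ H) pu hpu1 (fun a t g => if (g : G ⧸ H) = a then c t g else 0)
    (fun a => ⟨fun t g hg => if_neg hg, cut_coset H hτH c hc a⟩)
  have hWf : ∀ (t : T) (g : G), (Function.support fun a => W a t g).Finite := by
    intro t g
    refine (Set.finite_singleton (g : G ⧸ H)).subset fun a ha => ?_
    by_contra h
    exact ha ((hW1 a).1 t g fun h' => h h'.symm)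
  have hPsub : ∀ (t : T) (g : G), (Function.support fun a => pu a (W a) t g) ⊆
      ((hfin (g : G ⧸ H)).toFinset : Set (G ⧸ H)) := by
    intro t g a ha
    rw [Set.Finite.coe_toFinset]
    by_contra h
    exact ha ((hpu1 a (W a) (hW1 a)).1 t g fun h' => h h'.symm)
  have hPf : ∀ (t : T) (g : G), (Function.support fun a => pu a (W a) t g).Finite := fun t g =>
    (Finset.finite_toSet _).subset (hPsub t g)
  have hC : ∀ (t : T) (g : G), {a | (W a - pu a (W a)) t g ≠ 0}.Finite := by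
    intro t g
    refine ((hWf t g).union (hPf t g)).subset fun a ha => ?_
    by_contra h
    rw [Set.mem_union, not_or, Function.mem_support, Function.mem_support, not_not, not_not] at h
    apply ha
    rw [Pi.sub_apply, Pi.sub_apply, h.1, h.2, sub_zero]
  have hcC : c = fun t g => ∑ᶠ a, (W a - pu a (W a)) t g := by
    funext t g
    have e1 : (∑ᶠ a, W a t g) = W (g : G ⧸ H) t g := by
      refine finsum_eq_single _ _ fun a ha => ?_
      exact (hW1 a).1 t g fun h' => ha h'.symm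
    have e2 : (∑ᶠ a, pu a (W a) t g) =
        ∑ a ∈ (hfin (g : G ⧸ H)).toFinset, pu a (W a) t g :=
      finsum_eq_sum_of_support_subset _ (hPsub t g)
    have e3 : (∑ᶠ a, (W a - pu a (W a)) t g) = (∑ᶠ a, W a t g) - ∑ᶠ a, pu a (W a) t g := by
      rw [← finsum_sub_distrib (hWf t g) (hPf t g)]
      rfl
    have e4 : W (g : G ⧸ H) t g =
        c t g + ∑ a ∈ (hfin (g : G ⧸ H)).toFinset, pu a (W a) t g := by
      conv_lhs => rw [hW2 (g : G ⧸ H)]
      rw [Pi.add_apply, Pi.add_apply, if_pos rfl, Finset.sum_apply, Finset.sum_apply]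
    rw [e3, e1, e2, e4, add_sub_cancel_right]
  have hd : ∀ (r : P.R) (g : G), {a | dd a (W a) r g ≠ 0}.Finite := by
    intro r g
    refine ((Φ'.image fun φ => ((g * φ⁻¹ : G) : G ⧸ H)).finite_toSet).subset fun a ha => ?_
    obtain ⟨φ, hφ, hm⟩ := hpu2 a (W a) (hW1 a) r g ha
    exact Finset.mem_coe.2 (Finset.mem_image.2 ⟨φ, hφ, hm⟩)
  refine ⟨fun r g => ∑ᶠ a, dd a (W a) r g, ?_⟩
  rw [bd2_finsum P (fun a => dd a (W a)) hd]
  conv_lhs => rw [hcC]
  rw [chn_finsum P τ (fun a => W a - pu a (W a)) hC]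
  funext s g
  refine finsum_congr fun a => ?_
  exact congrFun (congrFun (hpu3 a (W a) (hW1 a)) s) g

end Pool.Agent.Helper52.HS
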