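import Pool.Agent.Helper52.HS.Alg

/-!
# HS-BA: presentations by relators

* `presOf rel`: the presentation of `Gp rel`. `surj`: `PresentedGroup.mk` is surjective and
  `val (gn rel) l = PresentedGroup.mk _ (FreeGroup.mk l)` (`val_eq_lift`; the homomorphisms agree on the generators).
  `ker`: the kernel of `PresentedGroup.mk _` is the normal closure of the relators (`QuotientGroup.ker_mk'`).
* `countable_of_pres`: `P.surj` and `List (P.S × Bool)` is countable (`P.S` is finite).
-/

set_option linter.unusedSectionVars false

namespace Pool.Agent.Helper52.HS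

open Pool.Agent.Helper39.AH

theorem val_gn {X R : Type} (rel : R → List (X × Bool)) (l : List (X × Bool)) :
    val (gn rel) l = PresentedGroup.mk (Set.range fun ρ => FreeGroup.mk (rel ρ))
      (FreeGroup.mk l) := by
  classical
  rw [val_eq_lift]
  have h : FreeGroup.lift (gn rel) =
      PresentedGroup.mk (Set.range fun ρ => FreeGroup.mk (rel ρ)) := by
    refine FreeGroup.ext_hom _ _ fun x => ?_
    rw [FreeGroup.lift_apply_of]
    rfl
  rw [h]

theorem presOf_surj {X R : Type} (rel : R → List (X × Bool)) (g : Gp rel) :
    ∃ l : List (X × Bool), val (gn rel) l = g := by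
  classical
  obtain ⟨w, rfl⟩ := PresentedGroup.mk_surjective (Set.range fun ρ => FreeGroup.mk (rel ρ)) g
  refine ⟨w.toWord, ?_⟩
  rw [val_gn, FreeGroup.mk_toWord]

theorem presOf_ker {X R : Type} (rel : R → List (X × Bool)) (l : List (X × Bool))
    (h : val (gn rel) l = 1) :
    FreeGroup.mk l ∈ Subgroup.normalClosure (Set.range fun r => FreeGroup.mk (rel r)) := by
  rw [val_gn] at h
  exact (PresentedGroup.mk_eq_one_iff).1 h

theorem presOf_one {X R : Type} (rel : R → List (X × Bool)) (r : R) :
    val (gn rel) (rel r) = 1 := by
  rw [val_gn]
  exact PresentedGroup.one_of_mem ⟨r, rfl⟩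

/-- the presentation of the presented group -/
noncomputable def presOf {X R : Type} [Finite X] [Finite R] (rel : R → List (X × Bool)) :
    FinPres (Gp rel) where
  S := X
  R := R
  finS := Fintype.ofFinite X
  decS := Classical.decEq X
  finR := Fintype.ofFinite R
  gen := gn rel
  rel := rel
  surj := presOf_surj rel
  ker := presOf_ker rel
  rel_one := presOf_one rel

theorem countable_of_pres {G : Type} [Group G] (P : FinPres G) : Countable G := by
  have h : Function.Surjective (val P.gen) := P.surj
  exact h.countable

end Pool.Agent.Helper52.HS
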