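import Pool.Agent.Helper52.HS.Alg

/-!
# HS-BT: transport of presentations

* `val_trans`: induction on the word.
* `fill_trans`: functions on `G'` are functions on `G` composed with `e.symm`; `act`, `path`, `bd1`, `bd2` commute with this
  (`path_trans` by induction on the word).
-/

set_option linter.unusedSectionVars false

namespace Pool.Agent.Helper52.HS

variable {G G' : Type} [Group G] [Group G']

theorem val_trans {S : Type} (gen : S → G) (e : G ≃* G') (l : List (S × Bool)) :
    val (fun s => e (gen s)) l = e (val gen l) := by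
  induction l with
  | nil => exact (map_one e).symm
  | cons p l ih =>
    obtain ⟨s, b⟩ := p
    cases b
    · change (e (gen s))⁻¹ * val (fun s => e (gen s)) l = e ((gen s)⁻¹ * val gen l)
      rw [ih, map_mul, map_inv]
    · change e (gen s) * val (fun s => e (gen s)) l = e (gen s * val gen l)
      rw [ih, map_mul]

private theorem bt_single {S : Type} [DecidableEq S] (e : G ≃* G') (t s : S) (F : G' → ℤ) (g : G) :
    (Pi.single t F : S → G' → ℤ) s (e g) = (Pi.single t (fun g => F (e g)) : S → G → ℤ) s g := by
  by_cases h : s = t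
  · subst h
    rw [Pi.single_eq_same, Pi.single_eq_same]
  · rw [Pi.single_eq_of_ne h, Pi.single_eq_of_ne h]
    rfl

private theorem bt_act (e : G ≃* G') (v : G) (F : G' → ℤ) :
    (fun g => act (e v) F (e g)) = act v (fun g => F (e g)) := by
  funext g
  rw [act_apply, act_apply, map_mul, map_inv]

theorem path_trans {S : Type} [DecidableEq S] (gen : S → G) (e : G ≃* G') (l : List (S × Bool))
    (F : G' → ℤ) (s : S) (g : G) :
    path (fun s => e (gen s)) l F s (e g) = path gen l (fun g => F (e g)) s g := by
  induction l generalizing F with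
  | nil => rfl
  | cons p l ih =>
    obtain ⟨t, b⟩ := p
    cases b
    · rw [path_cons_false, path_cons_false, Pi.add_apply, Pi.add_apply, Pi.add_apply, Pi.add_apply,
        ih, Pi.neg_apply, Pi.neg_apply, Pi.neg_apply, Pi.neg_apply, bt_single, ← map_inv, bt_act]
    · rw [path_cons_true, path_cons_true, Pi.add_apply, Pi.add_apply, Pi.add_apply, Pi.add_apply,
        ih, bt_single, bt_act]

/-- transport of a presentation along an isomorphism -/
def FinPres.trans (P : FinPres G) (e : G ≃* G') : FinPres G' where
  S := P.S
  R := P.R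
  finS := P.finS
  decS := P.decS
  finR := P.finR
  gen := fun s => e (P.gen s)
  rel := P.rel
  surj := fun g => by
    obtain ⟨l, hl⟩ := P.surj (e.symm g)
    exact ⟨l, by rw [val_trans, hl, MulEquiv.apply_symm_apply]⟩
  ker := fun l hl => P.ker l (by
    rw [val_trans] at hl
    exact (MulEquiv.map_eq_one_iff e).1 hl)
  rel_one := fun r => by rw [val_trans, P.rel_one, map_one]

theorem fill_trans (P : FinPres G) (e : G ≃* G') (h : Fill P) : Fill (P.trans e) := by
  intro c hc
  have h0 : bd1 P.gen (fun s g => c s (e g)) = 0 := by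
    funext g
    have h1 := congrFun hc (e g)
    change (∑ s : P.S, (act (e (P.gen s)) (c s) - c s)) (e g) = 0 at h1
    change (∑ s : P.S, (act (P.gen s) (fun g => c s (e g)) - fun g => c s (e g))) g = 0
    rw [Finset.sum_apply] at h1 ⊢
    rw [← h1]
    refine Finset.sum_congr rfl fun s _ => ?_
    rw [Pi.sub_apply, Pi.sub_apply, ← bt_act]
  obtain ⟨d, hd⟩ := h _ h0
  refine ⟨fun r g => d r (e.symm g), ?_⟩
  funext s g'
  obtain ⟨g, rfl⟩ := e.surjective g'
  have h2 := congrFun (congrFun hd s) g
  change (∑ r : P.R, path P.gen (P.rel r) (d r)) s g = c s (e g) at h2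
  change (∑ r : P.R, path (fun s => e (P.gen s)) (P.rel r) (fun g => d r (e.symm g))) s (e g) = _
  rw [← h2, Finset.sum_apply, Finset.sum_apply, Finset.sum_apply, Finset.sum_apply]
  refine Finset.sum_congr rfl fun r _ => ?_
  rw [path_trans]
  simp only [MulEquiv.symm_apply_apply]

end Pool.Agent.Helper52.HS
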