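import Pool.Agent.Helper52.HS.CoreA

/-!
# HS-CO: double cosets of commensurated subgroups

* `finite_double`. Take `K`, `θ` from `exists_core`. `h u H = h' u H` if `h⁻¹ h' ∈ u H u⁻¹`, in particular if `h⁻¹ h' ∈ K`
  (`u⁻¹ K u ≤ H`); so the cosets `h u H`, `h ∈ H`, are finitely many
  (they are the `θ i u H`: `h ∈ θ i K`).
* `infinite_cosets`. `ℓ H ↦` cosets of `H.subgroupOf L`; `H.relIndex L = 0` means that the quotient is infinite
  (`Subgroup.relIndex`, `Subgroup.index_eq_zero_iff_infinite`).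
-/

namespace Pool.Agent.Helper52.HS

variable {G : Type} [Group G]

theorem finite_double (H : Subgroup G) (hH : H.FG) (hinf : Infinite H) (u : G)
    (hc : (H ⊓ H.map (MulAut.conj u).toMonoidHom).relIndex H ≠ 0) :
    {b : G ⧸ H | ∃ h ∈ H, b = ((h * u : G) : G ⧸ H)}.Finite := by
  obtain ⟨K, hKH, hKn, hKu, hKfg, hKinf, n, θ, hθ, hθ'⟩ := exists_core H hH hinf u hc
  refine (Set.finite_range (fun i : Fin n => ((θ i * u : G) : G ⧸ H))).subset ?_
  rintro b ⟨h, hh, rfl⟩
  obtain ⟨i, hi, -⟩ := hθ' h hh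
  refine ⟨i, ?_⟩
  change ((θ i * u : G) : G ⧸ H) = ((h * u : G) : G ⧸ H)
  rw [QuotientGroup.eq]
  have e : (θ i * u)⁻¹ * (h * u) = u⁻¹ * ((θ i)⁻¹ * h) * u := by group
  rw [e]
  exact hKu _ hi

theorem infinite_cosets (L H : Subgroup G) (hHL : H ≤ L) (hidx : H.relIndex L = 0) :
    {b : G ⧸ H | ∃ ℓ ∈ L, b = ((ℓ : G) : G ⧸ H)}.Infinite := by
  have hi : Infinite (L ⧸ H.subgroupOf L) := Subgroup.index_eq_zero_iff_infinite.1 hidx
  let f : L ⧸ H.subgroupOf L → G ⧸ H := Quotient.lift (fun l : L => ((l : G) : G ⧸ H)) (by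
    intro a b hab
    have h1 : a⁻¹ * b ∈ H.subgroupOf L := QuotientGroup.leftRel_apply.1 hab
    rw [QuotientGroup.eq]
    exact Subgroup.mem_subgroupOf.1 h1)
  have hf : Function.Injective f := by
    intro a b
    induction a using Quotient.inductionOn with | _ a =>
    induction b using Quotient.inductionOn with | _ b =>
    intro hab
    have h1 : ((a : G) : G ⧸ H) = ((b : G) : G ⧸ H) := hab
    rw [QuotientGroup.eq] at h1
    apply Quotient.sound
    exact QuotientGroup.leftRel_apply.2 (Subgroup.mem_subgroupOf.2 h1)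
  refine (Set.infinite_range_of_injective hf).mono ?_
  rintro b ⟨q, rfl⟩
  induction q using Quotient.inductionOn with | _ a =>
  exact ⟨a, a.2, rfl⟩

end Pool.Agent.Helper52.HS
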