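import Mathlib

/-!
# HS-CA: the core

`A = H ⊓ u H u⁻¹` has finite index in `H`. Let `K` be the normal core of `A` in `H` (`Subgroup.normalCore` of
`A.subgroupOf H`, mapped to `G` by `H.subtype`); it has finite index in `H`
(`Subgroup.finiteIndex_normalCore`), so it is infinite (`H` is infinite) and finitely generated
(`Subgroup.fg_of_index_ne_zero`: finite index subgroups of finitely generated groups), and `k ∈ K` gives
`k ∈ u H u⁻¹`, i.e. `u⁻¹ k u ∈ H`. `θ` enumerates representatives of the left cosets of `K` in `H`.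
-/

namespace Pool.Agent.Helper52.HS

variable {G : Type} [Group G]

theorem exists_core (H : Subgroup G) (hH : H.FG) (hinf : Infinite H) (u : G)
    (hc : (H ⊓ H.map (MulAut.conj u).toMonoidHom).relIndex H ≠ 0) :
    ∃ K : Subgroup G, K ≤ H ∧ (∀ h ∈ H, ∀ k ∈ K, h * k * h⁻¹ ∈ K) ∧
      (∀ k ∈ K, u⁻¹ * k * u ∈ H) ∧ K.FG ∧ Infinite K ∧
      ∃ (n : ℕ) (θ : Fin n → G), (∀ i, θ i ∈ H) ∧ ∀ h ∈ H, ∃! i, (θ i)⁻¹ * h ∈ K := by
  classical
  set A : Subgroup G := H ⊓ H.map (MulAut.conj u).toMonoidHom with hA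
  have hfi : (A.subgroupOf H).FiniteIndex := ⟨hc⟩
  set B : Subgroup H := (A.subgroupOf H).normalCore with hB
  have hBfi : B.FiniteIndex := Subgroup.finiteIndex_normalCore _
  have hfgH : Group.FG H := (Group.fg_iff_subgroup_fg H).2 hH
  have hmem : ∀ x : H, (x : G) ∈ B.map H.subtype ↔ x ∈ B := by
    intro x
    rw [Subgroup.mem_map]
    constructor
    · rintro ⟨y, hy, hyx⟩
      have : y = x := Subtype.ext hyx
      rwa [← this]
    · intro hx
      exact ⟨x, hx, rfl⟩
  refine ⟨B.map H.subtype, ?_, ?_, ?_, ?_, ?_, ?_⟩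
  · rintro _ ⟨x, -, rfl⟩
    exact x.2
  · rintro h hh _ ⟨x, hx, rfl⟩
    have h1 : (⟨h, hh⟩ : H) * x * (⟨h, hh⟩ : H)⁻¹ ∈ B :=
      (Subgroup.normalCore_normal _).conj_mem x hx _
    exact ⟨_, h1, rfl⟩
  · rintro _ ⟨x, hx, rfl⟩
    have h1 : x ∈ A.subgroupOf H := Subgroup.normalCore_le _ hx
    have h2 : (x : G) ∈ A := h1
    obtain ⟨y, hy, hyx⟩ := h2.2
    have h3 : u * y * u⁻¹ = (x : G) := hyx
    change u⁻¹ * (x : G) * u ∈ H
    rw [← h3]
    have h4 : u⁻¹ * (u * y * u⁻¹) * u = y := by group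
    rw [h4]
    exact hy
  · have h1 : Group.FG B := Subgroup.fg_of_index_ne_zero B
    obtain ⟨S, hS⟩ := (Group.fg_iff_subgroup_fg B).1 h1
    refine ⟨S.image H.subtype, ?_⟩
    rw [Finset.coe_image, ← MonoidHom.map_closure, hS]
  · have h1 : Nat.card B = 0 := by
      have h2 := B.card_mul_index
      rw [Nat.card_eq_zero_of_infinite (α := H)] at h2
      exact (Nat.mul_eq_zero.1 h2).resolve_right hBfi.index_ne_zero
    have h3 : Infinite B := by
      rcases Nat.card_eq_zero.1 h1 with h | h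
      · exact (h.false (⟨1, B.one_mem⟩ : B)).elim
      · exact h
    let f : B → (B.map H.subtype : Subgroup G) := fun x => ⟨((x : H) : G), (hmem x).2 x.2⟩
    refine Infinite.of_injective f ?_
    intro x y hxy
    have h4 : ((x : H) : G) = ((y : H) : G) := congrArg (fun z : (B.map H.subtype : Subgroup G) => (z : G)) hxy
    exact Subtype.ext (Subtype.ext h4)
  · have hfin : Finite (H ⧸ B) := Subgroup.finite_quotient_of_finiteIndex
    obtain ⟨n, ⟨e⟩⟩ := Finite.exists_equiv_fin (H ⧸ B)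
    refine ⟨n, fun i => (((e.symm i).out : H) : G), fun i => ((e.symm i).out : H).2, ?_⟩
    intro h hh
    have key : ∀ i : Fin n, ((((e.symm i).out : H) : G)⁻¹ * h ∈ B.map H.subtype ↔
        e.symm i = ((⟨h, hh⟩ : H) : H ⧸ B)) := by
      intro i
      have h1 : (((e.symm i).out : H) : G)⁻¹ * h =
          ((((e.symm i).out : H)⁻¹ * ⟨h, hh⟩ : H) : G) := rfl
      rw [h1, hmem, ← QuotientGroup.eq, QuotientGroup.out_eq']
    refine ⟨e ((⟨h, hh⟩ : H) : H ⧸ B), ?_, ?_⟩
    · exact (key _).2 (e.symm_apply_apply _)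
    · intro i hi
      have h2 := (key i).1 hi
      rw [← h2, e.apply_symm_apply]

end Pool.Agent.Helper52.HS
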