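import Pool.Agent.Helper52.HS.FlowA

/-!
# HS-FL: flow to infinity on a locally finite graph with infinite components

Proof. Take `C` from `exists_levels`.
(3) Let `lev x` be the least `n` with `x ∈ C (n+1)`; so `x ∉ C (lev x)`. Define `D n 0 x := x ∉ C (n+1)`
and `D n (m+1) x := ∃ y, adj x y ∧ y ∉ C n ∧ D n m y`. For `x ∉ C n` some `D n m x` holds (the set
`{y | Joined (C n) x y}` is infinite, so it is not contained in `C (n+1)`; induct on the path, from its head); let `δ n x` be the least such `m`. For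
`n = lev x` we have `δ n x > 0`; let `ν x` be a `y` with `adj x y`, `y ∉ C n`, `D n (δ n x - 1) y`.
Then `lev y > lev x`, or `lev y = lev x` and `δ n y < δ n x`.
(4) Let `B n` be a bound of `δ n` on the finite set `C (n+1)`. If `ν x = y` then
`(lev x, B (lev x) - δ x) < (lev y, B (lev y) - δ y)` in the lexicographic order of `ℕ × ℕ`, where
`δ x = δ (lev x) x`. So the relation is well-founded (`WellFounded` of `Prod.Lex` on `ℕ × ℕ`, `InvImage`,
`Subrelation.wf`).
-/

namespace Pool.Agent.Helper52.HS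

/-- a path of length `m` outside `C n` which ends outside `C (n+1)` -/
private def FlowD {V : Type} (adj : V → V → Prop) (C : ℕ → Set V) (n : ℕ) : ℕ → V → Prop
  | 0, x => x ∉ C (n + 1)
  | m + 1, x => ∃ y, adj x y ∧ y ∉ C n ∧ FlowD adj C n m y

theorem exists_flow {V : Type} [Countable V] (adj : V → V → Prop)
    (hsymm : ∀ x y, adj x y → adj y x) (hlf : ∀ x, {y | adj x y}.Finite)
    (hinf : ∀ x, {y | Relation.ReflTransGen adj x y}.Infinite) :
    ∃ ν : V → V, (∀ x, adj x (ν x)) ∧ WellFounded (fun x y => ν x = y) := by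
  classical
  obtain ⟨C, hC0, hCf, hCm, hCu, hCi⟩ := exists_levels adj hsymm hlf hinf
  have hmono : Monotone C := monotone_nat_of_le_succ hCm
  -- the level
  have hex : ∀ x, ∃ n, x ∈ C (n + 1) := by
    intro x
    obtain ⟨n, hn⟩ := hCu x
    exact ⟨n, hCm n hn⟩
  set lev : V → ℕ := fun x => Nat.find (hex x) with hlev
  have hlev1 : ∀ x, x ∈ C (lev x + 1) := fun x => Nat.find_spec (hex x)
  have hlev2 : ∀ x, x ∉ C (lev x) := by
    intro x hx
    rcases Nat.eq_zero_or_pos (lev x) with h0 | h0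
    · rw [h0, hC0] at hx
      exact hx
    · have h1 : lev x - 1 + 1 = lev x := Nat.succ_pred_eq_of_pos h0
      have h2 : ¬ x ∈ C (lev x - 1 + 1) := Nat.find_min (hex x) (Nat.sub_lt h0 Nat.one_pos)
      rw [h1] at h2
      exact h2 hx
  -- the distances
  have hD : ∀ n x, x ∉ C n → ∃ m, FlowD adj C n m x := by
    intro n x hx
    obtain ⟨y, hy, hy'⟩ := (hCi n x hx).exists_notMem_finite (hCf (n + 1))
    have hj : Joined adj (C n) x y := hy
    clear hy
    unfold Joined at hj
    clear hx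
    induction hj using Relation.ReflTransGen.head_induction_on with
    | refl => exact ⟨0, hy'⟩
    | head h _ ih =>
      obtain ⟨m, hm⟩ := ih
      exact ⟨m + 1, _, h.1, h.2.2, hm⟩
  set δ : ℕ → V → ℕ := fun n x => sInf {m | FlowD adj C n m x} with hδ
  have hδ1 : ∀ n x, x ∉ C n → FlowD adj C n (δ n x) x := fun n x hx =>
    Nat.sInf_mem (s := {m | FlowD adj C n m x}) (hD n x hx)
  have hδ2 : ∀ n x m, FlowD adj C n m x → δ n x ≤ m := fun n x m hm => Nat.sInf_le hm
  -- the map
  have hν : ∀ x, ∃ y, adj x y ∧ y ∉ C (lev x) ∧ δ (lev x) y < δ (lev x) x := by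
    intro x
    have h1 := hδ1 (lev x) x (hlev2 x)
    rcases hm : δ (lev x) x with _ | m
    · rw [hm] at h1
      exact absurd (hlev1 x) h1
    · rw [hm] at h1
      obtain ⟨y, hy1, hy2, hy3⟩ := h1
      exact ⟨y, hy1, hy2, Nat.lt_succ_of_le (hδ2 _ _ _ hy3)⟩
  choose ν hν1 hν2 hν3 using hν
  have hB : ∀ n, ∃ B, ∀ x ∈ C (n + 1), δ n x ≤ B := by
    intro n
    obtain ⟨B, hB⟩ := ((hCf (n + 1)).image (δ n)).bddAbove
    exact ⟨B, fun x hx => hB ⟨x, hx, rfl⟩⟩
  choose B hB using hB
  refine ⟨ν, hν1, ?_⟩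
  have hwf : WellFounded (Prod.Lex (fun a b : ℕ => a < b) (fun a b : ℕ => a < b)) :=
    (Prod.lex ⟨_, wellFounded_lt⟩ ⟨_, wellFounded_lt⟩).wf
  refine Subrelation.wf (r := InvImage (Prod.Lex (fun a b : ℕ => a < b) (fun a b : ℕ => a < b))
    (fun x => (lev x, B (lev x) - δ (lev x) x))) ?_ (InvImage.wf _ hwf)
  intro x y hxy
  subst hxy
  show Prod.Lex _ _ (lev x, B (lev x) - δ (lev x) x)
    (lev (ν x), B (lev (ν x)) - δ (lev (ν x)) (ν x))
  have hle : lev x ≤ lev (ν x) := by
    by_contra hlt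
    push Not at hlt
    exact hν2 x (hmono (Nat.succ_le_of_lt hlt) (hlev1 (ν x)))
  rcases hle.lt_or_eq with h | h
  · exact Prod.Lex.left _ _ h
  · rw [← h]
    apply Prod.Lex.right
    have h1 := hν3 x
    have h2 := hB (lev x) x (hlev1 x)
    omega

end Pool.Agent.Helper52.HS
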