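import Pool.Agent.Helper52.HS.Core
import Pool.Agent.Helper52.HS.Flow

/-!
# HS-CS: a flow to infinity on the cosets of a commensurated subgroup

Let `Λ` be a finite generating set of `L`, closed under inverses, and
`adj a b := ∃ y : G, ∃ u ∈ Λ, (y : G ⧸ H) = a ∧ ((y * u : G) : G ⧸ H) = b`. This is symmetric (`(y u) u⁻¹ = y`).
It is locally finite: if `a = y₀ H` the neighbours of `a` are the `y₀ h u H`, `h ∈ H`, `u ∈ Λ`, finitely many by
`finite_double` (left multiplication by `y₀`). The component of `y H` contains `y ℓ H` for all `ℓ ∈ L`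
(`Subgroup.closure_induction` on `ℓ`, or words in `Λ`), infinitely many by `infinite_cosets`. `G ⧸ H` is countable. So `exists_flow`
gives `ν`; choose for every `a` `y a` and `ℓ a ∈ Λ` with `y a H = a`, `y a ℓ a H = ν a`. The last claim: the `a` with
`ν a = b` are neighbours of `b` (`adj` is symmetric and locally finite).
-/

namespace Pool.Agent.Helper52.HS

variable {G : Type} [Group G]

theorem coset_flow [Countable G] (L H : Subgroup G) (hL : L.FG) (hHL : H ≤ L) (hH : H.FG)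
    (hinf : Infinite H) (hidx : H.relIndex L = 0)
    (hc : ∀ x ∈ L, (H ⊓ H.map (MulAut.conj x).toMonoidHom).relIndex H ≠ 0) :
    ∃ (Λ : Finset G) (y ℓ : G ⧸ H → G), (∀ u ∈ Λ, u ∈ L) ∧ (∀ a, ((y a : G) : G ⧸ H) = a) ∧
      (∀ a, ℓ a ∈ Λ) ∧
      WellFounded (fun a b : G ⧸ H => ((y a * ℓ a : G) : G ⧸ H) = b) ∧
      ∀ b : G ⧸ H, {a : G ⧸ H | ((y a * ℓ a : G) : G ⧸ H) = b}.Finite := by
  classical
  obtain ⟨S, hS⟩ := hL
  set Λ : Finset G := S ∪ S.image (fun x => x⁻¹) with hΛ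
  have hSL : ∀ u ∈ S, u ∈ L := fun u hu => by
    rw [← hS]; exact Subgroup.subset_closure hu
  have hΛL : ∀ u ∈ Λ, u ∈ L := by
    intro u hu
    rw [hΛ, Finset.mem_union, Finset.mem_image] at hu
    rcases hu with hu | ⟨v, hv, rfl⟩
    · exact hSL u hu
    · exact L.inv_mem (hSL v hv)
  have hΛi : ∀ u ∈ Λ, u⁻¹ ∈ Λ := by
    intro u hu
    rw [hΛ, Finset.mem_union, Finset.mem_image] at hu ⊢
    rcases hu with hu | ⟨v, hv, rfl⟩
    · exact Or.inr ⟨u, hu, rfl⟩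
    · left; rwa [inv_inv]
  have hSΛ : ∀ u ∈ S, u ∈ Λ := fun u hu => by
    rw [hΛ]; exact Finset.mem_union_left _ hu
  let adj : G ⧸ H → G ⧸ H → Prop := fun a b =>
    ∃ y : G, ∃ u ∈ Λ, ((y : G) : G ⧸ H) = a ∧ ((y * u : G) : G ⧸ H) = b
  have hsymm : ∀ a b, adj a b → adj b a := by
    rintro a b ⟨y, u, hu, h1, h2⟩
    refine ⟨y * u, u⁻¹, hΛi u hu, h2, ?_⟩
    rw [mul_inv_cancel_right]; exact h1
  have hlf : ∀ a, {b | adj a b}.Finite := by
    intro a
    obtain ⟨y₀, rfl⟩ := QuotientGroup.mk_surjective a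
    have hfin : (⋃ u ∈ Λ, (fun c : G ⧸ H => y₀ • c) ''
        {b : G ⧸ H | ∃ h ∈ H, b = ((h * u : G) : G ⧸ H)}).Finite := by
      refine Set.Finite.biUnion (Finset.finite_toSet Λ) ?_
      intro u hu
      exact (finite_double H hH hinf u (hc u (hΛL u hu))).image _
    refine hfin.subset ?_
    rintro b ⟨y, u, hu, h1, h2⟩
    rw [QuotientGroup.eq] at h1
    have h3 : y₀⁻¹ * y ∈ H := by
      have := H.inv_mem h1
      rwa [mul_inv_rev, inv_inv] at this
    refine Set.mem_biUnion hu ⟨((y₀⁻¹ * y * u : G) : G ⧸ H), ⟨y₀⁻¹ * y, h3, rfl⟩, ?_⟩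
    rw [← h2]
    change ((y₀ * (y₀⁻¹ * y * u) : G) : G ⧸ H) = _
    congr 1
    group
  have hcomp : ∀ (y₀ ℓ : G), ℓ ∈ L →
      Relation.ReflTransGen adj ((y₀ : G) : G ⧸ H) ((y₀ * ℓ : G) : G ⧸ H) := by
    intro y₀ ℓ hℓ
    rw [← hS] at hℓ
    induction hℓ using Subgroup.closure_induction_right with
    | one => rw [mul_one]
    | mul_right x hx z hz ih =>
      refine ih.tail ⟨y₀ * x, z, hSΛ z hz, rfl, ?_⟩
      rw [mul_assoc]
    | mul_inv_cancel x hx z hz ih =>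
      refine ih.tail ⟨y₀ * x, z⁻¹, hΛi z (hSΛ z hz), rfl, ?_⟩
      rw [mul_assoc]
  have hinf' : ∀ a, {b | Relation.ReflTransGen adj a b}.Infinite := by
    intro a
    obtain ⟨y₀, rfl⟩ := QuotientGroup.mk_surjective a
    have h1 := infinite_cosets L H hHL hidx
    have h2 : ((fun c : G ⧸ H => y₀ • c) ''
        {b : G ⧸ H | ∃ ℓ ∈ L, b = ((ℓ : G) : G ⧸ H)}).Infinite :=
      h1.image (MulAction.injective y₀).injOn
    refine h2.mono ?_
    rintro _ ⟨_, ⟨ℓ, hℓ, rfl⟩, rfl⟩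
    exact hcomp y₀ ℓ hℓ
  have : Countable (G ⧸ H) := (QuotientGroup.mk_surjective (s := H)).countable
  obtain ⟨ν, hν, hwf⟩ := exists_flow adj hsymm hlf hinf'
  choose y ℓ hℓ hy hyl using hν
  refine ⟨Λ, y, ℓ, hΛL, hy, hℓ, ?_, ?_⟩
  · have h : (fun a b : G ⧸ H => ((y a * ℓ a : G) : G ⧸ H) = b) = fun a b => ν a = b := by
      funext a b
      rw [hyl]
    rw [h]; exact hwf
  · intro b
    refine (hlf b).subset ?_
    intro a ha
    rw [Set.mem_setOf_eq] at ha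
    apply hsymm
    exact ⟨y a, ℓ a, hℓ a, hy a, ha⟩

end Pool.Agent.Helper52.HS
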