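import Pool.Agent.Helper39.AH.Defs

/-!
# Project HS (MP_db811f_gt): definitions

`Gp rel`, `gn`, `ch`, `vs`, `Z1`, `B1`, `H1Semistable` are those of project AH. Here: one-endedness, the class
`Good` of subgroups, and (for the proofs) locally finite chains as functions.

A finite presentation `P : FinPres G` of the group `G`; a locally finite 1-chain is a function
`c : P.S → G → V` (`c s g` is the coefficient of the edge from `g` to `g * gen s`), a 2-chain is a
function `P.R → G → V`.
-/

namespace Pool.Agent.Helper52.HS

open Pool.Agent.Helper39.AH

/-- The group presented by `rel` has exactly one end: it is infinite, and for every finite set `C` of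
vertices of the Cayley graph all vertices outside some larger finite set `D` lie in one
component of the complement of `C`. -/
def OneEnded {X R : Type} (rel : R → List (X × Bool)) : Prop :=
  Infinite (Gp rel) ∧ ∀ C : Finset (Gp rel), ∃ D : Finset (Gp rel), ∀ x y, x ∉ D → y ∉ D →
    Relation.ReflTransGen
      (fun a b => a ∉ C ∧ b ∉ C ∧ ∃ s, b = a * gn rel s ∨ a = b * gn rel s) x y

/-- The smallest class of subgroups of `G` which contains
* the finitely presented one-ended subgroups with semistable first homology at infinity,
* the finitely generated subgroups which have a commensurated infinite finitely generated subgroup of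
  infinite index,

and is closed under adding an element `s` to `N` when `N ∩ s N s⁻¹` contains an infinite finitely
generated subgroup, under joining `N` and `N'` when `N ∩ N'` contains an infinite finitely generated
subgroup, and under directed unions. -/
inductive Good {G : Type} [Group G] : Subgroup G → Prop
  | semi {X R : Type} [Finite X] [Finite R] (rel : R → List (X × Bool)) (L : Subgroup G)
      (e : Gp rel ≃* L) (h1 : OneEnded rel) (h2 : H1Semistable rel) : Good L
  | comm (L H : Subgroup G) (hL : L.FG) (hHL : H ≤ L) (hH : H.FG) (hinf : Infinite H)
      (hidx : H.relIndex L = 0)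
      (hc : ∀ x ∈ L, (H ⊓ H.map (MulAut.conj x).toMonoidHom).relIndex H ≠ 0) : Good L
  | conj (N K : Subgroup G) (s : G) (hN : Good N) (hK : K.FG) (hinf : Infinite K) (h1 : K ≤ N)
      (h2 : ∀ k ∈ K, s⁻¹ * k * s ∈ N) : Good (N ⊔ Subgroup.zpowers s)
  | join (N N' K : Subgroup G) (hN : Good N) (hN' : Good N') (hK : K.FG) (hinf : Infinite K)
      (h1 : K ≤ N) (h2 : K ≤ N') : Good (N ⊔ N')
  | union (Y : Set (Subgroup G)) (hY : Y.Nonempty) (hd : DirectedOn (· ≤ ·) Y)
      (hg : ∀ N ∈ Y, Good N) : Good (sSup Y)

/-! ## Locally finite chains -/

section chains

variable {G : Type} [Group G] {V : Type} [AddCommGroup V] {S : Type} [DecidableEq S]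

/-- right translation of functions on `G` -/
def act (v : G) (F : G → V) : G → V := fun g => F (g * v⁻¹)

/-- the value of a word in the group -/
def val (gen : S → G) : List (S × Bool) → G
  | [] => 1
  | (s, true) :: l => gen s * val gen l
  | (s, false) :: l => (gen s)⁻¹ * val gen l

/-- the 1-chain `∑ g, F g • p g` where `p g` is the edge path from `g` labelled by the word `l` -/
def path (gen : S → G) : List (S × Bool) → (G → V) → S → G → V
  | [], _ => 0
  | (s, true) :: l, F => Pi.single s F + path gen l (act (gen s) F)
  | (s, false) :: l, F => -Pi.single s (act (gen s)⁻¹ F) + path gen l (act (gen s)⁻¹ F)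

/-- the boundary of a 1-chain -/
def bd1 [Fintype S] (gen : S → G) (c : S → G → V) : G → V :=
  ∑ s, (act (gen s) (c s) - c s)

end chains

/-- A finite presentation of the group `G`. -/
structure FinPres (G : Type) [Group G] where
  /-- generators -/
  S : Type
  /-- relators -/
  R : Type
  finS : Fintype S
  decS : DecidableEq S
  finR : Fintype R
  /-- the element of `G` given by a generator -/
  gen : S → G
  /-- the relators -/
  rel : R → List (S × Bool)
  surj : ∀ g : G, ∃ l : List (S × Bool), val gen l = g
  ker : ∀ l : List (S × Bool), val gen l = 1 →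
    FreeGroup.mk l ∈ Subgroup.normalClosure (Set.range fun r => FreeGroup.mk (rel r))
  rel_one : ∀ r, val gen (rel r) = 1

attribute [instance] FinPres.finS FinPres.decS FinPres.finR

section

variable {G : Type} [Group G] {V : Type} [AddCommGroup V]

/-- the boundary of a 2-chain -/
def bd2 (P : FinPres G) (d : P.R → G → V) : P.S → G → V :=
  ∑ r, path P.gen (P.rel r) (d r)

/-- every locally finite integral 1-cycle is the boundary of a locally finite 2-chain -/
def Fill (P : FinPres G) : Prop :=
  ∀ c : P.S → G → ℤ, bd1 P.gen c = 0 → ∃ d : P.R → G → ℤ, bd2 P d = c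

end

end Pool.Agent.Helper52.HS
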