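import Pool.Agent.Helper52.HS.Quot
import Pool.Agent.Helper52.HS.Bridge

/-!
# Project HS: finite chains, chains off a finite set, the finite version of semistability

* `FS c`: `c` has finite support. `Off1 gen C c`: no edge of `c` has a vertex in `C`. `Off2 P C d`: no
  face of `d` has a vertex in `C` (the vertices of the face `(r, g)` are `vs P.gen (P.rel r) g`).
-/

set_option linter.unusedSectionVars false

namespace Pool.Agent.Helper52.HS

open Pool.Agent.Helper39.AH

variable {G : Type} [Group G] {S : Type} [DecidableEq S]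

/-- finite support -/
def FS {I : Type} (c : I → G → ℤ) : Prop := {p : I × G | c p.1 p.2 ≠ 0}.Finite

/-- no edge of `c` has a vertex in `C` -/
def Off1 (gen : S → G) (C : Finset G) (c : S → G → ℤ) : Prop :=
  ∀ s g, c s g ≠ 0 → g ∉ C ∧ g * gen s ∉ C

/-- no face of `d` has a vertex in `C` -/
def Off2 (P : FinPres G) (C : Finset G) (d : P.R → G → ℤ) : Prop :=
  ∀ r g, d r g ≠ 0 → ∀ v ∈ vs P.gen (P.rel r) g, v ∉ C

/-- semistability of the first homology at infinity, in terms of finitely supported functions -/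
def SS (P : FinPres G) : Prop :=
  ∀ C : Finset G, ∃ D : Finset G, C ⊆ D ∧ ∀ E : Finset G, D ⊆ E → ∀ z : P.S → G → ℤ,
    FS z → bd1 P.gen z = 0 → Off1 P.gen D z → ∃ z' : P.S → G → ℤ, FS z' ∧
      bd1 P.gen z' = 0 ∧ Off1 P.gen E z' ∧ ∃ d : P.R → G → ℤ, FS d ∧ Off2 P C d ∧
        z - z' = bd2 P d

/-- one-endedness -/
def OE (P : FinPres G) : Prop :=
  Infinite G ∧ ∀ C : Finset G, ∃ D : Finset G, ∀ x y, x ∉ D → y ∉ D →
    Relation.ReflTransGen
      (fun a b => a ∉ C ∧ b ∉ C ∧ ∃ s, b = a * P.gen s ∨ a = b * P.gen s) x y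

theorem FS.zero {I : Type} : FS (0 : I → G → ℤ) := by
  unfold FS
  simp

theorem FS.add {I : Type} {c c' : I → G → ℤ} (h : FS c) (h' : FS c') : FS (c + c') := by
  refine (h.union h').subset fun p hp => ?_
  by_contra h0
  simp only [Set.mem_union, Set.mem_ofPred_eq, not_or, not_not] at h0
  exact hp (by rw [Pi.add_apply, Pi.add_apply, h0.1, h0.2, add_zero])

theorem FS.neg {I : Type} {c : I → G → ℤ} (h : FS c) : FS (-c) := by
  refine h.subset fun p hp h0 => hp ?_
  rw [Pi.neg_apply, Pi.neg_apply, h0, neg_zero]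

theorem FS.sub {I : Type} {c c' : I → G → ℤ} (h : FS c) (h' : FS c') : FS (c - c') := by
  rw [sub_eq_add_neg]
  exact h.add h'.neg

theorem Off1.zero {gen : S → G} {C : Finset G} : Off1 gen C 0 := fun _ _ h => absurd rfl h

theorem Off1.add {gen : S → G} {C : Finset G} {c c' : S → G → ℤ} (h : Off1 gen C c)
    (h' : Off1 gen C c') : Off1 gen C (c + c') := by
  intro s g hg
  by_cases h0 : c s g = 0
  · refine h' s g fun h1 => hg ?_
    rw [Pi.add_apply, Pi.add_apply, h0, h1, add_zero]
  · exact h s g h0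

theorem Off1.neg {gen : S → G} {C : Finset G} {c : S → G → ℤ} (h : Off1 gen C c) :
    Off1 gen C (-c) := by
  intro s g hg
  refine h s g fun h1 => hg ?_
  rw [Pi.neg_apply, Pi.neg_apply, h1, neg_zero]

theorem Off1.sub {gen : S → G} {C : Finset G} {c c' : S → G → ℤ} (h : Off1 gen C c)
    (h' : Off1 gen C c') : Off1 gen C (c - c') := by
  rw [sub_eq_add_neg]
  exact h.add h'.neg

theorem Off1.mono {gen : S → G} {C C' : Finset G} {c : S → G → ℤ} (h : Off1 gen C' c)
    (hC : C ⊆ C') : Off1 gen C c :=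
  fun s g hg => ⟨fun h1 => (h s g hg).1 (hC h1), fun h1 => (h s g hg).2 (hC h1)⟩

theorem Off2.add {P : FinPres G} {C : Finset G} {c c' : P.R → G → ℤ} (h : Off2 P C c)
    (h' : Off2 P C c') : Off2 P C (c + c') := by
  intro s g hg
  by_cases h0 : c s g = 0
  · refine h' s g fun h1 => hg ?_
    rw [Pi.add_apply, Pi.add_apply, h0, h1, add_zero]
  · exact h s g h0

theorem Off2.zero {P : FinPres G} {C : Finset G} : Off2 P C 0 := fun _ _ h => absurd rfl h

theorem Off2.mono {P : FinPres G} {C C' : Finset G} {d : P.R → G → ℤ} (h : Off2 P C' d)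
    (hC : C ⊆ C') : Off2 P C d :=
  fun r g hg v hv h1 => h r g hg v hv (hC h1)

theorem bd2_congr (P : FinPres G) {d d' : P.R → G → ℤ} {s : P.S} {g : G}
    (h : ∀ r g', g ∈ vs P.gen (P.rel r) g' → d r g' = d' r g') :
    bd2 P d s g = bd2 P d' s g := by
  unfold bd2
  simp only [Finset.sum_apply]
  exact Finset.sum_congr rfl fun r _ => path_congr P.gen (P.rel r) fun g' hg' => h r g' hg'

end Pool.Agent.Helper52.HS
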