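import Pool.Agent.Helper52.HS.Ends

/-!
# HS-EB: finite 0-chains of sum zero near infinity bound near infinity

`path_chain`: induction on `Relation.ReflTransGen` (`head` or `tail`): an edge from `a` to `a * gen s` is
`Pi.single s (Pi.single a 1)`, with boundary `Pi.single (a * gen s) 1 - Pi.single a 1` (`bd1_single`); an edge traversed
backwards gives the negative.
`zero_chain`: `D` from `OE`. If `b = 0` take `e = 0`. Otherwise fix `g₀` with `b g₀ ≠ 0` (so `g₀ ∉ D`); for every `g` with `b g ≠ 0`
let `e g` be the chain of `path_chain` from `g₀` to `g`; `e = ∑ g ∈ supp b, b g • e g` has the boundary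
`∑ g, b g • (Pi.single g 1 - Pi.single g₀ 1) = b - (∑ g, b g) • Pi.single g₀ 1 = b`.
-/

set_option linter.unusedSectionVars false

namespace Pool.Agent.Helper52.HS

open Pool.Agent.Helper39.AH

variable {G : Type} [Group G] [DecidableEq G]

private theorem EndsA_act (v a : G) :
    act v (Pi.single a (1 : ℤ) : G → ℤ) = Pi.single (a * v) 1 := by
  funext g
  rw [act_apply]
  by_cases h : g = a * v
  · rw [h, mul_inv_cancel_right, Pi.single_eq_same, Pi.single_eq_same]
  · rw [Pi.single_eq_of_ne h, Pi.single_eq_of_ne]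
    intro h1
    exact h (by rw [← h1, inv_mul_cancel_right])

private theorem EndsA_edge (P : FinPres G) (C : Finset G) (s : P.S) (a : G) (ha : a ∉ C)
    (hb : a * P.gen s ∉ C) :
    ∃ e : P.S → G → ℤ, FS e ∧ Off1 P.gen C e ∧
      bd1 P.gen e = Pi.single (a * P.gen s) 1 - Pi.single a 1 := by
  refine ⟨Pi.single s (Pi.single a 1), ?_, ?_, ?_⟩
  · refine (Set.finite_singleton (s, a)).subset ?_
    rintro ⟨t, g⟩ hp
    by_cases ht : t = s
    · subst ht
      by_cases hg : g = a
      · rw [hg]; rfl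
      · exact absurd (by simp only [Pi.single_eq_same, Pi.single_eq_of_ne hg]) hp
    · exact absurd (by simp only [Pi.single_eq_of_ne ht, Pi.zero_apply]) hp
  · intro t g hp
    by_cases ht : t = s
    · subst ht
      by_cases hg : g = a
      · rw [hg]; exact ⟨ha, hb⟩
      · exact absurd (by simp only [Pi.single_eq_same, Pi.single_eq_of_ne hg]) hp
    · exact absurd (by simp only [Pi.single_eq_of_ne ht, Pi.zero_apply]) hp
  · rw [bd1_single, EndsA_act]

theorem path_chain (P : FinPres G) (C : Finset G) (x y : G)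
    (h : Relation.ReflTransGen
      (fun a b => a ∉ C ∧ b ∉ C ∧ ∃ s, b = a * P.gen s ∨ a = b * P.gen s) x y) :
    ∃ e : P.S → G → ℤ, FS e ∧ Off1 P.gen C e ∧
      bd1 P.gen e = Pi.single y 1 - Pi.single x 1 := by
  induction h with
  | refl => exact ⟨0, FS.zero, Off1.zero, by rw [bd1_zero, sub_self]⟩
  | @tail a b _ hst ih =>
    obtain ⟨e, he1, he2, he3⟩ := ih
    obtain ⟨ha, hb, s, hs | hs⟩ := hst
    · subst hs
      obtain ⟨e', he1', he2', he3'⟩ := EndsA_edge P C s a ha hb
      refine ⟨e + e', he1.add he1', he2.add he2', ?_⟩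
      rw [bd1_add, he3, he3']
      abel
    · subst hs
      obtain ⟨e', he1', he2', he3'⟩ := EndsA_edge P C s b hb ha
      refine ⟨e - e', he1.sub he1', he2.sub he2', ?_⟩
      rw [bd1_sub, he3, he3']
      abel

private theorem EndsA_FS_sum {I J : Type} (A : Finset J) (n : J → ℤ) (c : J → I → G → ℤ)
    (h : ∀ j ∈ A, FS (c j)) : FS (∑ j ∈ A, n j • c j) := by
  classical
  induction A using Finset.induction_on with
  | empty => rw [Finset.sum_empty]; exact FS.zero
  | insert j A hj ih =>
    rw [Finset.sum_insert hj]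
    refine FS.add ?_ (ih fun k hk => h k (Finset.mem_insert_of_mem hk))
    refine (h j (Finset.mem_insert_self j A)).subset fun p hp h0 => hp ?_
    show n j • c j p.1 p.2 = 0
    rw [h0, smul_zero]

private theorem EndsA_Off_sum {J S : Type} [DecidableEq S] (gen : S → G) (C : Finset G)
    (A : Finset J) (n : J → ℤ) (c : J → S → G → ℤ)
    (h : ∀ j ∈ A, Off1 gen C (c j)) : Off1 gen C (∑ j ∈ A, n j • c j) := by
  classical
  induction A using Finset.induction_on with
  | empty => rw [Finset.sum_empty]; exact Off1.zero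
  | insert j A hj ih =>
    rw [Finset.sum_insert hj]
    refine Off1.add ?_ (ih fun k hk => h k (Finset.mem_insert_of_mem hk))
    intro s g hg
    refine h j (Finset.mem_insert_self j A) s g fun h0 => hg ?_
    show n j • c j s g = 0
    rw [h0, smul_zero]

theorem zero_chain (P : FinPres G) (h : OE P) (C : Finset G) :
    ∃ D : Finset G, ∀ b : G → ℤ, {g | b g ≠ 0}.Finite → ∑ᶠ g, b g = 0 →
      (∀ g ∈ D, b g = 0) → ∃ e : P.S → G → ℤ, FS e ∧ Off1 P.gen C e ∧ bd1 P.gen e = b := by
  classical
  obtain ⟨D, hD⟩ := h.2 C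
  refine ⟨D, fun b hfin hsum hoff => ?_⟩
  by_cases hb0 : b = 0
  · exact ⟨0, FS.zero, Off1.zero, by rw [bd1_zero, hb0]⟩
  · obtain ⟨g₀, hg₀⟩ : ∃ g, b g ≠ 0 := by
      by_contra hcon
      push Not at hcon
      exact hb0 (funext hcon)
    have hex : ∀ g : G, ∃ e : P.S → G → ℤ, b g ≠ 0 → FS e ∧ Off1 P.gen C e ∧
        bd1 P.gen e = Pi.single g 1 - Pi.single g₀ 1 := by
      intro g
      by_cases hg : b g = 0
      · exact ⟨0, fun h1 => absurd hg h1⟩
      · obtain ⟨e, he⟩ := path_chain P C g₀ g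
          (hD g₀ g (fun h1 => hg₀ (hoff g₀ h1)) (fun h1 => hg (hoff g h1)))
        exact ⟨e, fun _ => he⟩
    choose e he using hex
    have hmem : ∀ g ∈ hfin.toFinset, b g ≠ 0 := fun g hg => by simpa using hg
    refine ⟨∑ g ∈ hfin.toFinset, b g • e g,
      EndsA_FS_sum _ _ _ fun g hg => (he g (hmem g hg)).1,
      EndsA_Off_sum _ _ _ _ _ fun g hg => (he g (hmem g hg)).2.1, ?_⟩
    rw [bd1_sum]
    have h1 : ∀ g ∈ hfin.toFinset, bd1 P.gen (b g • e g) =
        b g • (Pi.single g 1 : G → ℤ) - b g • (Pi.single g₀ 1 : G → ℤ) := by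
      intro g hg
      have h2 : bd1 P.gen (b g • e g) = b g • bd1 P.gen (e g) :=
        map_zsmul (bd1H P.gen) (b g) (e g)
      rw [h2, (he g (hmem g hg)).2.2, smul_sub]
    rw [Finset.sum_congr rfl h1, Finset.sum_sub_distrib, ← Finset.sum_smul]
    have h3 : ∑ g ∈ hfin.toFinset, b g = 0 := (finsum_eq_sum b hfin).symm.trans hsum
    rw [h3, zero_smul, sub_zero]
    funext x
    rw [Finset.sum_apply]
    by_cases hx : b x = 0
    · rw [hx]
      refine Finset.sum_eq_zero fun g hg => ?_
      have h4 : x ≠ g := fun h5 => hmem g hg (by rw [← h5]; exact hx)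
      rw [Pi.smul_apply, Pi.single_eq_of_ne h4, smul_zero]
    · rw [Finset.sum_eq_single x]
      · rw [Pi.smul_apply, Pi.single_eq_same, smul_eq_mul, mul_one]
      · intro g _ hgx
        rw [Pi.smul_apply, Pi.single_eq_of_ne hgx.symm, smul_zero]
      · intro h4
        exact absurd (by simpa using hx) h4

end Pool.Agent.Helper52.HS
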