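import Pool.Agent.Helper52.HS.EndsA

/-!
# HS-EC: a locally finite cycle is a finite cycle plus a cycle near infinity

`sum_bd1`: for a finite chain the sum of the values of the boundary is `0`:
`∑ᶠ g, act v F g = ∑ᶠ g, F g` (translation, `finsum_comp_equiv` or `finsum_comp` with `Equiv.mulRight`), `finsum_sub_distrib`,
`finsum_sum_comm`.
`cut`: `D` from `zero_chain` for `C`. Let `A` be the finite set of all `g` such that `g` or some `g * gen s` is in `C ∪ D`, and
`a s g = if g ∈ A then c s g else 0`; `a` is finite. For `h ∈ D` all `h * (gen s)⁻¹` and `h` are in `A`, so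
`bd1 a h = bd1 c h = 0` (if `P.S` is empty `bd1 = 0`). By `zero_chain` there is a finite `e` off `C` with
`bd1 e = bd1 a`. Put `z = a - e`; `c - z = (c - a) + e`, and an edge `(g, s)` of `c - a` has `g ∉ A`, so `g ∉ C` and `g * gen s ∉ C`.
(`A` should contain `C ∪ D` itself.)
-/

set_option linter.unusedSectionVars false

namespace Pool.Agent.Helper52.HS

open Pool.Agent.Helper39.AH

variable {G : Type} [Group G] [DecidableEq G]

private theorem endsB_bd1 {S : Type} [Fintype S] [DecidableEq S] (gen : S → G) (c : S → G → ℤ)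
    (g : G) : bd1 gen c g = ∑ s, (c s (g * (gen s)⁻¹) - c s g) := by
  unfold bd1
  rw [Finset.sum_apply]
  rfl

private theorem endsB_fs {S : Type} {c : S → G → ℤ} (h : FS c) (s : S) :
    (Function.support (c s)).Finite := by
  refine (h.image Prod.snd).subset ?_
  intro g hg
  exact ⟨(s, g), hg, rfl⟩

theorem finite_bd1 {S : Type} [Fintype S] [DecidableEq S] (gen : S → G) {c : S → G → ℤ}
    (h : FS c) : {g | bd1 gen c g ≠ 0}.Finite := by
  refine ((h.image fun p : S × G => p.2 * gen p.1).union (h.image Prod.snd)).subset ?_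
  intro g hg
  by_contra hno
  refine hg ?_
  rw [endsB_bd1]
  refine Finset.sum_eq_zero fun s _ => ?_
  have h1 : c s (g * (gen s)⁻¹) = 0 := by
    by_contra h1
    refine hno (Or.inl ⟨(s, g * (gen s)⁻¹), h1, ?_⟩)
    simp
  have h2 : c s g = 0 := by
    by_contra h2
    exact hno (Or.inr ⟨(s, g), h2, rfl⟩)
  rw [h1, h2, sub_zero]

theorem sum_bd1 {S : Type} [Fintype S] [DecidableEq S] (gen : S → G) {c : S → G → ℤ}
    (h : FS c) : ∑ᶠ g, bd1 gen c g = 0 := by
  have h1 : ∀ s : S, (Function.support fun g => c s (g * (gen s)⁻¹)).Finite := by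
    intro s
    refine ((endsB_fs h s).image fun g => g * gen s).subset ?_
    intro g hg
    exact ⟨g * (gen s)⁻¹, hg, by simp⟩
  have h2 : ∀ s : S, (Function.support fun g => c s (g * (gen s)⁻¹) - c s g).Finite := by
    intro s
    refine ((h1 s).union (endsB_fs h s)).subset ?_
    intro g hg
    by_contra hno
    rw [Set.mem_union, not_or, Function.notMem_support, Function.notMem_support] at hno
    refine hg ?_
    change c s (g * (gen s)⁻¹) - c s g = 0
    rw [hno.1, hno.2, sub_zero]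
  have e : (fun g => bd1 gen c g) = fun g => ∑ s ∈ Finset.univ, (c s (g * (gen s)⁻¹) - c s g) := by
    funext g
    exact endsB_bd1 gen c g
  rw [finsum_congr fun g => congrFun e g, finsum_sum_comm _ _ fun s _ => h2 s]
  refine Finset.sum_eq_zero fun s _ => ?_
  rw [finsum_sub_distrib (h1 s) (endsB_fs h s)]
  have h3 : ∑ᶠ g, c s (g * (gen s)⁻¹) = ∑ᶠ g, c s g :=
    finsum_comp_equiv (Equiv.mulRight (gen s)⁻¹) (f := c s)
  rw [h3, sub_self]

theorem cut (P : FinPres G) (h : OE P) (C : Finset G) (c : P.S → G → ℤ)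
    (hc : bd1 P.gen c = 0) :
    ∃ z : P.S → G → ℤ, FS z ∧ bd1 P.gen z = 0 ∧ Off1 P.gen C (c - z) := by
  obtain ⟨D, hD⟩ := zero_chain P h C
  let A : Finset G := (C ∪ D) ∪ Finset.univ.biUnion fun s : P.S =>
    (C ∪ D).image fun x => x * (P.gen s)⁻¹
  have hA1 : ∀ x ∈ C ∪ D, x ∈ A := fun x hx => Finset.mem_union_left _ hx
  have hA2 : ∀ x ∈ C ∪ D, ∀ s, x * (P.gen s)⁻¹ ∈ A := fun x hx s =>
    Finset.mem_union_right _ (Finset.mem_biUnion.2
      ⟨s, Finset.mem_univ s, Finset.mem_image_of_mem _ hx⟩)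
  let a : P.S → G → ℤ := fun s g => if g ∈ A then c s g else 0
  have ha1 : ∀ s g, g ∈ A → a s g = c s g := fun s g hg => if_pos hg
  have ha2 : ∀ s g, g ∉ A → a s g = 0 := fun s g hg => if_neg hg
  have haF : FS a := by
    refine ((Finset.univ ×ˢ A : Finset (P.S × G)).finite_toSet).subset ?_
    rintro ⟨s, g⟩ hp
    rw [Finset.mem_coe, Finset.mem_product]
    refine ⟨Finset.mem_univ _, ?_⟩
    by_contra hg
    exact hp (ha2 s g hg)
  have haD : ∀ g ∈ D, bd1 P.gen a g = 0 := by
    intro g hg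
    have hgCD : g ∈ C ∪ D := Finset.mem_union_right _ hg
    have e : bd1 P.gen a g = bd1 P.gen c g := by
      rw [endsB_bd1, endsB_bd1]
      refine Finset.sum_congr rfl fun s _ => ?_
      rw [ha1 s _ (hA2 g hgCD s), ha1 s _ (hA1 g hgCD)]
    rw [e, hc]
    rfl
  obtain ⟨e, he1, he2, he3⟩ := hD (bd1 P.gen a) (finite_bd1 P.gen haF) (sum_bd1 P.gen haF) haD
  refine ⟨a - e, haF.sub he1, ?_, ?_⟩
  · rw [bd1_sub, he3, sub_self]
  · have e1 : c - (a - e) = (c - a) + e := by abel
    rw [e1]
    refine Off1.add ?_ he2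
    intro s g hg
    have hgA : g ∉ A := by
      intro hgA
      refine hg ?_
      rw [Pi.sub_apply, Pi.sub_apply, ha1 s g hgA, sub_self]
    refine ⟨fun h1 => hgA (hA1 g (Finset.mem_union_left _ h1)), fun h1 => hgA ?_⟩
    have h2 := hA2 (g * P.gen s) (Finset.mem_union_left _ h1) s
    rwa [mul_inv_cancel_right] at h2

end Pool.Agent.Helper52.HS
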