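import Pool.Agent.Helper52.HS.Ends

/-!
# HS-EC: every finite cycle is the boundary of a finite 2-chain

`M = FinM`: the functions with finite support, an invariant group. In `Qt P M` let `a g n = tt g (Pi.single 1 n)` (additive in `n`).
`tt_mul`: `tt (g * gen s) (Pi.single 1 n) = tt g (Pi.single 1 n) + tt (gen s) (Pi.single g n)`, because
`act g (Pi.single 1 n) = Pi.single g n`. So for a finite cycle `z`:
`mk z = ∑ s, tt (gen s) (z s) = ∑ s, ∑ g ∈ supp, tt (gen s) (Pi.single g (z s g)) =
∑ s, ∑ g, (a (g * gen s) (z s g) - a g (z s g)) = ∑ g, a g (bd1 z g) = 0` (`chain_eq_sum`, `mk_edge`; sums over a finite set of `g` which contains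
the supports and their translates). So `z ∈ Bd P M`.
A family `d : P.R → G → ℤ` with all `d r` of finite support has `FS d` (`P.R` is finite).
-/

set_option linter.unusedSectionVars false

namespace Pool.Agent.Helper52.HS

open Pool.Agent.Helper39.AH

variable {G : Type} [Group G]

/-- the functions with finite support -/
def FinM (G : Type) [Group G] : AddSubgroup (G → ℤ) where
  carrier := {F | {g | F g ≠ 0}.Finite}
  zero_mem' := by simp
  add_mem' := by
    intro F F' h h'
    refine (h.union h').subset fun g hg => ?_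
    by_contra h0
    simp only [Set.mem_union, Set.mem_ofPred_eq, not_or, not_not] at h0
    exact hg (by rw [Pi.add_apply, h0.1, h0.2, add_zero])
  neg_mem' := by
    intro F h
    refine h.subset fun g hg h0 => hg ?_
    rw [Pi.neg_apply, h0, neg_zero]

theorem inv_FinM : Inv (FinM G) := by
  intro v F hF
  have h1 : {g | F g ≠ 0}.Finite := hF
  exact h1.preimage (f := fun g => g * v⁻¹) (mul_left_injective v⁻¹).injOn

private theorem single_mem' [DecidableEq G] (g : G) (n : ℤ) :
    (Pi.single g n : G → ℤ) ∈ FinM G := by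
  refine (Set.finite_singleton g).subset fun h hh => ?_
  by_contra h0
  refine hh ?_
  rw [Pi.single_eq_of_ne h0]

private theorem act_single' [DecidableEq G] (v g : G) (n : ℤ) :
    act v (Pi.single g n : G → ℤ) = Pi.single (g * v) n := by
  funext h
  rw [act_apply]
  by_cases h0 : h = g * v
  · rw [h0, mul_inv_cancel_right, Pi.single_eq_same, Pi.single_eq_same]
  · rw [Pi.single_eq_of_ne h0, Pi.single_eq_of_ne]
    intro h1
    exact h0 (by rw [← h1, inv_mul_cancel_right])

theorem tt_edge (P : FinPres G) [DecidableEq G] (g : G) (s : P.S) (n : ℤ) :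
    tt P (FinM G) (P.gen s) (Pi.single g n) =
      tt P (FinM G) (g * P.gen s) (Pi.single 1 n) - tt P (FinM G) g (Pi.single 1 n) := by
  have h := tt_mul (P := P) inv_FinM g (P.gen s) (single_mem' (1 : G) n)
  rw [act_single', one_mul] at h
  rw [h]
  abel

theorem finite_bounds (P : FinPres G) (z : P.S → G → ℤ) (hz : FS z) (hb : bd1 P.gen z = 0) :
    ∃ d : P.R → G → ℤ, FS d ∧ bd2 P d = z := by
  classical
  -- a finite set containing the supports
  let A : Finset G := hz.toFinset.image Prod.snd
  have hA : ∀ s g, g ∉ A → z s g = 0 := by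
    intro s g hg
    by_contra h0
    refine hg (Finset.mem_image.2 ⟨(s, g), ?_, rfl⟩)
    rw [Set.Finite.mem_toFinset]
    exact h0
  let B : Finset G := A ∪ Finset.univ.biUnion fun s : P.S => A.image (· * P.gen s)
  have hB1 : ∀ g ∈ A, g ∈ B := fun g hg => Finset.mem_union_left _ hg
  have hB2 : ∀ g ∈ A, ∀ s, g * P.gen s ∈ B := fun g hg s =>
    Finset.mem_union_right _ (Finset.mem_biUnion.2 ⟨s, Finset.mem_univ _,
      Finset.mem_image_of_mem _ hg⟩)
  have hzM : ∀ s, z s ∈ FinM G := fun s => by
    refine A.finite_toSet.subset fun g hg => ?_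
    by_contra h0
    exact hg (hA s g h0)
  -- the homomorphism
  let Φ : (G → ℤ) →+ Qt P (FinM G) :=
    ∑ h ∈ B, (ttH P (FinM G) h).comp
      ((AddMonoidHom.single (fun _ : G => ℤ) 1).comp (Pi.evalAddMonoidHom (fun _ : G => ℤ) h))
  have hΦ : ∀ F, Φ F = ∑ h ∈ B, tt P (FinM G) h (Pi.single 1 (F h)) := fun F => by
    simp only [Φ, AddMonoidHom.finsetSum_apply]
    rfl
  have hΦs : ∀ g ∈ B, ∀ n, Φ (Pi.single g n) = tt P (FinM G) g (Pi.single 1 n) := by
    intro g hg n
    rw [hΦ, Finset.sum_eq_single g]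
    · rw [Pi.single_eq_same]
    · intro h _ hne
      rw [Pi.single_eq_of_ne hne, Pi.single_zero, tt_zero]
    · intro h
      exact absurd hg h
  have hsum : ∀ s, z s = ∑ g ∈ A, Pi.single g (z s g) := by
    intro s
    funext h
    rw [Finset.sum_apply]
    by_cases hh : h ∈ A
    · rw [Finset.sum_eq_single h]
      · rw [Pi.single_eq_same]
      · intro g _ hne
        rw [Pi.single_eq_of_ne hne.symm]
      · intro h1
        exact absurd hh h1
    · rw [hA s h hh, eq_comm]
      refine Finset.sum_eq_zero fun g hg => ?_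
      rw [Pi.single_eq_of_ne]
      rintro rfl
      exact hh hg
  have key : ∀ s, tt P (FinM G) (P.gen s) (z s) = Φ (act (P.gen s) (z s) - z s) := by
    intro s
    rw [hsum s, tt_sum, act_sum, ← Finset.sum_sub_distrib, map_sum]
    refine Finset.sum_congr rfl fun g hg => ?_
    rw [act_single', map_sub, hΦs _ (hB2 g hg s), hΦs _ (hB1 g hg), tt_edge]
  have h1 : mk P (FinM G) z = 0 := by
    have e : mk P (FinM G) z = ∑ s, tt P (FinM G) (P.gen s) (z s) := by
      conv_lhs => rw [chain_eq_sum z (gen := P.gen)]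
      rw [map_sum]
      exact Finset.sum_congr rfl fun s _ => mk_edge inv_FinM s (hzM s)
    rw [e]
    calc ∑ s, tt P (FinM G) (P.gen s) (z s)
        = ∑ s, Φ (act (P.gen s) (z s) - z s) := Finset.sum_congr rfl fun s _ => key s
      _ = Φ (bd1 P.gen z) := by rw [← map_sum]; rfl
      _ = 0 := by rw [hb, map_zero]
  obtain ⟨d, hd, hd'⟩ := mem_Bd.1 (mk_eq_zero.1 h1)
  refine ⟨d, ?_, hd'⟩
  have h2 : {p : P.R × G | d p.1 p.2 ≠ 0} ⊆
      ⋃ r : P.R, (fun g => (r, g)) '' {g | d r g ≠ 0} := by
    rintro ⟨r, g⟩ hp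
    exact Set.mem_iUnion.2 ⟨r, g, hp, rfl⟩
  refine (Set.finite_iUnion fun r => ?_).subset h2
  exact Set.Finite.image _ (hd r)

end Pool.Agent.Helper52.HS
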