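import Pool.Agent.Helper52.HS.EndsB

/-!
# HS-ED: an exhaustion adapted to semistability; one step of the filling

* `exhaustion`: let `e : ℕ → G` be a surjection (`exists_surjective_nat`, `G` is countable and nonempty). Define `C` by recursion: `C 0 = ∅`,
  `C (n+1) = D n ∪ {e n}` with `D n` given by `SS` for the set `C n` (`C n ⊆ D n`). The last claim with `E = C (n+2)`: a cycle off `C (n+1)` is off
  `D n`, and `D n ⊆ C (n+1) ⊆ C (n+2)`.
* `step`: given a finite `x` with `c - bd2 x` off `C (n+1)`: `cut` for the cycle `c - bd2 x` and the set `C (n+2)` gives a finite cycle `z`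
  with `c - bd2 x - z` off `C (n+2)`; so `z` is off `C (n+1)`. By `exhaustion` `z - z' = bd2 d` with `z'` off `C (n+2)`, `d` finite and off
  `C n`. Take `x + d`.
-/

set_option linter.unusedSectionVars false

namespace Pool.Agent.Helper52.HS

open Pool.Agent.Helper39.AH

variable {G : Type} [Group G] [DecidableEq G]

theorem exhaustion (P : FinPres G) (h : SS P) :
    ∃ C : ℕ → Finset G, (∀ n, C n ⊆ C (n + 1)) ∧ (∀ g, ∃ n, g ∈ C n) ∧
      ∀ n (z : P.S → G → ℤ), FS z → bd1 P.gen z = 0 → Off1 P.gen (C (n + 1)) z →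
        ∃ z' : P.S → G → ℤ, Off1 P.gen (C (n + 2)) z' ∧
          ∃ d : P.R → G → ℤ, FS d ∧ Off2 P (C n) d ∧ z - z' = bd2 P d := by
  have hs : Function.Surjective (val P.gen) := P.surj
  have hc : Countable G := hs.countable
  obtain ⟨e, he⟩ := exists_surjective_nat G
  choose D hD1 hD2 using h
  let C : ℕ → Finset G := fun n => Nat.rec ∅ (fun n Cn => D Cn ∪ {e n}) n
  have hC : ∀ n, C (n + 1) = D (C n) ∪ {e n} := fun n => rfl
  have hsub : ∀ n, C n ⊆ C (n + 1) := by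
    intro n
    rw [hC]
    exact (hD1 (C n)).trans Finset.subset_union_left
  refine ⟨C, hsub, ?_, ?_⟩
  · intro g
    obtain ⟨n, rfl⟩ := he g
    refine ⟨n + 1, ?_⟩
    rw [hC]
    exact Finset.mem_union_right _ (Finset.mem_singleton_self _)
  · intro n z hz1 hz2 hz3
    have h1 : D (C n) ⊆ C (n + 1) := by
      rw [hC]
      exact Finset.subset_union_left
    obtain ⟨z', _, _, h4, d, h5, h6, h7⟩ := hD2 (C n) (C (n + 2)) (h1.trans (hsub (n + 1))) z
      hz1 hz2 (hz3.mono h1)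
    exact ⟨z', h4, d, h5, h6, h7⟩

theorem step (P : FinPres G) (h1 : OE P) (C : ℕ → Finset G) (hC : ∀ n, C n ⊆ C (n + 1))
    (hS : ∀ n (z : P.S → G → ℤ), FS z → bd1 P.gen z = 0 → Off1 P.gen (C (n + 1)) z →
        ∃ z' : P.S → G → ℤ, Off1 P.gen (C (n + 2)) z' ∧
          ∃ d : P.R → G → ℤ, FS d ∧ Off2 P (C n) d ∧ z - z' = bd2 P d)
    (c : P.S → G → ℤ) (hc : bd1 P.gen c = 0) (n : ℕ) (x : P.R → G → ℤ)
    (hx : Off1 P.gen (C (n + 1)) (c - bd2 P x)) :
    ∃ x' : P.R → G → ℤ, Off1 P.gen (C (n + 2)) (c - bd2 P x') ∧ Off2 P (C n) (x' - x) := by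
  have h2 : bd1 P.gen (c - bd2 P x) = 0 := by
    rw [bd1_sub, hc, bd1_bd2, sub_self]
  obtain ⟨z, hz1, hz2, hz3⟩ := cut P h1 (C (n + 2)) (c - bd2 P x) h2
  have hz4 : Off1 P.gen (C (n + 1)) z := by
    have h3 : z = (c - bd2 P x) - ((c - bd2 P x) - z) := by abel
    rw [h3]
    exact hx.sub (hz3.mono (hC (n + 1)))
  obtain ⟨z', h4, d, _, h6, h7⟩ := hS n z hz1 hz2 hz4
  refine ⟨x + d, ?_, ?_⟩
  · have h8 : c - bd2 P (x + d) = (c - bd2 P x - z) + z' := by
      rw [bd2_add, ← h7]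
      abel
    rw [h8]
    exact hz3.add h4
  · rwa [add_sub_cancel_left]

end Pool.Agent.Helper52.HS
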