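import Pool.Agent.Helper52.HS.Ends

/-!
# HS-EK: faces meeting a finite set; boundaries of finite chains and of chains off a finite set

* `finite_faces`: `vs P.gen (P.rel r) g` is the list of the `g * u`, `u` in a finite list depending on
  `r` only (induction on the word), and `P.R` is finite. (AH/Chain.lean has `finite_vs_mem`, `finite_vs_meet`.)
* `mem_vs_of_path`: induction on the word `l`, for all `F`.
* `off1_bd2`: if `bd2 P d s g ≠ 0` then `path gen (P.rel r) (d r) s g ≠ 0` for some `r`; use `mem_vs_of_path`.
* `fs_path`: induction on the word: the support of `path gen l F` is finite if the support of `F` is.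
-/

set_option linter.unusedSectionVars false

namespace Pool.Agent.Helper52.HS

open Pool.Agent.Helper39.AH

variable {G : Type} [Group G] {S : Type} [DecidableEq S]

theorem finite_faces (P : FinPres G) (C : Finset G) :
    {p : P.R × G | ∃ v ∈ vs P.gen (P.rel p.1) p.2, v ∈ C}.Finite := by
  have h1 : (⋃ r : P.R, (Prod.mk r) '' {g | ∃ v ∈ vs P.gen (P.rel r) g, v ∈ C}).Finite :=
    Set.finite_iUnion fun r => (finite_vs_meet P.gen (P.rel r) C).image _
  refine h1.subset ?_
  rintro ⟨r, g⟩ hp
  exact Set.mem_iUnion.2 ⟨r, g, hp, rfl⟩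

theorem mem_vs_of_path {gen : S → G} (l : List (S × Bool)) (F : G → ℤ) (s : S) (g : G)
    (h : path gen l F s g ≠ 0) :
    ∃ g', F g' ≠ 0 ∧ g ∈ vs gen l g' ∧ g * gen s ∈ vs gen l g' := by
  induction l generalizing F with
  | nil => exact absurd rfl h
  | cons p l ih =>
    obtain ⟨t, b⟩ := p
    cases b
    · rw [path_cons_false] at h
      by_cases h1 : path gen l (act (gen t)⁻¹ F) s g = 0
      · have h2 : (Pi.single t (act (gen t)⁻¹ F) : S → G → ℤ) s g ≠ 0 := by
          intro h3
          apply h
          rw [Pi.add_apply, Pi.add_apply, Pi.neg_apply, Pi.neg_apply, h1, h3, neg_zero, add_zero]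
        rcases eq_or_ne s t with rfl | hst
        · rw [Pi.single_eq_same, act_apply, inv_inv] at h2
          refine ⟨g * gen s, h2, ?_, ?_⟩
          · rw [vs_cons_false, mul_inv_cancel_right]
            exact List.mem_cons_of_mem _ (mem_vs_self _ _ _)
          · rw [vs_cons_false]
            exact List.mem_cons_self
        · exact absurd (by rw [Pi.single_eq_of_ne hst]; rfl) h2
      · obtain ⟨g', h2, h3, h4⟩ := ih _ h1
        rw [act_apply, inv_inv] at h2
        refine ⟨g' * gen t, h2, ?_, ?_⟩
        · rw [vs_cons_false, mul_inv_cancel_right]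
          exact List.mem_cons_of_mem _ h3
        · rw [vs_cons_false, mul_inv_cancel_right]
          exact List.mem_cons_of_mem _ h4
    · rw [path_cons_true] at h
      by_cases h1 : path gen l (act (gen t) F) s g = 0
      · have h2 : (Pi.single t F : S → G → ℤ) s g ≠ 0 := by
          intro h3
          apply h
          rw [Pi.add_apply, Pi.add_apply, h1, h3, add_zero]
        rcases eq_or_ne s t with rfl | hst
        · rw [Pi.single_eq_same] at h2
          refine ⟨g, h2, ?_, ?_⟩
          · rw [vs_cons_true]
            exact List.mem_cons_self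
          · rw [vs_cons_true]
            exact List.mem_cons_of_mem _ (mem_vs_self _ _ _)
        · exact absurd (by rw [Pi.single_eq_of_ne hst]; rfl) h2
      · obtain ⟨g', h2, h3, h4⟩ := ih _ h1
        rw [act_apply] at h2
        refine ⟨g' * (gen t)⁻¹, h2, ?_, ?_⟩
        · rw [vs_cons_true, inv_mul_cancel_right]
          exact List.mem_cons_of_mem _ h3
        · rw [vs_cons_true, inv_mul_cancel_right]
          exact List.mem_cons_of_mem _ h4

theorem off1_bd2 (P : FinPres G) {C : Finset G} {d : P.R → G → ℤ} (h : Off2 P C d) :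
    Off1 P.gen C (bd2 P d) := by
  intro s g hg
  have h1 : ∑ r, path P.gen (P.rel r) (d r) s g ≠ 0 := by
    intro h0
    apply hg
    unfold bd2
    rw [Finset.sum_apply, Finset.sum_apply]
    exact h0
  obtain ⟨r, _, hr⟩ := Finset.exists_ne_zero_of_sum_ne_zero h1
  obtain ⟨g', h2, h3, h4⟩ := mem_vs_of_path (P.rel r) (d r) s g hr
  exact ⟨h r g' h2 g h3, h r g' h2 _ h4⟩

theorem fs_path [Fintype S] {gen : S → G} (l : List (S × Bool)) {F : G → ℤ}
    (h : {g | F g ≠ 0}.Finite) : FS (path gen l F) := by
  have hact : ∀ (v : G) {F : G → ℤ}, {g | F g ≠ 0}.Finite → {g | act v F g ≠ 0}.Finite := by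
    intro v F hF
    exact hF.preimage (f := fun g => g * v⁻¹) (mul_left_injective v⁻¹).injOn
  have hsingle : ∀ (t : S) {F : G → ℤ}, {g | F g ≠ 0}.Finite →
      FS (Pi.single t F : S → G → ℤ) := by
    intro t F hF
    refine (hF.image (Prod.mk t)).subset ?_
    rintro ⟨s, g⟩ hp
    rcases eq_or_ne s t with rfl | hst
    · refine ⟨g, ?_, rfl⟩
      have h1 : (Pi.single s F : S → G → ℤ) s g ≠ 0 := hp
      rwa [Pi.single_eq_same] at h1
    · have h1 : (Pi.single t F : S → G → ℤ) s g ≠ 0 := hp
      exact absurd (by rw [Pi.single_eq_of_ne hst]; rfl) h1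
  induction l generalizing F with
  | nil => exact FS.zero
  | cons p l ih =>
    obtain ⟨t, b⟩ := p
    cases b
    · rw [path_cons_false]
      exact (hsingle t (hact _ h)).neg.add (ih (hact _ h))
    · rw [path_cons_true]
      exact (hsingle t h).add (ih (hact _ h))

theorem fs_bd2 (P : FinPres G) {d : P.R → G → ℤ} (h : FS d) : FS (bd2 P d) := by
  have hsum : ∀ I : Finset P.R, FS (∑ r ∈ I, path P.gen (P.rel r) (d r)) := by
    classical
    intro I
    induction I using Finset.induction_on with
    | empty => exact FS.zero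
    | insert r I hr ih =>
      rw [Finset.sum_insert hr]
      refine (fs_path (P.rel r) ?_).add ih
      exact h.preimage (f := Prod.mk r) (Prod.mk_right_injective r).injOn
  exact hsum Finset.univ

end Pool.Agent.Helper52.HS
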