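import Pool.Agent.Helper52.HS.EndsC
import Pool.Agent.Helper52.HS.EndsD
import Pool.Agent.Helper52.HS.EndsK

/-!
# HS-EE: semistability and one end give fillings

* `fill_of_ss`: start: `cut` gives a finite cycle `z` with `c - z` off `C 1`, `finite_bounds` gives `x 0` with `bd2 (x 0) = z`. Recursion with `step`:
  `x n` with `c - bd2 (x n)` off `C (n+1)` and `x (n+1) - x n` off `C n`. For `g ∈ C N` and `n ≥ N`: `x (n+1) r g = x n r g`
  (`g ∈ vs P.gen (P.rel r) g`, `mem_vs_self`). Let `N g` be some number with `g ∈ C (N g)` and `d r g = x (N g) r g`; then `d r g = x n r g` for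
  `n ≥ N g`. For `s`, `g` there are finitely many `(r, g')` with `g ∈ vs P.gen (P.rel r) g'` (`finite_faces`); for `n` large
  `bd2 P d s g = bd2 P (x n) s g` (`bd2_congr`) `= c s g` (as `g ∈ C (n+1)`).
-/

set_option linter.unusedSectionVars false

namespace Pool.Agent.Helper52.HS

open Pool.Agent.Helper39.AH

variable {G : Type} [Group G] [DecidableEq G]

theorem fill_of_ss (P : FinPres G) (h1 : OE P) (h2 : SS P) : Fill P := by
  intro c hc
  obtain ⟨C, hC, hcov, hS⟩ := exhaustion P h2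
  have hmono : Monotone C := monotone_nat_of_le_succ hC
  -- the start
  obtain ⟨z, hz, hzb, hzo⟩ := cut P h1 (C 1) c hc
  obtain ⟨x0, hx0, hx0z⟩ := finite_bounds P z hz hzb
  have hstart : Off1 P.gen (C (0 + 1)) (c - bd2 P x0) := by
    rw [hx0z]
    exact hzo
  -- the sequence
  have hstep : ∀ n (x : P.R → G → ℤ), Off1 P.gen (C (n + 1)) (c - bd2 P x) →
      ∃ x' : P.R → G → ℤ, Off1 P.gen (C (n + 1 + 1)) (c - bd2 P x') ∧ Off2 P (C n) (x' - x) :=
    fun n x hx => step P h1 C hC hS c hc n x hx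
  choose nx hnx1 hnx2 using hstep
  let y : ∀ n : ℕ, {x : P.R → G → ℤ // Off1 P.gen (C (n + 1)) (c - bd2 P x)} := fun n =>
    Nat.rec ⟨x0, hstart⟩ (fun k p => ⟨nx k p.1 p.2, hnx1 k p.1 p.2⟩) n
  have hy : ∀ n, Off2 P (C n) ((y (n + 1)).1 - (y n).1) := fun n => hnx2 n (y n).1 (y n).2
  -- the values stabilise
  have hone : ∀ n r g, g ∈ C n → (y (n + 1)).1 r g = (y n).1 r g := by
    intro n r g hg
    by_contra hne
    have h0 : ((y (n + 1)).1 - (y n).1) r g ≠ 0 := by
      rw [Pi.sub_apply, Pi.sub_apply]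
      exact sub_ne_zero.2 hne
    exact hy n r g h0 g (mem_vs_self _ _ _) hg
  have hstab : ∀ N r g, g ∈ C N → ∀ n, N ≤ n → (y n).1 r g = (y N).1 r g := by
    intro N r g hg n hn
    induction n, hn using Nat.le_induction with
    | base => rfl
    | succ n hn ih =>
      rw [hone n r g (hmono hn hg), ih]
  choose N hN using hcov
  let d : P.R → G → ℤ := fun r g => (y (N g)).1 r g
  have hd : ∀ r g n, N g ≤ n → d r g = (y n).1 r g :=
    fun r g n hn => (hstab (N g) r g (hN g) n hn).symm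
  refine ⟨d, ?_⟩
  funext s g
  have hfin := finite_faces P {g}
  obtain ⟨M, hM⟩ : ∃ M, ∀ p ∈ hfin.toFinset, N p.2 ≤ M :=
    ⟨hfin.toFinset.sup fun p => N p.2, fun p hp => Finset.le_sup (f := fun p => N p.2) hp⟩
  have hM' : ∀ r g', g ∈ vs P.gen (P.rel r) g' → N g' ≤ M := by
    intro r g' hg'
    refine hM (r, g') ?_
    rw [Set.Finite.mem_toFinset]
    exact ⟨g, hg', Finset.mem_singleton_self g⟩
  have e1 : bd2 P d s g = bd2 P (y (max M (N g))).1 s g :=
    bd2_congr P fun r g' hg' => hd r g' _ ((hM' r g' hg').trans (le_max_left _ _))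
  rw [e1]
  by_contra hne
  have h0 : (c - bd2 P (y (max M (N g))).1) s g ≠ 0 := by
    rw [Pi.sub_apply, Pi.sub_apply]
    exact sub_ne_zero.2 (Ne.symm hne)
  refine ((y (max M (N g))).2 s g h0).1 (hmono ?_ (hN g))
  exact (le_max_right M (N g)).trans (Nat.le_succ _)

end Pool.Agent.Helper52.HS
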