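import Pool.Agent.Helper52.HS.Ends

/-!
# HS-EF: a bad sequence of cycles; a pigeonhole argument

`bad_sequence`: if `SS P` fails there is a finite set `C` such that for every `D ⊇ C` there are `E ⊇ D` and a finite cycle `z` off `D` which is
not homologous, by a finite 2-chain off `C`, to a cycle off `E`. With `e : ℕ → G` surjective (`countable_of_pres`) define by recursion `D 0 = C`,
`D (n+1) = E n ∪ {e n}`, `E n`, `z n` for `D n`. A cycle off `D (n+1)` is off `E n`.

`pigeon`: the map `ε ↦ (d ε` restricted to the finite set `A)` into the countable type of functions `A → ℤ` is not injective, because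
`ℕ → Bool` is uncountable. Take the least `n` with `ε n ≠ ε' n`; exchange `ε` and `ε'` if necessary.
-/

set_option linter.unusedSectionVars false

namespace Pool.Agent.Helper52.HS

open Pool.Agent.Helper39.AH

variable {G : Type} [Group G]

theorem bad_sequence (P : FinPres G) (h : ¬ SS P) :
    ∃ (C : Finset G) (D : ℕ → Finset G) (z : ℕ → P.S → G → ℤ),
      (∀ n, D n ⊆ D (n + 1)) ∧ (∀ g, ∃ n, g ∈ D n) ∧
      (∀ n, FS (z n)) ∧ (∀ n, bd1 P.gen (z n) = 0) ∧ (∀ n, Off1 P.gen (D n) (z n)) ∧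
      ∀ n, ¬ ∃ z' : P.S → G → ℤ, FS z' ∧ bd1 P.gen z' = 0 ∧ Off1 P.gen (D (n + 1)) z' ∧
        ∃ d : P.R → G → ℤ, FS d ∧ Off2 P C d ∧ z n - z' = bd2 P d := by
  classical
  have hcnt : Countable G := countable_of_pres P
  obtain ⟨e, he⟩ := exists_surjective_nat G
  unfold SS at h
  push Not at h
  obtain ⟨C, hC⟩ := h
  have hC' : ∀ D : Finset G, ∃ (E : Finset G) (z : P.S → G → ℤ), D ∪ C ⊆ E ∧ FS z ∧
      bd1 P.gen z = 0 ∧ Off1 P.gen (D ∪ C) z ∧ ∀ z' : P.S → G → ℤ, FS z' → bd1 P.gen z' = 0 →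
        Off1 P.gen E z' → ∀ d : P.R → G → ℤ, FS d → Off2 P C d → z - z' ≠ bd2 P d := by
    intro D
    obtain ⟨E, h1, z, h2, h3, h4, h5⟩ := hC (D ∪ C) Finset.subset_union_right
    exact ⟨E, z, h1, h2, h3, h4, h5⟩
  choose E z h1 h2 h3 h4 h5 using hC'
  let D : ℕ → Finset G := fun n => Nat.rec C (fun k X => E X ∪ {e k}) n
  have hD : ∀ n, D (n + 1) = E (D n) ∪ {e n} := fun n => rfl
  have hDE : ∀ n, D n ⊆ E (D n) := fun n => Finset.subset_union_left.trans (h1 (D n))
  refine ⟨C, D, fun n => z (D n), fun n => ?_, fun g => ?_, fun n => h2 _, fun n => h3 _,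
    fun n => (h4 (D n)).mono Finset.subset_union_left, ?_⟩
  · rw [hD]
    exact (hDE n).trans Finset.subset_union_left
  · obtain ⟨n, hn⟩ := he g
    refine ⟨n + 1, ?_⟩
    rw [hD, hn]
    exact Finset.mem_union_right _ (Finset.mem_singleton_self g)
  · rintro n ⟨z', hz1, hz2, hz3, d, hd1, hd2, hd3⟩
    rw [hD] at hz3
    exact h5 (D n) z' hz1 hz2 (hz3.mono Finset.subset_union_left) d hd1 hd2 hd3

theorem pigeon {I : Type} (A : Set I) (hA : A.Finite) (d : (ℕ → Bool) → I → ℤ) :
    ∃ (ε ε' : ℕ → Bool) (n : ℕ), (∀ m < n, ε m = ε' m) ∧ ε n = true ∧ ε' n = false ∧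
      ∀ i ∈ A, d ε i = d ε' i := by
  classical
  have hfin : Finite A := hA
  have hninj : ¬ Function.Injective (fun (ε : ℕ → Bool) (i : A) => d ε i) := by
    intro hinj
    have hc : Countable (ℕ → Bool) := hinj.countable
    obtain ⟨f, hf⟩ := exists_injective_nat (ℕ → Bool)
    refine Function.cantor_injective (fun s : Set ℕ => f (fun n => decide (n ∈ s))) ?_
    intro s t hst
    have h1 := hf hst
    ext n
    have h2 := congrFun h1 n
    simpa using h2
  rw [Function.not_injective_iff] at hninj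
  obtain ⟨ε, ε', h1, h2⟩ := hninj
  have h1' : ∀ i ∈ A, d ε i = d ε' i := fun i hi => congrFun h1 ⟨i, hi⟩
  have hex : ∃ n, ε n ≠ ε' n := by
    by_contra hcon
    push Not at hcon
    exact h2 (funext hcon)
  have hn := Nat.find_spec hex
  have hmin : ∀ m < Nat.find hex, ε m = ε' m := fun m hm => by
    have := Nat.find_min hex hm
    push Not at this
    exact this
  cases hb : ε (Nat.find hex) with
  | true =>
    refine ⟨ε, ε', Nat.find hex, hmin, hb, ?_, h1'⟩
    rw [hb] at hn
    exact Bool.eq_false_iff.2 fun h => hn h.symm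
  | false =>
    refine ⟨ε', ε, Nat.find hex, fun m hm => (hmin m hm).symm, ?_, hb, fun i hi =>
      (h1' i hi).symm⟩
    rw [hb] at hn
    exact (Bool.eq_true_of_not_eq_false fun h => hn h.symm)

end Pool.Agent.Helper52.HS
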