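import Pool.Agent.Helper52.HS.Ends

/-!
# HS-EG: locally finite sums of cycles

For `ε : ℕ → Bool` `sumz z ε s g = ∑ᶠ n, if ε n then z n s g else 0`; at `(s, g)` only the `n` with `g ∉ D n` contribute, finitely
many.
`bd1_sumz`: it is a cycle: at a vertex `g` only finitely many `n` matter (those with `g ∉ D n` or `g * (gen s)⁻¹ ∉ D n` for some `s`): replace the sum by a
finite sum.
`sub_sumz`: at an edge `(g, s)` with `g ∈ D (n+1)`
or `g * gen s ∈ D (n+1)` the terms with index `> n` vanish, so `sumz z ε s g - sumz z ε' s g = z n s g`.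
-/

set_option linter.unusedSectionVars false

namespace Pool.Agent.Helper52.HS

open Pool.Agent.Helper39.AH

variable {G : Type} [Group G]

/-- the sum of the cycles `z n` with `ε n = true` -/
noncomputable def sumz {S : Type} (z : ℕ → S → G → ℤ) (ε : ℕ → Bool) : S → G → ℤ :=
  fun s g => ∑ᶠ n, if ε n then z n s g else 0

private theorem EG_sumz_eq {S : Type} (z : ℕ → S → G → ℤ) (ε : ℕ → Bool) (s : S) (g : G) (N : ℕ)
    (h : ∀ m, N ≤ m → z m s g = 0) :
    sumz z ε s g = ∑ m ∈ Finset.range N, if ε m then z m s g else 0 := by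
  unfold sumz
  apply finsum_eq_sum_of_support_subset
  intro m hm
  rw [Finset.coe_range, Set.mem_Iio]
  by_contra hlt
  push Not at hlt
  apply hm
  show (if ε m then z m s g else 0) = 0
  rw [h m hlt, ite_self]

theorem bd1_sumz {S : Type} [Fintype S] [DecidableEq S] (gen : S → G) (D : ℕ → Finset G)
    (hD : ∀ n, D n ⊆ D (n + 1)) (hD' : ∀ g, ∃ n, g ∈ D n) (z : ℕ → S → G → ℤ)
    (hz : ∀ n, bd1 gen (z n) = 0) (hz' : ∀ n, Off1 gen (D n) (z n)) (ε : ℕ → Bool) :
    bd1 gen (sumz z ε) = 0 := by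
  classical
  have hmono : Monotone D := monotone_nat_of_le_succ hD
  funext g
  choose N hN using hD'
  -- a common bound
  set M : ℕ := N g + ∑ s, N (g * (gen s)⁻¹) with hM
  have h1 : ∀ s m, M ≤ m → z m s g = 0 := by
    intro s m hm
    by_contra h0
    refine (hz' m s g h0).1 (hmono ?_ (hN g))
    omega
  have h2 : ∀ s m, M ≤ m → z m s (g * (gen s)⁻¹) = 0 := by
    intro s m hm
    by_contra h0
    refine (hz' m s _ h0).1 (hmono ?_ (hN (g * (gen s)⁻¹)))
    have h3 : N (g * (gen s)⁻¹) ≤ ∑ s, N (g * (gen s)⁻¹) :=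
      Finset.single_le_sum (f := fun s => N (g * (gen s)⁻¹)) (fun _ _ => Nat.zero_le _)
        (Finset.mem_univ s)
    omega
  have hb : ∀ c : S → G → ℤ, bd1 gen c g = ∑ s, (c s (g * (gen s)⁻¹) - c s g) := by
    intro c
    unfold bd1 act
    rw [Finset.sum_apply]
    rfl
  rw [hb]
  have h4 : ∀ s, sumz z ε s (g * (gen s)⁻¹) - sumz z ε s g =
      ∑ m ∈ Finset.range M, if ε m then (z m s (g * (gen s)⁻¹) - z m s g) else 0 := by
    intro s
    rw [EG_sumz_eq z ε s g M (h1 s), EG_sumz_eq z ε s (g * (gen s)⁻¹) M (h2 s),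
      ← Finset.sum_sub_distrib]
    refine Finset.sum_congr rfl fun m _ => ?_
    split_ifs <;> simp
  rw [Finset.sum_congr rfl fun s _ => h4 s, Finset.sum_comm]
  refine Finset.sum_eq_zero fun m _ => ?_
  by_cases hε : ε m = true
  · simp only [hε, if_true]
    rw [← hb, hz m]
    rfl
  · simp [hε]

theorem sub_sumz {S : Type} [DecidableEq S] (gen : S → G) (D : ℕ → Finset G)
    (hD : ∀ n, D n ⊆ D (n + 1)) (hD' : ∀ g, ∃ n, g ∈ D n) (z : ℕ → S → G → ℤ)
    (hz' : ∀ n, Off1 gen (D n) (z n)) (ε ε' : ℕ → Bool) (n : ℕ)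
    (h1 : ∀ m < n, ε m = ε' m) (h2 : ε n = true) (h3 : ε' n = false) :
    Off1 gen (D (n + 1)) (sumz z ε - sumz z ε' - z n) := by
  classical
  have hmono : Monotone D := monotone_nat_of_le_succ hD
  intro s g hne
  -- if the later cycles vanish at the edge then the value is `0`
  have key : (∀ m, n + 1 ≤ m → z m s g = 0) → False := by
    intro h
    apply hne
    show sumz z ε s g - sumz z ε' s g - z n s g = 0
    rw [EG_sumz_eq z ε s g (n + 1) h, EG_sumz_eq z ε' s g (n + 1) h, Finset.sum_range_succ,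
      Finset.sum_range_succ, h2, h3]
    have h4 : ∑ m ∈ Finset.range n, (if ε m then z m s g else 0) =
        ∑ m ∈ Finset.range n, if ε' m then z m s g else 0 := by
      refine Finset.sum_congr rfl fun m hm => ?_
      rw [h1 m (Finset.mem_range.1 hm)]
    rw [h4]
    simp
  constructor
  · intro hg
    apply key
    intro m hm
    by_contra h0
    exact (hz' m s g h0).1 (hmono hm hg)
  · intro hg
    apply key
    intro m hm
    by_contra h0
    exact (hz' m s g h0).2 (hmono hm hg)

end Pool.Agent.Helper52.HS
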