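import Pool.Agent.Helper52.HS.EndsF
import Pool.Agent.Helper52.HS.EndsG
import Pool.Agent.Helper52.HS.EndsK

/-!
# HS-EH: fillings give semistability

`ss_of_fill`: suppose not; take `bad_sequence`. Choose by `Fill` `d ε` with `bd2 P (d ε) = sumz z ε` (`bd1_sumz`); `A` is the set of the faces with a vertex in `C`
(`finite_faces`). Let `ε`, `ε'`, `n` be given by `pigeon` (`I = P.R × G`), `d = d ε - d ε'`, which is off `C`. Let `d' r g = d r g` if the face `(r, g)` has a vertex in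
`D (n+1)`, and `0` otherwise; it is finite (`finite_faces`) and off `C`; `d - d'` is off `D (n+1)`, so `bd2 P (d - d')` is
(`off1_bd2`). Then `z' := z n - bd2 P d'` is finite (`fs_bd2`), a cycle (`bd1_bd2`), and
`z' = bd2 P (d - d') - (sumz z ε - sumz z ε' - z n)` is off `D (n+1)` (`sub_sumz`). Contradiction.
-/

set_option linter.unusedSectionVars false

namespace Pool.Agent.Helper52.HS

open Pool.Agent.Helper39.AH

variable {G : Type} [Group G]

theorem ss_of_fill (P : FinPres G) (h : Fill P) : SS P := by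
  classical
  by_contra hSS
  obtain ⟨C, D, z, hD, hD', hfs, hz, hoff, hbad⟩ := bad_sequence P hSS
  have hfill : ∀ ε : ℕ → Bool, ∃ d : P.R → G → ℤ, bd2 P d = sumz z ε :=
    fun ε => h _ (bd1_sumz P.gen D hD hD' z hz hoff ε)
  choose d hd using hfill
  obtain ⟨ε, ε', n, h1, h2, h3, h4⟩ := pigeon
    {p : P.R × G | ∃ v ∈ vs P.gen (P.rel p.1) p.2, v ∈ C} (finite_faces P C)
    (fun ε p => d ε p.1 p.2)
  obtain ⟨dd, hdd⟩ : ∃ dd : P.R → G → ℤ, dd = d ε - d ε' := ⟨_, rfl⟩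
  have hddoff : Off2 P C dd := by
    intro r g hrg v hv hvC
    refine hrg ?_
    have h5 : d ε r g = d ε' r g := h4 (r, g) ⟨v, hv, hvC⟩
    rw [hdd, Pi.sub_apply, Pi.sub_apply, h5, sub_self]
  have hbd : bd2 P dd = sumz z ε - sumz z ε' := by
    rw [hdd, bd2_sub, hd, hd]
  obtain ⟨d', hd'⟩ : ∃ d' : P.R → G → ℤ, d' = fun r g =>
    if ∃ v ∈ vs P.gen (P.rel r) g, v ∈ D (n + 1) then dd r g else 0 := ⟨_, rfl⟩
  have hd'0 : ∀ r g, d' r g ≠ 0 → (∃ v ∈ vs P.gen (P.rel r) g, v ∈ D (n + 1)) ∧ dd r g ≠ 0 := by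
    intro r g hrg
    rw [hd'] at hrg
    by_cases hc : ∃ v ∈ vs P.gen (P.rel r) g, v ∈ D (n + 1)
    · refine ⟨hc, fun h0 => hrg ?_⟩
      show (if _ then _ else _) = (0 : ℤ)
      rw [if_pos hc, h0]
    · exact absurd (if_neg hc) hrg
  have hd'fs : FS d' := by
    refine (finite_faces P (D (n + 1))).subset fun p hp => ?_
    exact (hd'0 p.1 p.2 hp).1
  have hd'off : Off2 P C d' := fun r g hrg => hddoff r g (hd'0 r g hrg).2
  have hdiff : Off2 P (D (n + 1)) (dd - d') := by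
    intro r g hrg v hv hvD
    refine hrg ?_
    have h5 : d' r g = dd r g := by
      rw [hd']
      exact if_pos ⟨v, hv, hvD⟩
    rw [Pi.sub_apply, Pi.sub_apply, h5, sub_self]
  refine hbad n ⟨z n - bd2 P d', (hfs n).sub (fs_bd2 P hd'fs), ?_, ?_, d', hd'fs, hd'off,
    sub_sub_cancel _ _⟩
  · rw [bd1_sub, hz, bd1_bd2, sub_self]
  · have h5 : z n - bd2 P d' = bd2 P (dd - d') - (sumz z ε - sumz z ε' - z n) := by
      rw [bd2_sub, hbd]
      abel
    rw [h5]
    exact (off1_bd2 P hdiff).sub (sub_sumz P.gen D hD hD' z hoff ε ε' n h1 h2 h3)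

end Pool.Agent.Helper52.HS
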