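import Mathlib

/-!
# HS-FA: finite components of the complement of a finite set

`Joined adj E`: joined by a path all whose vertices are outside `E`; `fi adj E`: the vertices outside `E` whose component is finite.
(1) `finite_fi`. If `x ∈ fi E`, the class `{y | Joined E x y}` is finite and
`{y | ReflTransGen adj x y}` is infinite, so there are `u` in the class and `w` with `adj u w`, `w` not in
the class; then `w ∈ E`. So `x` is in the (finite) class of some `u ∈ fi E` adjacent to a vertex of `E`
(classes are symmetric), and there are finitely many `u` adjacent to the finite set `E`.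
(2) `exists_levels`. Let `E 0 = ∅ ⊆ E 1 ⊆ ...` be finite sets with union everything (`V` is countable: `E n` is the set of the vertices with
`Encodable`-number, or value of an injection to `ℕ`, less than `n`), and `C n = E n ∪ fi (E n)`. Then
`C 0 = ∅` (all components are infinite), `C n` is finite, `C n ⊆ C (n+1)` (a vertex of `fi (E n)` is in
`E (n+1)` or its class for `E (n+1)` is contained in its class for `E n`), the union of the `C n` is
everything, and for `x ∉ C n` the set `{y | Joined (C n) x y}` is infinite, because it contains `{y | Joined (E n) x y}`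
(no vertex of that class is in `fi (E n)`).
-/

namespace Pool.Agent.Helper52.HS

/-- joined by a path outside `E` -/
def Joined {V : Type} (adj : V → V → Prop) (E : Set V) : V → V → Prop :=
  Relation.ReflTransGen (fun x y => adj x y ∧ x ∉ E ∧ y ∉ E)

/-- the vertices outside `E` in a finite component of the complement of `E` -/
def fi {V : Type} (adj : V → V → Prop) (E : Set V) : Set V :=
  {x | x ∉ E ∧ {y | Joined adj E x y}.Finite}

private theorem flowA_symm {V : Type} {adj : V → V → Prop}
    (hsymm : ∀ x y, adj x y → adj y x) {E : Set V} {x y : V} (h : Joined adj E x y) :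
    Joined adj E y x := by
  induction h with
  | refl => exact Relation.ReflTransGen.refl
  | tail _ h ih => exact Relation.ReflTransGen.head ⟨hsymm _ _ h.1, h.2.2, h.2.1⟩ ih

private theorem flowA_notMem {V : Type} {adj : V → V → Prop} {E : Set V} {x y : V}
    (hx : x ∉ E) (h : Joined adj E x y) : y ∉ E := by
  induction h with
  | refl => exact hx
  | tail _ h _ => exact h.2.2

private theorem flowA_mono {V : Type} {adj : V → V → Prop} {E F : Set V} (hEF : E ⊆ F) {x y : V}
    (h : Joined adj F x y) : Joined adj E x y := by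
  induction h with
  | refl => exact Relation.ReflTransGen.refl
  | tail _ h ih =>
    exact Relation.ReflTransGen.tail ih ⟨h.1, fun h' => h.2.1 (hEF h'), fun h' => h.2.2 (hEF h')⟩

theorem finite_fi {V : Type} (adj : V → V → Prop)
    (hsymm : ∀ x y, adj x y → adj y x) (hlf : ∀ x, {y | adj x y}.Finite)
    (hinf : ∀ x, {y | Relation.ReflTransGen adj x y}.Infinite) (E : Set V) (hE : E.Finite) :
    (fi adj E).Finite := by
  have hS : (⋃ w ∈ E, {u | adj w u}).Finite := hE.biUnion fun w _ => hlf w
  have hS' : ((⋃ w ∈ E, {u | adj w u}) ∩ {u | {y | Joined adj E u y}.Finite}).Finite :=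
    hS.subset Set.inter_subset_left
  have hU : (⋃ u ∈ (⋃ w ∈ E, {u | adj w u}) ∩ {u | {y | Joined adj E u y}.Finite},
      {y | Joined adj E u y}).Finite := hS'.biUnion fun u hu => hu.2
  refine hU.subset ?_
  rintro x ⟨hx1, hx2⟩
  have hex : ∃ u, Joined adj E x u ∧ ∃ w ∈ E, adj u w := by
    by_contra hno
    push Not at hno
    refine hinf x (hx2.subset ?_)
    intro y hy
    change Relation.ReflTransGen adj x y at hy
    change Joined adj E x y
    induction hy with
    | refl => exact Relation.ReflTransGen.refl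
    | tail _ h ih =>
      exact Relation.ReflTransGen.tail ih ⟨h, flowA_notMem hx1 ih, fun h' => hno _ ih _ h' h⟩
  obtain ⟨u, hu, w, hw, huw⟩ := hex
  rw [Set.mem_iUnion₂]
  refine ⟨u, ⟨Set.mem_iUnion₂.2 ⟨w, hw, hsymm _ _ huw⟩, ?_⟩, flowA_symm hsymm hu⟩
  exact hx2.subset fun y hy => Relation.ReflTransGen.trans hu hy

theorem exists_levels {V : Type} [Countable V] (adj : V → V → Prop)
    (hsymm : ∀ x y, adj x y → adj y x) (hlf : ∀ x, {y | adj x y}.Finite)
    (hinf : ∀ x, {y | Relation.ReflTransGen adj x y}.Infinite) :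
    ∃ C : ℕ → Set V, C 0 = ∅ ∧ (∀ n, (C n).Finite) ∧ (∀ n, C n ⊆ C (n + 1)) ∧
      (∀ x, ∃ n, x ∈ C n) ∧ ∀ n, ∀ x, x ∉ C n → {y | Joined adj (C n) x y}.Infinite := by
  obtain ⟨f, hf⟩ := exists_injective_nat V
  have hfin : ∀ n : ℕ, (f ⁻¹' Set.Iio n).Finite := fun n =>
    (Set.finite_Iio n).preimage hf.injOn
  have hmono : ∀ n : ℕ, f ⁻¹' Set.Iio n ⊆ f ⁻¹' Set.Iio (n + 1) := by
    intro n x hx
    have : f x < n := hx
    exact Nat.lt_succ_of_lt this
  refine ⟨fun n => f ⁻¹' Set.Iio n ∪ fi adj (f ⁻¹' Set.Iio n), ?_, ?_, ?_, ?_, ?_⟩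
  · refine Set.eq_empty_iff_forall_notMem.2 ?_
    rintro x (hx | ⟨hx1, hx2⟩)
    · exact Nat.not_lt_zero _ hx
    · refine hinf x (hx2.subset ?_)
      intro y hy
      change Relation.ReflTransGen adj x y at hy
      change Joined adj _ x y
      induction hy with
      | refl => exact Relation.ReflTransGen.refl
      | tail _ h ih =>
        exact Relation.ReflTransGen.tail ih ⟨h, Nat.not_lt_zero _, Nat.not_lt_zero _⟩
  · intro n
    exact (hfin n).union (finite_fi adj hsymm hlf hinf _ (hfin n))
  · rintro n x (hx | ⟨hx1, hx2⟩)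
    · exact Or.inl (hmono n hx)
    · by_cases h : x ∈ f ⁻¹' Set.Iio (n + 1)
      · exact Or.inl h
      · exact Or.inr ⟨h, hx2.subset fun y hy => flowA_mono (hmono n) hy⟩
  · intro x
    exact ⟨f x + 1, Or.inl (Nat.lt_succ_self _)⟩
  · intro n x hx hfinC
    have hx1 : x ∉ f ⁻¹' Set.Iio n := fun h => hx (Or.inl h)
    have hcl : ∀ y, Joined adj (f ⁻¹' Set.Iio n) x y →
        y ∉ f ⁻¹' Set.Iio n ∪ fi adj (f ⁻¹' Set.Iio n) := by
      intro y hy hy'
      rcases hy' with hy' | ⟨_, hy'⟩
      · exact flowA_notMem hx1 hy hy'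
      · refine hx (Or.inr ⟨hx1, hy'.subset fun z hz => ?_⟩)
        exact Relation.ReflTransGen.trans (flowA_symm hsymm hy) hz
    refine hx (Or.inr ⟨hx1, hfinC.subset ?_⟩)
    intro y hy
    change Joined adj _ x y at hy
    change Joined adj _ x y
    have key : ∀ y, Joined adj (f ⁻¹' Set.Iio n) x y →
        Joined adj (f ⁻¹' Set.Iio n ∪ fi adj (f ⁻¹' Set.Iio n)) x y := by
      intro y hy
      induction hy with
      | refl => exact Relation.ReflTransGen.refl
      | tail hxy h ih =>
        exact Relation.ReflTransGen.tail ih ⟨h.1, hcl _ hxy, hcl _ (Relation.ReflTransGen.tail hxy h)⟩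
    exact key y hy

end Pool.Agent.Helper52.HS
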