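import Pool.Agent.Helper52.HS.FspA

/-!
# HS-FC: the finite version of semistability is the one of project AH

`B1_iff`: from left to right: closure induction, a generator `ch σ (rel ρ) g` is `bd2` of `Pi.single ρ (Pi.single g 1)` (`toF_ch`) and its face `(ρ, g)` is off `C`.
From right to left: `d` is the sum over its finite support of the `Pi.single ρ (Pi.single g (d ρ g))`, and
`bd2` of it is `∑ d ρ g • toF (ch σ (rel ρ) g)` (`path_map` or additivity); `toF` is injective.
`Z1_iff`: `toF_bd`. `ss_iff`: every `FS` function is `toF` of a `Finsupp` (`exists_toF`), and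
`presOf rel` has `S = X`, `R = R`, `gen = gn rel`, `rel = rel` by definition; apply `Z1_iff`, `B1_iff` with `P = presOf rel`.
-/

set_option linter.unusedSectionVars false

namespace Pool.Agent.Helper52.HS

open Pool.Agent.Helper39.AH

variable {G : Type} [Group G] {S : Type}

theorem Z1_iff (P : FinPres G) (C : Finset G) (z : G × P.S →₀ ℤ) :
    Z1 P.gen C z ↔ bd1 P.gen (toF z) = 0 ∧ Off1 P.gen C (toF z) := by
  unfold Z1
  refine and_congr ?_ ?_
  · constructor
    · intro h
      funext g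
      rw [← toF_bd, h]
      rfl
    · intro h
      ext g
      rw [toF_bd, h]
      rfl
  · constructor
    · intro h s g hg
      exact h (g, s) (Finsupp.mem_support_iff.2 hg)
    · intro h e he
      exact h e.2 e.1 (Finsupp.mem_support_iff.1 he)

private theorem Fsp_toF_add (z w : G × S →₀ ℤ) : toF (z + w) = toF z + toF w := rfl

private theorem Fsp_toF_neg (z : G × S →₀ ℤ) : toF (-z) = -toF z := rfl

private theorem Fsp_toF_sub (z w : G × S →₀ ℤ) : toF (z - w) = toF z - toF w := by
  rw [sub_eq_add_neg, Fsp_toF_add, Fsp_toF_neg, ← sub_eq_add_neg]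

private def FspH : (G × S →₀ ℤ) →+ (S → G → ℤ) where
  toFun := toF
  map_zero' := rfl
  map_add' := Fsp_toF_add

private theorem FspH_apply (z : G × S →₀ ℤ) : FspH z = toF z := rfl

open Classical in
private theorem Fsp_single (P : FinPres G) (ρ : P.R) (g : G) (n : ℤ) :
    bd2 P (Pi.single ρ (Pi.single g n)) = toF (n • ch P.gen (P.rel ρ) g) := by
  have h1 : bd2 P (Pi.single ρ (Pi.single g n)) = path P.gen (P.rel ρ) (Pi.single g n) := by
    unfold bd2
    rw [Finset.sum_eq_single ρ]
    · rw [Pi.single_eq_same]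
    · intro r _ hr
      rw [Pi.single_eq_of_ne hr, path_zero]
    · intro h
      exact absurd (Finset.mem_univ ρ) h
  have h2 : (Pi.single g n : G → ℤ) = n • (Pi.single g 1 : G → ℤ) := by
    funext x
    rcases eq_or_ne x g with rfl | hx
    · simp
    · simp [Pi.single_eq_of_ne hx]
  have h3 : path P.gen (P.rel ρ) (n • (Pi.single g 1 : G → ℤ)) =
      n • path P.gen (P.rel ρ) (Pi.single g 1 : G → ℤ) :=
    map_zsmul (pathH P.gen (P.rel ρ)) n (Pi.single g 1 : G → ℤ)
  rw [h1, h2, h3, ← toF_ch]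
  exact (map_zsmul FspH n (ch P.gen (P.rel ρ) g)).symm

theorem B1_iff (P : FinPres G) (C : Finset G) (z : G × P.S →₀ ℤ) :
    z ∈ B1 P.gen P.rel C ↔ ∃ d : P.R → G → ℤ, FS d ∧ Off2 P C d ∧ bd2 P d = toF z := by
  classical
  constructor
  · intro hz
    unfold B1 at hz
    induction hz using AddSubgroup.closure_induction with
    | mem x hx =>
      obtain ⟨g, ρ, hv, rfl⟩ := hx
      have hsup : ∀ r g', (Pi.single ρ (Pi.single g 1) : P.R → G → ℤ) r g' ≠ 0 →
          r = ρ ∧ g' = g := by
        intro r g' h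
        by_cases hr : r = ρ
        · subst hr
          refine ⟨rfl, ?_⟩
          by_contra hg
          apply h
          rw [Pi.single_eq_same, Pi.single_eq_of_ne hg]
        · exfalso
          apply h
          rw [Pi.single_eq_of_ne hr]
          rfl
      refine ⟨Pi.single ρ (Pi.single g 1), ?_, ?_, ?_⟩
      · refine (Set.finite_singleton (ρ, g)).subset ?_
        rintro ⟨r, g'⟩ h
        obtain ⟨h1, h2⟩ := hsup r g' h
        rw [Set.mem_singleton_iff, h1, h2]
      · intro r g' h v hv'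
        obtain ⟨rfl, rfl⟩ := hsup r g' h
        exact hv v hv'
      · rw [Fsp_single, one_smul]
    | zero => exact ⟨0, FS.zero, Off2.zero, bd2_zero P⟩
    | add x y _ _ hx hy =>
      obtain ⟨d, h1, h2, h3⟩ := hx
      obtain ⟨d', h1', h2', h3'⟩ := hy
      exact ⟨d + d', h1.add h1', h2.add h2', by rw [bd2_add, h3, h3', Fsp_toF_add]⟩
    | neg x _ hx =>
      obtain ⟨d, h1, h2, h3⟩ := hx
      refine ⟨-d, h1.neg, ?_, by rw [bd2_neg, h3, Fsp_toF_neg]⟩
      intro r g hg
      refine h2 r g fun h0 => hg ?_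
      rw [Pi.neg_apply, Pi.neg_apply, h0, neg_zero]
  · rintro ⟨d, h1, h2, h3⟩
    have hd : d = ∑ p ∈ h1.toFinset, Pi.single p.1 (Pi.single p.2 (d p.1 p.2)) := by
      funext r g
      rw [Finset.sum_apply, Finset.sum_apply]
      by_cases h0 : d r g = 0
      · rw [h0]
        symm
        refine Finset.sum_eq_zero fun p hp => ?_
        by_cases hr : r = p.1
        · subst hr
          rw [Pi.single_eq_same]
          by_cases hg : g = p.2
          · subst hg
            rw [Pi.single_eq_same, h0]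
          · rw [Pi.single_eq_of_ne hg]
        · rw [Pi.single_eq_of_ne hr]
          rfl
      · rw [Finset.sum_eq_single (r, g)]
        · rw [Pi.single_eq_same, Pi.single_eq_same]
        · intro p _ hp
          by_cases hr : r = p.1
          · have hg : g ≠ p.2 := fun hg => hp (by rw [hr, hg])
            subst hr
            rw [Pi.single_eq_same, Pi.single_eq_of_ne hg]
          · rw [Pi.single_eq_of_ne hr]
            rfl
        · intro h
          exact absurd ((Set.Finite.mem_toFinset h1).2 h0) h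
    have hw : toF (∑ p ∈ h1.toFinset, d p.1 p.2 • ch P.gen (P.rel p.1) p.2) = bd2 P d := by
      conv_rhs => rw [hd]
      rw [bd2_sum, ← FspH_apply, map_sum]
      exact Finset.sum_congr rfl fun p _ => by rw [Fsp_single, FspH_apply]
    have hz : z = ∑ p ∈ h1.toFinset, d p.1 p.2 • ch P.gen (P.rel p.1) p.2 :=
      toF_injective (h3.symm.trans hw.symm)
    rw [hz]
    refine AddSubgroup.sum_mem _ fun p hp => AddSubgroup.zsmul_mem _ ?_ _
    exact AddSubgroup.subset_closure ⟨p.2, p.1, h2 p.1 p.2 ((Set.Finite.mem_toFinset h1).1 hp), rfl⟩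

private theorem Fsp_ss (P : FinPres G) : SS P ↔
    ∀ C : Finset G, ∃ D : Finset G, C ⊆ D ∧ ∀ E : Finset G, D ⊆ E →
      ∀ z : G × P.S →₀ ℤ, Z1 P.gen D z → ∃ z', Z1 P.gen E z' ∧ z - z' ∈ B1 P.gen P.rel C := by
  constructor
  · intro h C
    obtain ⟨D, hCD, hD⟩ := h C
    refine ⟨D, hCD, fun E hE z hz => ?_⟩
    obtain ⟨hz1, hz2⟩ := (Z1_iff P D z).1 hz
    obtain ⟨z', hf, hb, ho, d, hd1, hd2, hd3⟩ := hD E hE (toF z) (fs_toF z) hz1 hz2
    obtain ⟨w, rfl⟩ := exists_toF z' hf
    refine ⟨w, (Z1_iff P E w).2 ⟨hb, ho⟩, ?_⟩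
    exact (B1_iff P C (z - w)).2 ⟨d, hd1, hd2, by rw [Fsp_toF_sub]; exact hd3.symm⟩
  · intro h C
    obtain ⟨D, hCD, hD⟩ := h C
    refine ⟨D, hCD, fun E hE z hf hb ho => ?_⟩
    obtain ⟨w, rfl⟩ := exists_toF z hf
    obtain ⟨w', hw1, hw2⟩ := hD E hE w ((Z1_iff P D w).2 ⟨hb, ho⟩)
    obtain ⟨h1, h2⟩ := (Z1_iff P E w').1 hw1
    obtain ⟨d, hd1, hd2, hd3⟩ := (B1_iff P C (w - w')).1 hw2
    exact ⟨toF w', fs_toF w', h1, h2, d, hd1, hd2, by rw [hd3, Fsp_toF_sub]⟩

theorem ss_iff {X R : Type} [Finite X] [Finite R] (rel : R → List (X × Bool)) :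
    SS (presOf rel) ↔ H1Semistable rel :=
  Fsp_ss (presOf rel)

end Pool.Agent.Helper52.HS
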