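import Pool.Agent.Helper52.HS.Ends
import Pool.Agent.Helper39.AH.Chain

/-!
# HS-FB: finitely supported functions and `Finsupp`

`toF z s g = z (g, s)`. `toF_bd`: both sides are additive; check on `Finsupp.single (g, s) n`
(`Finsupp.induction_linear`, `AH.bd_single`, `bd1_single`).
`toF_ch`: induction on `l` (`path` is additive; `act v (Pi.single g n) = Pi.single (g * v) n`).
-/

set_option linter.unusedSectionVars false

namespace Pool.Agent.Helper52.HS

open Pool.Agent.Helper39.AH

variable {G : Type} [Group G] {S : Type}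

/-- a finitely supported 1-chain as a function -/
def toF (z : G × S →₀ ℤ) : S → G → ℤ := fun s g => z (g, s)

theorem toF_injective : Function.Injective (toF : (G × S →₀ ℤ) → S → G → ℤ) := by
  intro z z' h
  ext ⟨g, s⟩
  exact congrFun (congrFun h s) g

theorem fs_toF (z : G × S →₀ ℤ) : FS (toF z) := by
  refine (z.support.finite_toSet.image Prod.swap).subset ?_
  rintro ⟨s, g⟩ h
  exact ⟨(g, s), Finset.mem_coe.2 (Finsupp.mem_support_iff.2 h), rfl⟩

theorem exists_toF (c : S → G → ℤ) (h : FS c) : ∃ z : G × S →₀ ℤ, toF z = c := by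
  have h1 : (Function.support fun q : G × S => c q.2 q.1).Finite := by
    refine (h.image Prod.swap).subset ?_
    rintro ⟨g, s⟩ hg
    exact ⟨(s, g), hg, rfl⟩
  exact ⟨Finsupp.ofSupportFinite _ h1, rfl⟩

private theorem FspA_add (z z' : G × S →₀ ℤ) : toF (z + z') = toF z + toF z' := rfl

private theorem FspA_sub (z z' : G × S →₀ ℤ) : toF (z - z') = toF z - toF z' := rfl

private theorem FspA_single [DecidableEq S] [DecidableEq G] (g : G) (s : S) (n : ℤ) :
    toF (Finsupp.single (g, s) n) = Pi.single s (Pi.single g n) := by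
  funext t h
  unfold toF
  rcases eq_or_ne t s with rfl | hts
  · rw [Pi.single_eq_same]
    rcases eq_or_ne h g with rfl | hhg
    · rw [Pi.single_eq_same, Finsupp.single_eq_same]
    · rw [Pi.single_eq_of_ne hhg, Finsupp.single_eq_of_ne]
      intro h1
      exact hhg (congrArg Prod.fst h1)
  · rw [Pi.single_eq_of_ne hts, Finsupp.single_eq_of_ne]
    · rfl
    · intro h1
      exact hts (congrArg Prod.snd h1)

private theorem FspA_act [DecidableEq G] (v g : G) (n : ℤ) :
    act v (Pi.single g n : G → ℤ) = Pi.single (g * v) n := by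
  funext h
  rw [act_apply]
  rcases eq_or_ne h (g * v) with rfl | hh
  · rw [mul_inv_cancel_right, Pi.single_eq_same, Pi.single_eq_same]
  · rw [Pi.single_eq_of_ne hh, Pi.single_eq_of_ne]
    intro h1
    exact hh (by rw [← h1, inv_mul_cancel_right])

theorem toF_bd [Fintype S] [DecidableEq S] (gen : S → G) (z : G × S →₀ ℤ) (g : G) :
    bd gen z g = bd1 gen (toF z) g := by
  classical
  induction z using Finsupp.induction_linear with
  | zero =>
    have h1 : toF (0 : G × S →₀ ℤ) = 0 := rfl
    rw [h1, bd1_zero, ← bdHom_apply, map_zero]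
    rfl
  | add z z' hz hz' =>
    rw [FspA_add, bd1_add, bd_add, Finsupp.add_apply, hz, hz']
    rfl
  | single a n =>
    obtain ⟨h, s⟩ := a
    rw [FspA_single, bd1_single, FspA_act, bd_single, Finsupp.sub_apply]
    have h1 : ∀ x : G, (Finsupp.single x n) g = (Pi.single x n : G → ℤ) g := fun x => by
      rcases eq_or_ne g x with rfl | hgx
      · rw [Pi.single_eq_same, Finsupp.single_eq_same]
      · rw [Pi.single_eq_of_ne hgx, Finsupp.single_eq_of_ne hgx]
    rw [h1, h1]
    rfl

theorem toF_ch [DecidableEq S] [DecidableEq G] (gen : S → G) (l : List (S × Bool)) (g : G) :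
    toF (ch gen l g) = path gen l (Pi.single g 1) := by
  induction l generalizing g with
  | nil => rfl
  | cons p l ih =>
    obtain ⟨s, b⟩ := p
    cases b
    · rw [ch_cons_false, FspA_sub, ih, FspA_single, path_cons_false, FspA_act]
      abel
    · rw [ch_cons_true, FspA_add, ih, FspA_single, path_cons_true, FspA_act]

end Pool.Agent.Helper52.HS
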