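import Pool.Agent.Helper52.HS.Alg
import Pool.Agent.Helper52.HS.Flow

/-!
# HS-HZ: every function is a finite sum of `act t Q - Q`, `t ∈ K`, `K` infinite and finitely generated

Proof. Let `T ⊆ K` be a finite symmetric generating set of `K` and `adj x y := ∃ t ∈ T, y = x * t`. This is
symmetric, locally finite, and the component of `x` is `x K`, which is infinite. `exists_flow` gives
`ν`, and `ν x = x * κ x` with `κ x ∈ T`. Define `A : G → V` by well-founded recursion
(`WellFounded.fix`, for `fun x y => ν x = y`)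
`A y = F y + ∑ t ∈ T, if κ (y * t⁻¹) = t then A (y * t⁻¹) else 0`
(if `κ (y * t⁻¹) = t` then `ν (y * t⁻¹) = y`), and `Q t g = - (if κ g = t then A g else 0)`. Then
`∑ t ∈ T, (act t (Q t) - Q t) g = - ∑ t ∈ T, (if κ (g * t⁻¹) = t then A (g * t⁻¹) else 0) +
∑ t ∈ T, (if κ g = t then A g else 0) = - (A g - F g) + A g = F g`. If `g ∉ Y` then `g * t⁻¹ ∉ Y` for all `t ∈ T`
(`Y` is right `K`-invariant), so `A g = 0` by well-founded induction.
-/

namespace Pool.Agent.Helper52.HS

private theorem reach {G : Type} [Group G] (T : Set G) (hT : ∀ t ∈ T, t⁻¹ ∈ T) (k : G)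
    (hk : k ∈ Subgroup.closure T) (x : G) :
    Relation.ReflTransGen (fun x y : G => ∃ t ∈ T, y = x * t) x (x * k) := by
  have hs : Std.Symm (fun x y : G => ∃ t ∈ T, y = x * t) := by
    constructor
    rintro a b ⟨t, ht, rfl⟩
    exact ⟨t⁻¹, hT t ht, by group⟩
  induction hk using Subgroup.closure_induction generalizing x with
  | mem t ht => exact Relation.ReflTransGen.single ⟨t, ht, rfl⟩
  | one => rw [mul_one]
  | mul a b _ _ iha ihb =>
    rw [← mul_assoc]
    exact (iha x).trans (ihb (x * a))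
  | inv a _ iha =>
    have h := iha (x * a⁻¹)
    rw [inv_mul_cancel_right] at h
    exact Relation.ReflTransGen.stdSymm.symm _ _ h

theorem h_zero {G : Type} [Group G] [Countable G] (K : Subgroup G) (hK : K.FG)
    (hinf : Infinite K) :
    ∃ T : Finset G, (∀ t ∈ T, t ∈ K) ∧ ∀ (V : Type) [AddCommGroup V] (Y : Set G),
      (∀ y ∈ Y, ∀ k ∈ K, y * k ∈ Y) → ∀ F : G → V, (∀ g, g ∉ Y → F g = 0) →
      ∃ Q : G → G → V, (∀ t ∈ T, ∀ g, g ∉ Y → Q t g = 0) ∧
        F = ∑ t ∈ T, (act t (Q t) - Q t) := by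
  classical
  obtain ⟨S, hS⟩ := hK
  set T : Finset G := S ∪ S.image (fun t => t⁻¹) with hT
  have hTK : ∀ t ∈ T, t ∈ K := by
    intro t ht
    rw [hT, Finset.mem_union, Finset.mem_image] at ht
    rcases ht with ht | ⟨s, hs, rfl⟩
    · rw [← hS]; exact Subgroup.subset_closure ht
    · rw [← hS]; exact inv_mem (Subgroup.subset_closure hs)
  have hTi : ∀ t ∈ (T : Set G), t⁻¹ ∈ (T : Set G) := by
    intro t ht
    rw [Finset.mem_coe, hT, Finset.mem_union, Finset.mem_image] at ht ⊢
    rcases ht with ht | ⟨s, hs, rfl⟩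
    · exact Or.inr ⟨t, ht, rfl⟩
    · left; rw [inv_inv]; exact hs
  have hKT : K ≤ Subgroup.closure (T : Set G) := by
    rw [← hS]
    refine Subgroup.closure_mono ?_
    intro s hs
    rw [Finset.mem_coe, hT, Finset.mem_union]
    exact Or.inl hs
  refine ⟨T, hTK, ?_⟩
  obtain ⟨ν, hν, wf⟩ := exists_flow (fun x y : G => ∃ t ∈ (T : Set G), y = x * t)
    (by
      rintro a b ⟨t, ht, rfl⟩
      exact ⟨t⁻¹, hTi t ht, by group⟩)
    (by
      intro x
      refine (T.finite_toSet.image (fun t => x * t)).subset ?_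
      rintro y ⟨t, ht, rfl⟩
      exact ⟨t, ht, rfl⟩)
    (by
      intro x
      have h1 : (Set.range (fun k : K => x * (k : G))).Infinite := by
        refine Set.infinite_range_of_injective ?_
        intro a b hab
        exact Subtype.ext (mul_left_cancel hab)
      refine h1.mono ?_
      rintro _ ⟨k, rfl⟩
      exact reach _ hTi k (hKT k.2) x)
  choose κ hκT hκ using hν
  intro V _ Y hY F hF
  have key : ∀ y t : G, κ (y * t⁻¹) = t → ν (y * t⁻¹) = y := by
    intro y t h
    rw [hκ, h, inv_mul_cancel_right]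
  let A : G → V := wf.fix (fun y rec => F y + ∑ t ∈ T,
    if h : κ (y * t⁻¹) = t then rec (y * t⁻¹) (key y t h) else 0)
  have hA : ∀ y, A y = F y + ∑ t ∈ T, if κ (y * t⁻¹) = t then A (y * t⁻¹) else 0 := by
    intro y
    have h := wf.fix_eq (fun y rec => F y + ∑ t ∈ T,
      if h : κ (y * t⁻¹) = t then rec (y * t⁻¹) (key y t h) else 0) y
    have h' : A y = F y + ∑ t ∈ T,
      if h : κ (y * t⁻¹) = t then A (y * t⁻¹) else 0 := h
    rw [h']
    rfl
  have hA0 : ∀ y, y ∉ Y → A y = 0 := by
    intro y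
    induction y using wf.induction with
    | _ y ih =>
      intro hy
      rw [hA, hF y hy, zero_add]
      refine Finset.sum_eq_zero fun t ht => ?_
      split_ifs with h
      · refine ih _ (key y t h) fun hyt => hy ?_
        have := hY _ hyt t (hTK t ht)
        rwa [inv_mul_cancel_right] at this
      · rfl
  refine ⟨fun t g => -(if κ g = t then A g else 0), ?_, ?_⟩
  · intro t _ g hg
    simp [hA0 g hg]
  · funext g
    rw [Finset.sum_apply]
    have h1 : ∀ t ∈ T, (act t (fun g => -(if κ g = t then A g else 0)) -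
        (fun g => -(if κ g = t then A g else 0))) g =
        (if κ g = t then A g else 0) - (if κ (g * t⁻¹) = t then A (g * t⁻¹) else 0) := by
      intro t _
      simp only [Pi.sub_apply, act]
      abel
    rw [Finset.sum_congr rfl h1, Finset.sum_sub_distrib, Finset.sum_ite_eq, if_pos (Finset.mem_coe.1 (hκT g))]
    rw [hA g]
    abel

end Pool.Agent.Helper52.HS
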