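import Pool.Agent.Helper52.HS.KillA
import Pool.Agent.Helper52.HS.HZero

/-!
# HS-KB: closure properties of the killed subgroups

* `kill_conj`: `Sp (N ⊔ zpowers s) ≤ Sp N`: by `mem_Sp_of_gen` (`N ⊔ zpowers s` is the closure of `N ∪ {s}`) it suffices that
  `tt s F ∈ Sp N`. By `h_zero` for `K`, `Y = univ`: `F = ∑ t ∈ T, (act t (Q t) - Q t)`, `t ∈ K`; use `tt_mem_of_zero`.
* `kill_join`: by `mem_Sp_of_gen` every `x ∈ Sp (N ⊔ N')` is `x₁ + x₂`, `x₁ ∈ Sp N`, `x₂ ∈ Sp N'`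
  (`Z = Sp N ⊔ Sp N'`, `AddSubgroup.mem_sup`). By `h_zero` for `K`: `bdQ x₁ = ∑ t ∈ T, (act t (Q t) - Q t) = bdQ u`,
  `u = ∑ t ∈ T, tt t (Q t)`, in `Sp N` and in `Sp N'`. So `bdQ (x₁ - u) = 0` and `bdQ (x₂ + u) = 0`
  (as `bdQ x = 0`), so `x₁ = u`, `x₂ = -u`, `x = 0`.
-/

set_option linter.unusedSectionVars false

namespace Pool.Agent.Helper52.HS

variable {G : Type} [Group G]

theorem kill_conj [Countable G] (P : FinPres G) (N K : Subgroup G) (s : G) (hN : Kill P N)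
    (hK : K.FG) (hinf : Infinite K) (h1 : K ≤ N) (h2 : ∀ k ∈ K, s⁻¹ * k * s ∈ N) :
    Kill P (N ⊔ Subgroup.zpowers s) := by
  obtain ⟨T, hT, hz⟩ := h_zero K hK hinf
  have hcl : N ⊔ Subgroup.zpowers s = Subgroup.closure ((N : Set G) ∪ {s}) := by
    rw [Subgroup.closure_union, Subgroup.closure_eq, Subgroup.zpowers_eq_closure]
  intro x hx hb
  refine hN x ?_ hb
  rw [hcl] at hx
  refine mem_Sp_of_gen P (Sp P (⊤ : AddSubgroup (G → ℤ)) N Set.univ) _ ?_ hx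
  rintro g (hg | hg) F
  · exact tt_mem_Sp hg (AddSubgroup.mem_top _) fun g' hg' => absurd (Set.mem_univ g') hg'
  · rw [Set.mem_singleton_iff] at hg
    subst hg
    obtain ⟨Q, -, hQ⟩ := hz ℤ Set.univ (fun _ _ _ _ => Set.mem_univ _) F
      (fun g' hg' => absurd (Set.mem_univ g') hg')
    exact tt_mem_of_zero P N g T (fun t ht => h1 (hT t ht)) (fun t ht => h2 t (hT t ht)) F Q hQ

theorem kill_join [Countable G] (P : FinPres G) (N N' K : Subgroup G) (hN : Kill P N)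
    (hN' : Kill P N') (hK : K.FG) (hinf : Infinite K) (h1 : K ≤ N) (h2 : K ≤ N') :
    Kill P (N ⊔ N') := by
  obtain ⟨T, hT, hz⟩ := h_zero K hK hinf
  intro x hx hb
  rw [Subgroup.sup_eq_closure] at hx
  have hx' : x ∈ Sp P (⊤ : AddSubgroup (G → ℤ)) N Set.univ ⊔
      Sp P (⊤ : AddSubgroup (G → ℤ)) N' Set.univ := by
    refine mem_Sp_of_gen P _ _ ?_ hx
    rintro g (hg | hg) F
    · exact AddSubgroup.mem_sup_left
        (tt_mem_Sp hg (AddSubgroup.mem_top _) fun g' hg' => absurd (Set.mem_univ g') hg')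
    · exact AddSubgroup.mem_sup_right
        (tt_mem_Sp hg (AddSubgroup.mem_top _) fun g' hg' => absurd (Set.mem_univ g') hg')
  obtain ⟨x₁, hx₁, x₂, hx₂, rfl⟩ := AddSubgroup.mem_sup.1 hx'
  obtain ⟨Q, -, hQ⟩ := hz ℤ Set.univ (fun _ _ _ _ => Set.mem_univ _) (bdQ P ⊤ x₁)
    (fun g' hg' => absurd (Set.mem_univ g') hg')
  have hu : bdQ P ⊤ (∑ t ∈ T, tt P (⊤ : AddSubgroup (G → ℤ)) t (Q t)) = bdQ P ⊤ x₁ := by
    rw [map_sum, hQ]
    exact Finset.sum_congr rfl fun t _ => bdQ_tt t (Q t)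
  have hmem : ∀ L : Subgroup G, K ≤ L → (∑ t ∈ T, tt P (⊤ : AddSubgroup (G → ℤ)) t (Q t)) ∈
      Sp P (⊤ : AddSubgroup (G → ℤ)) L Set.univ := by
    intro L hL
    refine AddSubgroup.sum_mem _ fun t ht => ?_
    exact tt_mem_Sp (hL (hT t ht)) (AddSubgroup.mem_top _)
      fun g' hg' => absurd (Set.mem_univ g') hg'
  have e1 : x₁ - ∑ t ∈ T, tt P (⊤ : AddSubgroup (G → ℤ)) t (Q t) = 0 := by
    refine hN _ (AddSubgroup.sub_mem _ hx₁ (hmem N h1)) ?_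
    rw [map_sub, hu, sub_self]
  have e2 : x₂ + ∑ t ∈ T, tt P (⊤ : AddSubgroup (G → ℤ)) t (Q t) = 0 := by
    refine hN' _ (AddSubgroup.add_mem _ hx₂ (hmem N' h2)) ?_
    rw [map_add, hu, add_comm, ← map_add, hb]
  rw [sub_eq_zero] at e1
  rw [e1, add_comm]
  exact e2

end Pool.Agent.Helper52.HS
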