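import Pool.Agent.Helper52.HS.Quot

/-!
# HS-KA: the span of the classes with values in a subgroup

`Sp P M N Y` is the span of the classes `tt v F`, `v ∈ N`, `F ∈ M` vanishing off `Y`.

* `mem_Sp_of_gen`: for a set `A` of group elements: if all `tt g F`, `g ∈ A`,
  `F : G → ℤ`, are in a subgroup `Z` of `Qt P ⊤`, then `Sp P ⊤ (closure A) univ ≤ Z`: the set of all `g` such that `tt g F ∈ Z`
  for all `F` is a subgroup (`tt_one`, `tt_mul`, `tt_inv`, `inv_top`).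
* `tt_mem_of_zero`: by `tt_sum` and `tt_conj` `tt g F = ∑ (tt (g⁻¹ t g) (act g (Q t)) - tt t (Q t))`, in `Sp N`.
-/

set_option linter.unusedSectionVars false

namespace Pool.Agent.Helper52.HS

variable {G : Type} [Group G] {V : Type} [AddCommGroup V]

/-- the span of the classes `tt v F`, `v ∈ N`, `F ∈ M` vanishing off `Y` -/
def Sp (P : FinPres G) (M : AddSubgroup (G → V)) (N : Subgroup G) (Y : Set G) :
    AddSubgroup (Qt P M) :=
  AddSubgroup.closure {x | ∃ v ∈ N, ∃ F ∈ M, (∀ g, g ∉ Y → F g = 0) ∧ x = tt P M v F}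

/-- `N` is killed: a locally finite cycle made of paths with values in `N` is a boundary -/
def Kill (P : FinPres G) (N : Subgroup G) : Prop :=
  ∀ x ∈ Sp P (⊤ : AddSubgroup (G → ℤ)) N Set.univ, bdQ P ⊤ x = 0 → x = 0

theorem tt_mem_Sp {P : FinPres G} {M : AddSubgroup (G → V)} {N : Subgroup G} {Y : Set G} {v : G}
    (hv : v ∈ N) {F : G → V} (hF : F ∈ M) (hY : ∀ g, g ∉ Y → F g = 0) :
    tt P M v F ∈ Sp P M N Y :=
  AddSubgroup.subset_closure ⟨v, hv, F, hF, hY, rfl⟩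

theorem Sp_mono {P : FinPres G} {M : AddSubgroup (G → V)} {N N' : Subgroup G} {Y Y' : Set G}
    (hN : N ≤ N') (hY : Y ⊆ Y') : Sp P M N Y ≤ Sp P M N' Y' := by
  refine AddSubgroup.closure_mono ?_
  rintro x ⟨v, hv, F, hF, h, rfl⟩
  exact ⟨v, hN hv, F, hF, fun g hg => h g fun hg' => hg (hY hg'), rfl⟩

theorem mem_Sp_of_gen (P : FinPres G) (Z : AddSubgroup (Qt P (⊤ : AddSubgroup (G → ℤ))))
    (A : Set G) (hA : ∀ g ∈ A, ∀ F : G → ℤ, tt P ⊤ g F ∈ Z) :
    Sp P (⊤ : AddSubgroup (G → ℤ)) (Subgroup.closure A) Set.univ ≤ Z := by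
  have key : ∀ v ∈ Subgroup.closure A, ∀ F : G → ℤ, tt P ⊤ v F ∈ Z := by
    intro v hv
    refine Subgroup.closure_induction (p := fun v _ => ∀ F : G → ℤ, tt P ⊤ v F ∈ Z)
      (fun g hg F => hA g hg F) ?_ ?_ ?_ hv
    · intro F
      rw [tt_one inv_top (AddSubgroup.mem_top F)]
      exact Z.zero_mem
    · intro x y _ _ hx hy F
      rw [tt_mul inv_top x y (AddSubgroup.mem_top F)]
      exact Z.add_mem (hx F) (hy _)
    · intro x _ hx F
      rw [tt_inv inv_top x (AddSubgroup.mem_top F)]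
      exact Z.neg_mem (hx _)
  refine (AddSubgroup.closure_le _).2 ?_
  rintro x ⟨v, hv, F, _, _, rfl⟩
  exact key v hv F

theorem tt_mem_of_zero (P : FinPres G) (N : Subgroup G) (g : G) (T : Finset G)
    (hT : ∀ t ∈ T, t ∈ N) (hT' : ∀ t ∈ T, g⁻¹ * t * g ∈ N) (F : G → ℤ) (Q : G → G → ℤ)
    (hF : F = ∑ t ∈ T, (act t (Q t) - Q t)) :
    tt P ⊤ g F ∈ Sp P (⊤ : AddSubgroup (G → ℤ)) N Set.univ := by
  rw [hF, tt_sum]
  refine AddSubgroup.sum_mem _ fun t ht => ?_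
  rw [tt_conj inv_top g t (AddSubgroup.mem_top (Q t))]
  refine AddSubgroup.sub_mem _ ?_ ?_
  · exact tt_mem_Sp (hT' t ht) (AddSubgroup.mem_top _) fun x hx => absurd (Set.mem_univ x) hx
  · exact tt_mem_Sp (hT t ht) (AddSubgroup.mem_top _) fun x hx => absurd (Set.mem_univ x) hx

end Pool.Agent.Helper52.HS
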