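import Pool.Agent.Helper52.HS.PushE

/-!
# HS-PU: uniform version of `push`

Apply `push_one` to `fun t g => c t (y * g)` (a cycle by `bd1_left`, vanishing off `H`) and translate the results
back: `c' t g := c'₁ t (y⁻¹ * g)`, `d r g := d₁ r (y⁻¹ * g)` (`path_left`, `bd2_left`, `bd1_left` for `y⁻¹`; `chn` is a finite sum of paths).
-/

set_option linter.unusedSectionVars false

namespace Pool.Agent.Helper52.HS

variable {G : Type} [Group G] {T : Type} [Fintype T] [DecidableEq T]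

private theorem chn_left' {V : Type} [AddCommGroup V] (P : FinPres G) (τ : T → G) (z : G)
    (c : T → G → V) :
    chn P τ (fun t g => c t (z * g)) = fun s g => chn P τ c s (z * g) := by
  unfold chn
  funext s g
  simp only [Finset.sum_apply]
  exact Finset.sum_congr rfl fun t _ =>
    congrFun (congrFun (path_left P.gen z (word P (τ t)) (c t)) s) g

theorem push_uniform [Countable G] (P : FinPres G) (H : Subgroup G) (hH : H.FG)
    (hinf : Infinite H) {τ : T → G} (hτ : Subgroup.closure (Set.range τ) = H) (u : G)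
    (hc : (H ⊓ H.map (MulAut.conj u).toMonoidHom).relIndex H ≠ 0) :
    ∃ Φ : Finset G, ∀ (y : G) (c : T → G → ℤ), (∀ t g, y⁻¹ * g ∉ H → c t g = 0) →
      bd1 τ c = 0 → ∃ c' : T → G → ℤ, (∀ t g, (y * u)⁻¹ * g ∉ H → c' t g = 0) ∧
        bd1 τ c' = 0 ∧ ∃ d : P.R → G → ℤ,
          (∀ r g, d r g ≠ 0 → ∃ φ ∈ Φ, y⁻¹ * g * φ⁻¹ ∈ H) ∧
          chn P τ (c - c') = bd2 P d := by
  obtain ⟨Φ, hΦ⟩ := push_one P H hH hinf hτ u hc
  refine ⟨Φ, fun y c hc0 hc1 => ?_⟩
  obtain ⟨c', h1, h2, d, h3, h4⟩ := hΦ (fun t g => c t (y * g))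
    (fun t g hg => hc0 t (y * g) (by rwa [inv_mul_cancel_left]))
    (by rw [bd1_left, hc1]; rfl)
  refine ⟨fun t g => c' t (y⁻¹ * g), fun t g hg => h1 t _ ?_, ?_,
    fun r g => d r (y⁻¹ * g), fun r g hg => h3 r _ hg, ?_⟩
  · rw [mul_inv_rev, mul_assoc] at hg
    exact hg
  · rw [bd1_left, h2]
    rfl
  · rw [bd2_left, ← h4, ← chn_left']
    congr 1
    funext t g
    show c t g - c' t (y⁻¹ * g) = c t (y * (y⁻¹ * g)) - c' t (y⁻¹ * g)
    rw [mul_inv_cancel_left]

end Pool.Agent.Helper52.HS
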