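import Pool.Agent.Helper52.HS.Kill
import Pool.Agent.Helper52.HS.PushU
import Pool.Agent.Helper52.HS.Assemble
import Pool.Agent.Helper52.HS.Cosets

/-!
# HS-KC: finitely generated groups with a commensurated subgroup are killed

* `kill_H`: let `T` be a finite type and `τ : T → G` with closure of the range `H` (`hH`). For `x ∈ Sp P ⊤ H univ` with `bdQ x = 0`:
  `normal_form`: `x = ∑ t, tt (τ t) (c t) = mk (chn P τ c)` (`mk_chn`), `bd1 τ c = bdQ x = 0` (`bdQ_chain`), so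
  `chn P τ c = bd2 P d` by `chn_bounds` (with `coset_flow` and `push_uniform`) and `x = 0`.
* `kill_comm`: `Sp P ⊤ L univ ≤ Sp P ⊤ H univ` by `mem_Sp_of_gen` (`A = L`): for `g ∈ L` take `K` from `exists_core` (`u = g`)
  and `T` from `h_zero` for `K`, `Y = univ`: `F = ∑ t ∈ T, (act t (Q t) - Q t)`, `t ∈ K ≤ H`, `g⁻¹ t g ∈ H`: `tt_mem_of_zero`.
-/

set_option linter.unusedSectionVars false

namespace Pool.Agent.Helper52.HS

variable {G : Type} [Group G]

theorem kill_H [Countable G] (P : FinPres G) (L H : Subgroup G) (hL : L.FG) (hHL : H ≤ L)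
    (hH : H.FG) (hinf : Infinite H) (hidx : H.relIndex L = 0)
    (hc : ∀ x ∈ L, (H ⊓ H.map (MulAut.conj x).toMonoidHom).relIndex H ≠ 0) : Kill P H := by
  classical
  obtain ⟨S, hS⟩ := id hH
  have hτ : Subgroup.closure (Set.range (fun t : {g // g ∈ S} => (t : G))) = H := by
    rw [← hS]
    congr 1
    ext g
    simp
  intro x hx hb
  obtain ⟨c, -, -, hxc⟩ := normal_form P inv_top hτ
    (Y := (Set.univ : Set G)) (fun _ _ _ _ => Set.mem_univ _) hx
  have hbc : bd1 (fun t : {g // g ∈ S} => (t : G)) c = 0 := by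
    rw [← bdQ_chain P (⊤ : AddSubgroup (G → ℤ)), ← hxc, hb]
  obtain ⟨Λ, y, ℓ, hΛ, hy, hℓ, hwf, hfin⟩ := coset_flow L H hL hHL hH hinf hidx hc
  obtain ⟨d, hd⟩ := chn_bounds P H hτ Λ y ℓ hy hℓ hwf hfin
    (fun u hu => push_uniform P H hH hinf hτ u (hc u (hΛ u hu))) c hbc
  rw [hxc, ← mk_chn, hd]
  exact mk_eq_zero.2 (mem_Bd.2 ⟨d, fun _ => AddSubgroup.mem_top _, rfl⟩)

theorem kill_comm [Countable G] (P : FinPres G) (L H : Subgroup G) (hL : L.FG) (hHL : H ≤ L)
    (hH : H.FG) (hinf : Infinite H) (hidx : H.relIndex L = 0)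
    (hc : ∀ x ∈ L, (H ⊓ H.map (MulAut.conj x).toMonoidHom).relIndex H ≠ 0) : Kill P L := by
  intro x hx hb
  refine kill_H P L H hL hHL hH hinf hidx hc x ?_ hb
  have hcl : L = Subgroup.closure (L : Set G) := (Subgroup.closure_eq L).symm
  rw [hcl] at hx
  refine mem_Sp_of_gen P (Sp P (⊤ : AddSubgroup (G → ℤ)) H Set.univ) _ ?_ hx
  intro g hg F
  obtain ⟨K, hKH, -, hKu, hKfg, hKinf, -⟩ := exists_core H hH hinf g (hc g hg)
  obtain ⟨T, hT, hz⟩ := h_zero K hKfg hKinf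
  obtain ⟨Q, -, hQ⟩ := hz ℤ Set.univ (fun _ _ _ _ => Set.mem_univ _) F
    (fun g' hg' => absurd (Set.mem_univ g') hg')
  exact tt_mem_of_zero P H g T (fun t ht => hKH (hT t ht)) (fun t ht => hKu t (hT t ht)) F Q hQ

end Pool.Agent.Helper52.HS
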