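import Pool.Agent.Helper52.HS.KillA

/-!
# HS-KU: unions of killed subgroups; fillings

* `kill_union`: by closure induction every `x ∈ Sp (sSup Y)` is in `Sp N` for some `N ∈ Y`
  (`Subgroup.mem_sSup_of_directedOn`, `Sp_mono`).
* `fill_of_kill`: for a cycle `c`, `mk c = ∑ s, tt (gen s) (c s) ∈ Sp ⊤` (`chain_eq_sum`, `mk_edge`), and `bdQ (mk c) = bd1 c = 0`, so
  `mk c = 0` and `c ∈ Bd P ⊤`.
-/

set_option linter.unusedSectionVars false

namespace Pool.Agent.Helper52.HS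

variable {G : Type} [Group G]

theorem kill_union (P : FinPres G) (Y : Set (Subgroup G)) (hY : Y.Nonempty)
    (hd : DirectedOn (· ≤ ·) Y) (hg : ∀ N ∈ Y, Kill P N) : Kill P (sSup Y) := by
  intro x hx h0
  have key : ∃ N ∈ Y, x ∈ Sp P (⊤ : AddSubgroup (G → ℤ)) N Set.univ := by
    clear h0
    unfold Sp at hx
    induction hx using AddSubgroup.closure_induction with
    | mem x hx =>
      obtain ⟨v, hv, F, hF, hFY, rfl⟩ := hx
      obtain ⟨N, hN, hvN⟩ := (Subgroup.mem_sSup_of_directedOn hY hd).1 hv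
      exact ⟨N, hN, tt_mem_Sp hvN hF hFY⟩
    | zero =>
      obtain ⟨N, hN⟩ := hY
      exact ⟨N, hN, AddSubgroup.zero_mem _⟩
    | add x y _ _ ihx ihy =>
      obtain ⟨N, hN, hx⟩ := ihx
      obtain ⟨N', hN', hy⟩ := ihy
      obtain ⟨K, hK, h1, h2⟩ := hd N hN N' hN'
      exact ⟨K, hK, AddSubgroup.add_mem _ (Sp_mono h1 subset_rfl hx)
        (Sp_mono h2 subset_rfl hy)⟩
    | neg x _ ih =>
      obtain ⟨N, hN, hx⟩ := ih
      exact ⟨N, hN, AddSubgroup.neg_mem _ hx⟩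
  obtain ⟨N, hN, hxN⟩ := key
  exact hg N hN x hxN h0

theorem fill_of_kill (P : FinPres G) (h : Kill P ⊤) : Fill P := by
  intro c hc
  have h1 : mk P (⊤ : AddSubgroup (G → ℤ)) c = ∑ s, tt P ⊤ (P.gen s) (c s) := by
    conv_lhs => rw [chain_eq_sum P.gen c]
    rw [map_sum]
    exact Finset.sum_congr rfl fun s _ => mk_edge inv_top s (AddSubgroup.mem_top _)
  have h2 : mk P (⊤ : AddSubgroup (G → ℤ)) c ∈ Sp P (⊤ : AddSubgroup (G → ℤ)) ⊤ Set.univ := by
    rw [h1]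
    refine AddSubgroup.sum_mem _ fun s _ => ?_
    exact tt_mem_Sp (Subgroup.mem_top _) (AddSubgroup.mem_top _)
      fun g hg => absurd (Set.mem_univ g) hg
  have h3 : mk P (⊤ : AddSubgroup (G → ℤ)) c = 0 := h _ h2 (by rw [bdQ_mk, hc])
  obtain ⟨d, -, hd⟩ := mk_eq_zero.1 h3
  exact ⟨d, hd⟩

end Pool.Agent.Helper52.HS
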