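import Pool.Agent.Helper52.HS.SeedB

/-!
# HS-SA: a subgroup `L` in whose universal cover all locally finite cycles bound is killed

Let `gL s = (PL.gen s : G)`, `gL : PL.S → G`; its range generates `L` (`PL.surj`, `val_sub`).
`fill_cosets`: for `y : G` let
`c^y s h = c s (y * h)` (`h : L`). By `bd1_sub'` `c^y` is a cycle, and `hf : Fill PL` gives `d^y` with `bd2 PL d^y = c^y`. Choose a representative `ρ g` of the left
coset `g L` (`Quotient.out`), so `g = ρ g * h`, `h : L`, and put `d r g = d^(ρ g) r h` (`h = (ρ g)⁻¹ * g`). Use `path_sub'` at `y = ρ g`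
(all `ρ g * h'`, `h' ∈ L`, have the same representative `ρ g`).
`kill_of_fill`: let `x ∈ Sp P ⊤ L univ`, `bdQ x = 0`. By `normal_form` `x = ∑ s, tt (gL s) (c s)` with `c : PL.S → G → ℤ`, and
`bd1 gL c = 0` (`bdQ_chain`). With `d` from `fill_cosets`
`x = ∑ s, tt (gL s) (∑ r, path gL (PL.rel r) (d r) s) = ∑ r, ∑ s, tt (gL s) (path gL (PL.rel r) (d r) s)
= ∑ r, tt (val gL (PL.rel r)) (d r)` (`tt_val`) and `val gL (PL.rel r) = 1` (`PL.rel_one`, `val_sub`), so `x = 0` (`tt_one`).
-/

set_option linter.unusedSectionVars false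

namespace Pool.Agent.Helper52.HS

variable {G : Type} [Group G] {V : Type} [AddCommGroup V] {S : Type} [DecidableEq S]

theorem fill_cosets (L : Subgroup G) (PL : FinPres L) (hf : Fill PL) (c : PL.S → G → ℤ)
    (hc : bd1 (fun s => (PL.gen s : G)) c = 0) :
    ∃ d : PL.R → G → ℤ, ∑ r, path (fun s => (PL.gen s : G)) (PL.rel r) (d r) = c := by
  classical
  have h1 : ∀ y : G, ∃ d : PL.R → L → ℤ, bd2 PL d = fun s (h : L) => c s (y * h) := by
    intro y
    refine hf _ ?_
    funext h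
    rw [← bd1_sub' L PL.gen c y h, hc]
    rfl
  choose D hD using h1
  let ρ : G → G := fun g => (QuotientGroup.mk g : G ⧸ L).out
  have hρ : ∀ g, (ρ g)⁻¹ * g ∈ L := fun g => QuotientGroup.eq.1 (QuotientGroup.out_eq' _)
  let hh : G → L := fun g => ⟨(ρ g)⁻¹ * g, hρ g⟩
  refine ⟨fun r g => D (ρ g) r (hh g), ?_⟩
  funext s g
  have hg : ρ g * (hh g : G) = g := mul_inv_cancel_left _ _
  have hρ2 : ∀ h : L, ρ (ρ g * h) = ρ g := by
    intro h
    have h2 : (QuotientGroup.mk (ρ g * h) : G ⧸ L) = QuotientGroup.mk g := by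
      refine QuotientGroup.eq.2 ?_
      have h3 : (ρ g * (h : G))⁻¹ * g = (h : G)⁻¹ * ((ρ g)⁻¹ * g) := by group
      rw [h3]
      exact L.mul_mem (L.inv_mem h.2) (hρ g)
    exact congrArg Quotient.out h2
  have hh2 : ∀ h : L, hh (ρ g * h) = h := by
    intro h
    apply Subtype.ext
    change (ρ (ρ g * h))⁻¹ * (ρ g * h) = h
    rw [hρ2, inv_mul_cancel_left]
  have h4 : ∀ r, path (fun s => (PL.gen s : G)) (PL.rel r) (fun g => D (ρ g) r (hh g)) s g =
      path PL.gen (PL.rel r) (D (ρ g) r) s (hh g) := by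
    intro r
    have h5 := path_sub' L PL.gen (PL.rel r) (fun g => D (ρ g) r (hh g)) (ρ g) s (hh g)
    rw [hg] at h5
    rw [h5]
    congr 2
    funext h
    rw [hρ2, hh2]
  have h6 := congrFun (congrFun (hD (ρ g)) s) (hh g)
  simp only [hg] at h6
  rw [← h6]
  simp only [bd2, Finset.sum_apply]
  exact Finset.sum_congr rfl fun r _ => h4 r

theorem kill_of_fill (P : FinPres G) (L : Subgroup G) (PL : FinPres L) (hf : Fill PL) :
    Kill P L := by
  intro x hx hb
  have hmem : ∀ l : List (PL.S × Bool), val (fun s => (PL.gen s : G)) l ∈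
      Subgroup.closure (Set.range fun s => (PL.gen s : G)) := by
    intro l
    induction l with
    | nil => exact Subgroup.one_mem _
    | cons p l ih =>
      obtain ⟨s, b⟩ := p
      cases b
      · exact Subgroup.mul_mem _ (Subgroup.inv_mem _ (Subgroup.subset_closure ⟨s, rfl⟩)) ih
      · exact Subgroup.mul_mem _ (Subgroup.subset_closure ⟨s, rfl⟩) ih
  have hτ : Subgroup.closure (Set.range fun s => (PL.gen s : G)) = L := by
    refine le_antisymm ((Subgroup.closure_le _).2 ?_) ?_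
    · rintro _ ⟨s, rfl⟩
      exact (PL.gen s).2
    · intro g hg
      obtain ⟨l, hl⟩ := PL.surj ⟨g, hg⟩
      have h1 := hmem l
      rw [val_sub L PL.gen l, hl] at h1
      exact h1
  obtain ⟨c, -, -, rfl⟩ := normal_form P inv_top hτ (Y := Set.univ)
    (fun _ _ _ _ => Set.mem_univ _) hx
  rw [bdQ_chain] at hb
  obtain ⟨d, hd⟩ := fill_cosets L PL hf c hb
  have h2 : ∀ t, tt P (⊤ : AddSubgroup (G → ℤ)) (PL.gen t : G) (c t) =
      ∑ r, tt P ⊤ (PL.gen t : G) (path (fun s => (PL.gen s : G)) (PL.rel r) (d r) t) := by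
    intro t
    rw [← tt_sum]
    congr 1
    rw [← hd, Finset.sum_apply]
  rw [Finset.sum_congr rfl fun t _ => h2 t, Finset.sum_comm]
  refine Finset.sum_eq_zero fun r _ => ?_
  rw [← tt_val P inv_top (fun s => (PL.gen s : G)) (PL.rel r) (AddSubgroup.mem_top _),
    val_sub L PL.gen, PL.rel_one]
  exact tt_one inv_top (AddSubgroup.mem_top _)

end Pool.Agent.Helper52.HS
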