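import Pool.Agent.Helper52.HS.EndsE
import Pool.Agent.Helper52.HS.EndsH
import Pool.Agent.Helper52.HS.BridgeT
import Pool.Agent.Helper52.HS.KillU
import Pool.Agent.Helper52.HS.Fsp
import Pool.Agent.Helper52.HS.SeedA
import Pool.Agent.Helper52.HS.KillComm

/-!
# Project HS: assembly
-/

set_option linter.unusedSectionVars false

namespace Pool.Agent.Helper52.HS

open Pool.Agent.Helper39.AH

theorem fill_of_semistable {X R : Type} [Finite X] [Finite R] (rel : R → List (X × Bool))
    (h1 : OneEnded rel) (h2 : H1Semistable rel) : Fill (presOf rel) := by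
  classical
  exact fill_of_ss (presOf rel) h1 ((ss_iff rel).2 h2)

theorem semistable_of_fill {X R : Type} [Finite X] [Finite R] (rel : R → List (X × Bool))
    (h : Fill (presOf rel)) : H1Semistable rel :=
  (ss_iff rel).1 (ss_of_fill (presOf rel) h)

theorem good_kill {G : Type} [Group G] [Countable G] (P : FinPres G) {N : Subgroup G}
    (h : Good N) : Kill P N := by
  induction h with
  | @semi X R _ _ rel L e h1 h2 =>
    exact kill_of_fill P L ((presOf rel).trans e)
      (fill_trans (presOf rel) e (fill_of_semistable rel h1 h2))
  | comm L H hL hHL hH hinf hidx hc => exact kill_comm P L H hL hHL hH hinf hidx hc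
  | conj N K s hN hK hinf h1 h2 ih => exact kill_conj P N K s ih hK hinf h1 h2
  | join N N' K hN hN' hK hinf h1 h2 ih ih' => exact kill_join P N N' K ih ih' hK hinf h1 h2
  | union Y hY hd hg ih => exact kill_union P Y hY hd ih

theorem main {X R : Type} [Finite X] [Finite R] (rel : R → List (X × Bool))
    (h : Good (⊤ : Subgroup (Gp rel))) : H1Semistable rel := by
  have : Countable (Gp rel) := countable_of_pres (presOf rel)
  exact semistable_of_fill rel (fill_of_kill _ (good_kill (presOf rel) h))

end Pool.Agent.Helper52.HS
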