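import Pool.Agent.Helper52.HS.NFA

/-!
# HS-NF: normal form of the classes in `Sp P M N Y`

`τ : T → G`, `T` finite, is a generating family of the subgroup `N`; `Y` is right `N`-invariant.
* `tt_val`: induction on the word `l`, for all `F ∈ M`: `tt_one`, `tt_mul`, `tt_inv`, and
  `∑ t, tt (τ t) (Pi.single s F t) = tt (τ s) F`.
* `normal_form`: closure induction; a generator is `tt v F` with `v ∈ N`, `v = val τ l` (`exists_word`), take
  `c t = path τ l F t` (`path_mem`, `path_off`); sums and negatives of the `c`.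
* `bdQ_chain`: `bdQ_tt`.
-/

set_option linter.unusedSectionVars false

namespace Pool.Agent.Helper52.HS

variable {G : Type} [Group G] {V : Type} [AddCommGroup V] {T : Type} [Fintype T] [DecidableEq T]

theorem tt_val (P : FinPres G) {M : AddSubgroup (G → V)} (hM : Inv M) (τ : T → G)
    (l : List (T × Bool)) {F : G → V} (hF : F ∈ M) :
    tt P M (val τ l) F = ∑ t, tt P M (τ t) (path τ l F t) := by
  have hsingle : ∀ (s : T) (X : G → V),
      ∑ t, tt P M (τ t) ((Pi.single s X : T → G → V) t) = tt P M (τ s) X := by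
    intro s X
    rw [Finset.sum_eq_single s]
    · rw [Pi.single_eq_same]
    · intro t _ hts
      rw [Pi.single_eq_of_ne hts, tt_zero]
    · intro h
      exact absurd (Finset.mem_univ s) h
  induction l generalizing F with
  | nil =>
    rw [val_nil, tt_one hM hF, path_nil]
    refine (Finset.sum_eq_zero fun t _ => ?_).symm
    exact tt_zero _
  | cons p l ih =>
    obtain ⟨s, b⟩ := p
    cases b
    · rw [val_cons_false, tt_mul hM _ _ hF, tt_inv hM _ hF, ih (hM _ F hF), path_cons_false]
      simp only [Pi.add_apply, Pi.neg_apply, tt_add, tt_neg, Finset.sum_add_distrib,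
        Finset.sum_neg_distrib]
      rw [hsingle]
    · rw [val_cons_true, tt_mul hM _ _ hF, ih (hM _ F hF), path_cons_true]
      simp only [Pi.add_apply, tt_add, Finset.sum_add_distrib]
      rw [hsingle]

theorem normal_form (P : FinPres G) {M : AddSubgroup (G → V)} (hM : Inv M) {τ : T → G}
    {N : Subgroup G} (hτ : Subgroup.closure (Set.range τ) = N) {Y : Set G}
    (hY : ∀ y ∈ Y, ∀ k ∈ N, y * k ∈ Y) {x : Qt P M} (hx : x ∈ Sp P M N Y) :
    ∃ c : T → G → V, (∀ t, c t ∈ M) ∧ (∀ t g, g ∉ Y → c t g = 0) ∧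
      x = ∑ t, tt P M (τ t) (c t) := by
  have hτN : ∀ t, τ t ∈ N := fun t => by
    rw [← hτ]
    exact Subgroup.subset_closure ⟨t, rfl⟩
  unfold Sp at hx
  induction hx using AddSubgroup.closure_induction with
  | mem x hx =>
    obtain ⟨v, hv, F, hF, hoff, rfl⟩ := hx
    obtain ⟨l, rfl⟩ := exists_word hτ hv
    exact ⟨path τ l F, fun t => path_mem hM τ l hF t,
      fun t g hg => path_off hτN hY l hoff t hg, tt_val P hM τ l hF⟩
  | zero =>
    refine ⟨0, fun t => M.zero_mem, fun t g _ => rfl, ?_⟩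
    refine (Finset.sum_eq_zero fun t _ => ?_).symm
    exact tt_zero _
  | add x y _ _ hx hy =>
    obtain ⟨c, h1, h2, rfl⟩ := hx
    obtain ⟨d, h3, h4, rfl⟩ := hy
    refine ⟨c + d, fun t => M.add_mem (h1 t) (h3 t), fun t g hg => ?_, ?_⟩
    · rw [Pi.add_apply, Pi.add_apply, h2 t g hg, h4 t g hg, add_zero]
    · rw [← Finset.sum_add_distrib]
      refine Finset.sum_congr rfl fun t _ => ?_
      rw [Pi.add_apply, tt_add]
  | neg x _ hx =>
    obtain ⟨c, h1, h2, rfl⟩ := hx
    refine ⟨-c, fun t => M.neg_mem (h1 t), fun t g hg => ?_, ?_⟩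
    · rw [Pi.neg_apply, Pi.neg_apply, h2 t g hg, neg_zero]
    · rw [← Finset.sum_neg_distrib]
      refine Finset.sum_congr rfl fun t _ => ?_
      rw [Pi.neg_apply, tt_neg]

theorem bdQ_chain (P : FinPres G) (M : AddSubgroup (G → V)) (τ : T → G) (c : T → G → V) :
    bdQ P M (∑ t, tt P M (τ t) (c t)) = bd1 τ c := by
  rw [map_sum]
  unfold bd1
  exact Finset.sum_congr rfl fun t _ => bdQ_tt (τ t) (c t)

end Pool.Agent.Helper52.HS
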