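import Pool.Agent.Helper52.HS.KillA

/-!
# HS-NA: words in a generating family of a subgroup

`τ : T → G`, `T` finite, is a generating family of the subgroup `N`; `Y` is right `N`-invariant.
* `exists_word`: the set of all `val τ l` is a subgroup (`val_append`, `val_invRev`), it contains the `τ t`.
* `path_mem`, `path_off`: induction on the word (the values of `Pi.single`).
-/

set_option linter.unusedSectionVars false

namespace Pool.Agent.Helper52.HS

variable {G : Type} [Group G] {V : Type} [AddCommGroup V] {T : Type} [Fintype T] [DecidableEq T]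

theorem exists_word {τ : T → G} {N : Subgroup G} (hτ : Subgroup.closure (Set.range τ) = N)
    {v : G} (hv : v ∈ N) : ∃ l : List (T × Bool), val τ l = v := by
  let K : Subgroup G :=
    { carrier := {v | ∃ l : List (T × Bool), val τ l = v}
      one_mem' := ⟨[], rfl⟩
      mul_mem' := by
        rintro _ _ ⟨l, rfl⟩ ⟨l', rfl⟩
        exact ⟨l ++ l', val_append τ l l'⟩
      inv_mem' := by
        rintro _ ⟨l, rfl⟩
        exact ⟨FreeGroup.invRev l, val_invRev τ l⟩ }
  have hK : Subgroup.closure (Set.range τ) ≤ K := by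
    rw [Subgroup.closure_le]
    rintro _ ⟨t, rfl⟩
    refine ⟨[(t, true)], ?_⟩
    rw [val_cons_true, val_nil, mul_one]
  rw [← hτ] at hv
  exact hK hv

private theorem single_mem {M : AddSubgroup (G → V)} (s t : T) {X : G → V} (hX : X ∈ M) :
    (Pi.single s X : T → G → V) t ∈ M := by
  rcases eq_or_ne t s with rfl | h
  · rw [Pi.single_eq_same]
    exact hX
  · rw [Pi.single_eq_of_ne h]
    exact M.zero_mem

private theorem single_off {Y : Set G} (s t : T) {X : G → V} (hX : ∀ g, g ∉ Y → X g = 0)
    {g : G} (hg : g ∉ Y) : (Pi.single s X : T → G → V) t g = 0 := by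
  rcases eq_or_ne t s with rfl | h
  · rw [Pi.single_eq_same]
    exact hX g hg
  · rw [Pi.single_eq_of_ne h]
    rfl

theorem path_mem {M : AddSubgroup (G → V)} (hM : Inv M) (τ : T → G) (l : List (T × Bool))
    {F : G → V} (hF : F ∈ M) (t : T) : path τ l F t ∈ M := by
  induction l generalizing F with
  | nil => exact M.zero_mem
  | cons p l ih =>
    obtain ⟨s, b⟩ := p
    cases b
    · rw [path_cons_false]
      exact M.add_mem (M.neg_mem (single_mem s t (hM _ F hF))) (ih (hM _ F hF))
    · rw [path_cons_true]
      exact M.add_mem (single_mem s t hF) (ih (hM _ F hF))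

theorem path_off {τ : T → G} {N : Subgroup G} (hτ : ∀ t, τ t ∈ N) {Y : Set G}
    (hY : ∀ y ∈ Y, ∀ k ∈ N, y * k ∈ Y) (l : List (T × Bool)) {F : G → V}
    (hF : ∀ g, g ∉ Y → F g = 0) (t : T) {g : G} (hg : g ∉ Y) : path τ l F t g = 0 := by
  have hact : ∀ k ∈ N, ∀ F : G → V, (∀ g, g ∉ Y → F g = 0) → ∀ g, g ∉ Y → act k F g = 0 := by
    intro k hk F hF g hg
    refine hF _ fun h => hg ?_
    have h1 := hY _ h k hk
    rwa [inv_mul_cancel_right] at h1
  induction l generalizing F with
  | nil => rfl
  | cons p l ih =>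
    obtain ⟨s, b⟩ := p
    cases b
    · have h1 := hact _ (N.inv_mem (hτ s)) F hF
      rw [path_cons_false]
      simp only [Pi.add_apply, Pi.neg_apply]
      rw [single_off s t h1 hg, ih h1, neg_zero, add_zero]
    · have h1 := hact _ (hτ s) F hF
      rw [path_cons_true]
      simp only [Pi.add_apply]
      rw [single_off s t hF hg, ih h1, add_zero]

end Pool.Agent.Helper52.HS
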