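import Pool.Agent.Helper52.HS.PushA
import Pool.Agent.Helper52.HS.CoreA

/-!
# Project HS: an `H`-cycle on `H` is homologous to an `H`-cycle on `u H`
-/

set_option linter.unusedSectionVars false

namespace Pool.Agent.Helper52.HS

variable {G : Type} [Group G] {V : Type} [AddCommGroup V]

theorem push [Countable G] (P : FinPres G) {M : AddSubgroup (G → V)} (hM : Inv M)
    (H : Subgroup G) (hH : H.FG) (hinf : Infinite H)
    (hHM : ∀ F : G → V, (∀ g, g ∉ H → F g = 0) → F ∈ M) (u : G)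
    (hc : (H ⊓ H.map (MulAut.conj u).toMonoidHom).relIndex H ≠ 0)
    (x : Qt P M) (hx : x ∈ Sp P M H (H : Set G)) (hbd : bdQ P M x = 0) :
    x ∈ Sp P M H {g | u⁻¹ * g ∈ H} := by
  obtain ⟨K, hKH, hn, hu, hK, hKi, n, θ, h1, h2⟩ := exists_core H hH hinf u hc
  have hx1 := Sp_le_core P hM H K hHM hKH hn hK hKi hx
  obtain ⟨xs, hxs, hb, hsum⟩ := split_core P hM H K hHM hKH θ h1 h2 x hx1 hbd
  rw [hsum]
  refine AddSubgroup.sum_mem _ fun i _ => ?_
  obtain ⟨x', hx', he⟩ := shift_core P hM H K hn u hu (θ i) (h1 i) (xs i) (hxs i)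
  rw [hb i, tt_zero, sub_zero] at he
  rw [he]
  exact hx'

end Pool.Agent.Helper52.HS
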