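import Pool.Agent.Helper52.HS.KillA
import Pool.Agent.Helper52.HS.HZero

/-!
# HS-PA: the three steps of `push`

`M` is invariant and contains all functions which vanish off `H`; `K ≤ H` is normal in `H`, infinite and finitely generated.
(a) `Sp_le_core`: take `T` from `h_zero` for `K`. For `v ∈ H` and `F` vanishing off `H` write `F = ∑ t ∈ T, (act t (Q t) - Q t)`, `Q t` vanishing off
`H` (`Y = H`; so in `M`), `t ∈ K`; then `tt v F = ∑ t ∈ T, (tt (v⁻¹ t v) (act v (Q t)) - tt t (Q t))` (`tt_sum`, `tt_conj`), `v⁻¹ t v ∈ K`,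
and `act v (Q t)` vanishes off `H v = H`.
(b) `split_core`: `θ i`, `i : Fin n`, are representatives of the cosets of `K` in `H`, `Y i = θ i K`. A function
`F` which vanishes off `H` is `∑ i, F_i`, `F_i` vanishing off `Y i`, so (closure induction) every `x ∈ Sp P M K H` is `∑ i, x i`, `x i ∈ Sp P M K (Y i)`. `bdQ (x i)`
vanishes off `Y i` (closure induction, `bdQ_tt`; `Y i` is right `K`-invariant) and the `Y i` are disjoint, so `bdQ x = 0` gives
`bdQ (x i) = 0` for all `i`.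
(c) `shift_core`: let `w = θ⁻¹ * u`. Closure
induction; for `x = tt k F`: `tt_conj` with `u := w`: `tt w (act k F - F) = tt (w⁻¹ k w) (act w F) - tt k F`, and
`w⁻¹ k w = u⁻¹ (θ k θ⁻¹) u ∈ H`, and `act w F` vanishes off `θ K w = θ K θ⁻¹ u = K u ⊆ u H`
(`u⁻¹ K u ⊆ H`).
-/

set_option linter.unusedSectionVars false

namespace Pool.Agent.Helper52.HS

variable {G : Type} [Group G] {V : Type} [AddCommGroup V]

theorem Sp_le_core [Countable G] (P : FinPres G) {M : AddSubgroup (G → V)} (hM : Inv M)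
    (H K : Subgroup G) (hHM : ∀ F : G → V, (∀ g, g ∉ H → F g = 0) → F ∈ M) (hKH : K ≤ H)
    (hn : ∀ h ∈ H, ∀ k ∈ K, h * k * h⁻¹ ∈ K) (hK : K.FG) (hinf : Infinite K) :
    Sp P M H (H : Set G) ≤ Sp P M K (H : Set G) := by
  obtain ⟨T, hT, hT2⟩ := h_zero K hK hinf
  refine (AddSubgroup.closure_le _).2 ?_
  rintro x ⟨v, hv, F, hF, hFY, rfl⟩
  obtain ⟨Q, hQ, hFQ⟩ := hT2 V (H : Set G) (fun y hy k hk => H.mul_mem hy (hKH hk)) F hFY
  have hQM : ∀ t ∈ T, Q t ∈ M := fun t ht => hHM _ (fun g hg => hQ t ht g hg)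
  show tt P M v F ∈ Sp P M K (H : Set G)
  rw [hFQ, tt_sum]
  refine AddSubgroup.sum_mem _ fun t ht => ?_
  rw [tt_conj hM v t (hQM t ht)]
  refine AddSubgroup.sub_mem _ ?_ ?_
  · refine tt_mem_Sp ?_ (hM v _ (hQM t ht)) ?_
    · have := hn v⁻¹ (H.inv_mem hv) t (hT t ht)
      rwa [inv_inv] at this
    · intro g hg
      rw [act_apply]
      refine hQ t ht _ fun hg' => hg ?_
      have h1 := H.mul_mem hg' hv
      rwa [inv_mul_cancel_right] at h1
  · exact tt_mem_Sp (hT t ht) (hQM t ht) (hQ t ht)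

private theorem bdQ_vanish (P : FinPres G) {M : AddSubgroup (G → V)} (K : Subgroup G) (Y : Set G)
    (hY : ∀ y ∈ Y, ∀ k ∈ K, y * k ∈ Y) (x : Qt P M) (hx : x ∈ Sp P M K Y) :
    ∀ g, g ∉ Y → bdQ P M x g = 0 := by
  refine AddSubgroup.closure_induction (p := fun x _ => ∀ g, g ∉ Y → bdQ P M x g = 0)
    ?_ ?_ ?_ ?_ hx
  · rintro x ⟨v, hv, F, -, hFY, rfl⟩ g hg
    rw [bdQ_tt, Pi.sub_apply, act_apply, hFY g hg, hFY, sub_zero]
    intro hg'
    have h1 := hY _ hg' v hv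
    rw [inv_mul_cancel_right] at h1
    exact hg h1
  · intro g _
    rw [map_zero]
    rfl
  · intro x y _ _ h1 h2 g hg
    rw [map_add, Pi.add_apply, h1 g hg, h2 g hg, add_zero]
  · intro x _ h1 g hg
    rw [map_neg, Pi.neg_apply, h1 g hg, neg_zero]

theorem split_core (P : FinPres G) {M : AddSubgroup (G → V)} (hM : Inv M)
    (H K : Subgroup G) (hHM : ∀ F : G → V, (∀ g, g ∉ H → F g = 0) → F ∈ M) (hKH : K ≤ H)
    {n : ℕ} (θ : Fin n → G) (h1 : ∀ i, θ i ∈ H) (h2 : ∀ h ∈ H, ∃! i, (θ i)⁻¹ * h ∈ K)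
    (x : Qt P M) (hx : x ∈ Sp P M K (H : Set G)) (hbd : bdQ P M x = 0) :
    ∃ xs : Fin n → Qt P M, (∀ i, xs i ∈ Sp P M K {g | (θ i)⁻¹ * g ∈ K}) ∧
      (∀ i, bdQ P M (xs i) = 0) ∧ x = ∑ i, xs i := by
  classical
  have hYH : ∀ i g, (θ i)⁻¹ * g ∈ K → g ∈ H := by
    intro i g hg
    have h3 := H.mul_mem (h1 i) (hKH hg)
    rwa [mul_inv_cancel_left] at h3
  have hsplit : ∃ xs : Fin n → Qt P M, (∀ i, xs i ∈ Sp P M K {g | (θ i)⁻¹ * g ∈ K}) ∧
      x = ∑ i, xs i := by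
    refine AddSubgroup.closure_induction (p := fun x _ => ∃ xs : Fin n → Qt P M,
      (∀ i, xs i ∈ Sp P M K {g | (θ i)⁻¹ * g ∈ K}) ∧ x = ∑ i, xs i) ?_ ?_ ?_ ?_ hx
    · rintro x ⟨v, hv, F, -, hFY, rfl⟩
      have hF : F = ∑ i, fun g => if (θ i)⁻¹ * g ∈ K then F g else 0 := by
        funext g
        rw [Finset.sum_apply]
        by_cases hg : g ∈ H
        · obtain ⟨i, hi, hi'⟩ := h2 g hg
          rw [Finset.sum_eq_single i]
          · rw [if_pos hi]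
          · intro j _ hj
            rw [if_neg]
            intro hjK
            exact hj (hi' j hjK)
          · intro h
            exact absurd (Finset.mem_univ i) h
        · rw [hFY g hg, Finset.sum_eq_zero]
          intro i _
          rw [if_neg]
          intro hjK
          exact hg (hYH i g hjK)
      refine ⟨fun i => tt P M v (fun g => if (θ i)⁻¹ * g ∈ K then F g else 0), fun i => ?_, ?_⟩
      · refine tt_mem_Sp hv (hHM _ fun g hg => ?_) fun g hg => ?_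
        · show (if (θ i)⁻¹ * g ∈ K then F g else 0) = 0
          rw [if_neg]
          intro hjK
          exact hg (hYH i g hjK)
        · show (if (θ i)⁻¹ * g ∈ K then F g else 0) = 0
          rw [if_neg]
          exact hg
      · rw [← tt_sum, ← hF]
    · exact ⟨fun _ => 0, fun i => AddSubgroup.zero_mem _, by simp⟩
    · rintro x y _ _ ⟨xs, hxs, rfl⟩ ⟨ys, hys, rfl⟩
      exact ⟨fun i => xs i + ys i, fun i => AddSubgroup.add_mem _ (hxs i) (hys i),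
        by rw [Finset.sum_add_distrib]⟩
    · rintro x _ ⟨xs, hxs, rfl⟩
      exact ⟨fun i => -xs i, fun i => AddSubgroup.neg_mem _ (hxs i),
        by rw [Finset.sum_neg_distrib]⟩
  obtain ⟨xs, hxs, hx'⟩ := hsplit
  refine ⟨xs, hxs, fun i => ?_, hx'⟩
  have hvan : ∀ i, ∀ g, (θ i)⁻¹ * g ∉ K → bdQ P M (xs i) g = 0 := by
    intro i g hg
    refine bdQ_vanish P K {g | (θ i)⁻¹ * g ∈ K} ?_ (xs i) (hxs i) g hg
    intro y hy k hk
    show (θ i)⁻¹ * (y * k) ∈ K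
    rw [← mul_assoc]
    exact K.mul_mem hy hk
  funext g
  rw [Pi.zero_apply]
  by_cases hg : (θ i)⁻¹ * g ∈ K
  · have h3 : bdQ P M x g = 0 := by
      rw [hbd]
      rfl
    rw [hx', map_sum, Finset.sum_apply, Finset.sum_eq_single i] at h3
    · exact h3
    · intro j _ hj
      refine hvan j g fun hjK => hj ?_
      obtain ⟨i', _, hi'⟩ := h2 g (hYH i g hg)
      exact (hi' j hjK).trans (hi' i hg).symm
    · intro h
      exact absurd (Finset.mem_univ i) h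
  · exact hvan i g hg

theorem shift_core (P : FinPres G) {M : AddSubgroup (G → V)} (hM : Inv M)
    (H K : Subgroup G) (hn : ∀ h ∈ H, ∀ k ∈ K, h * k * h⁻¹ ∈ K) (u : G)
    (hu : ∀ k ∈ K, u⁻¹ * k * u ∈ H) (θ : G) (hθ : θ ∈ H)
    (x : Qt P M) (hx : x ∈ Sp P M K {g | θ⁻¹ * g ∈ K}) :
    ∃ x' ∈ Sp P M H {g | u⁻¹ * g ∈ H}, x = x' - tt P M (θ⁻¹ * u) (bdQ P M x) := by
  refine AddSubgroup.closure_induction (p := fun x _ =>
    ∃ x' ∈ Sp P M H {g | u⁻¹ * g ∈ H}, x = x' - tt P M (θ⁻¹ * u) (bdQ P M x)) ?_ ?_ ?_ ?_ hx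
  · rintro x ⟨k, hk, F, hF, hFY, rfl⟩
    refine ⟨tt P M ((θ⁻¹ * u)⁻¹ * k * (θ⁻¹ * u)) (act (θ⁻¹ * u) F), ?_, ?_⟩
    · refine tt_mem_Sp ?_ (hM _ _ hF) fun g hg => ?_
      · have h1 := hu _ (hn θ hθ k hk)
        have e : (θ⁻¹ * u)⁻¹ * k * (θ⁻¹ * u) = u⁻¹ * (θ * k * θ⁻¹) * u := by group
        rw [e]
        exact h1
      · rw [act_apply]
        refine hFY _ fun hg' => hg ?_
        have h1 : θ⁻¹ * (g * (θ⁻¹ * u)⁻¹) ∈ K := hg'
        have h2 := hu _ (hn θ hθ _ h1)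
        have e : u⁻¹ * (θ * (θ⁻¹ * (g * (θ⁻¹ * u)⁻¹)) * θ⁻¹) * u = u⁻¹ * g := by group
        rw [e] at h2
        exact h2
    · rw [bdQ_tt, tt_conj hM (θ⁻¹ * u) k hF]
      abel
  · exact ⟨0, AddSubgroup.zero_mem _, by rw [map_zero, tt_zero, sub_zero]⟩
  · rintro x y _ _ ⟨x', hx', h1⟩ ⟨y', hy', h2⟩
    refine ⟨x' + y', AddSubgroup.add_mem _ hx' hy', ?_⟩
    rw [map_add, tt_add]
    conv_lhs => rw [h1, h2]
    abel
  · rintro x _ ⟨x', hx', h1⟩
    refine ⟨-x', AddSubgroup.neg_mem _ hx', ?_⟩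
    rw [map_neg, tt_neg]
    conv_lhs => rw [h1]
    abel

end Pool.Agent.Helper52.HS
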