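import Pool.Agent.Helper52.HS.NF
import Pool.Agent.Helper52.HS.Push

/-!
# Project HS: functions supported near a subgroup
-/

set_option linter.unusedSectionVars false

namespace Pool.Agent.Helper52.HS

variable {G : Type} [Group G] {V : Type} [AddCommGroup V] {T : Type} [Fintype T] [DecidableEq T]

/-- the chain of the paths `word (τ t)` with coefficients `c t` -/
noncomputable def chn (P : FinPres G) (τ : T → G) (c : T → G → V) : P.S → G → V :=
  ∑ t, path P.gen (word P (τ t)) (c t)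

theorem mk_chn (P : FinPres G) (M : AddSubgroup (G → V)) (τ : T → G) (c : T → G → V) :
    mk P M (chn P τ c) = ∑ t, tt P M (τ t) (c t) := by
  unfold chn
  rw [map_sum]
  rfl

/-- the functions supported near `H` -/
def NearM (H : Subgroup G) (V : Type) [AddCommGroup V] : AddSubgroup (G → V) where
  carrier := {F | ∃ Φ : Finset G, ∀ g, F g ≠ 0 → ∃ φ ∈ Φ, g * φ⁻¹ ∈ H}
  zero_mem' := ⟨∅, fun _ h => absurd rfl h⟩
  add_mem' := by
    classical
    rintro F F' ⟨Φ, h⟩ ⟨Φ', h'⟩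
    refine ⟨Φ ∪ Φ', fun g hg => ?_⟩
    rcases eq_or_ne (F g) 0 with h0 | h0
    · have h1 : F' g ≠ 0 := fun h2 => hg (by rw [Pi.add_apply, h0, h2, add_zero])
      obtain ⟨φ, hφ, hφ'⟩ := h' g h1
      exact ⟨φ, Finset.mem_union_right _ hφ, hφ'⟩
    · obtain ⟨φ, hφ, hφ'⟩ := h g h0
      exact ⟨φ, Finset.mem_union_left _ hφ, hφ'⟩
  neg_mem' := by
    rintro F ⟨Φ, h⟩
    exact ⟨Φ, fun g hg => h g fun h0 => hg (by rw [Pi.neg_apply, h0, neg_zero])⟩

theorem inv_NearM (H : Subgroup G) : Inv (NearM H V) := by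
  classical
  rintro v F ⟨Φ, h⟩
  refine ⟨Φ.image (· * v), fun g hg => ?_⟩
  obtain ⟨φ, hφ, hφ'⟩ := h (g * v⁻¹) hg
  refine ⟨φ * v, Finset.mem_image_of_mem _ hφ, ?_⟩
  rw [mul_inv_rev, ← mul_assoc]
  exact hφ'

end Pool.Agent.Helper52.HS
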