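import Pool.Agent.Helper52.HS.PushD

/-!
# HS-PE: uniform version of `push`, for `y = 1`

`mk (chn P τ c) = ∑ t, tt (τ t) (c t)` (`mk_chn`), so
`bd1 gen (chn P τ c) = bd1 τ c` (`bdQ_mk`, `bdQ_chain`).

Proof of `push_one`. Let `I` be the type of all `c : T → G → ℤ` which vanish off `H` and satisfy
`bd1 τ c = 0`, `V = I → ℤ`, `M = NearM H V`, and `U t g = fun i => i.1 t g`, the universal cycle. Its class
`x = ∑ t, tt (τ t) (U t)` is in `Sp P M H H`, and `bdQ x = bd1 τ U = 0` (componentwise, `bd1_map` with the evaluation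
`Pi.evalAddMonoidHom`). By `push` `x ∈ Sp P M H {g | u⁻¹ g ∈ H}`, so by `normal_form` (`Y = u H`) `x = ∑ t, tt (τ t) (U' t)`,
`U' t ∈ M` vanishing off `u H`, and `bd1 τ U' = bdQ x = 0`. So `chn P τ (U - U') ∈ Bd P M`, i.e. `= bd2 P D` with all
`D r ∈ M`; let `Φ` be the union of the finite sets of the `D r`, `r : P.R`. For a cycle `c` (an element `i` of `I`) take
`c' t g = U' t g i` and `d r g = D r g i` (`path_map`, `bd2_map`, `bd1_map` with the evaluation at `i`).
-/

set_option linter.unusedSectionVars false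

namespace Pool.Agent.Helper52.HS

variable {G : Type} [Group G] {T : Type} [Fintype T] [DecidableEq T]

private theorem chn_map' {V W : Type} [AddCommGroup V] [AddCommGroup W] (P : FinPres G)
    (τ : T → G) (f : V →+ W) (c : T → G → V) :
    chn P τ (fun t g => f (c t g)) = fun s g => f (chn P τ c s g) := by
  unfold chn
  funext s g
  simp only [Finset.sum_apply, map_sum]
  exact Finset.sum_congr rfl fun t _ =>
    congrFun (congrFun (path_map P.gen f (word P (τ t)) (c t)) s) g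

private theorem chn_sub' {V : Type} [AddCommGroup V] (P : FinPres G)
    (τ : T → G) (c c' : T → G → V) : chn P τ (c - c') = chn P τ c - chn P τ c' := by
  unfold chn
  rw [← Finset.sum_sub_distrib]
  exact Finset.sum_congr rfl fun t _ => by rw [Pi.sub_apply, path_sub]

theorem push_one [Countable G] (P : FinPres G) (H : Subgroup G) (hH : H.FG)
    (hinf : Infinite H) {τ : T → G} (hτ : Subgroup.closure (Set.range τ) = H) (u : G)
    (hc : (H ⊓ H.map (MulAut.conj u).toMonoidHom).relIndex H ≠ 0) :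
    ∃ Φ : Finset G, ∀ c : T → G → ℤ, (∀ t g, g ∉ H → c t g = 0) →
      bd1 τ c = 0 → ∃ c' : T → G → ℤ, (∀ t g, u⁻¹ * g ∉ H → c' t g = 0) ∧
        bd1 τ c' = 0 ∧ ∃ d : P.R → G → ℤ,
          (∀ r g, d r g ≠ 0 → ∃ φ ∈ Φ, g * φ⁻¹ ∈ H) ∧
          chn P τ (c - c') = bd2 P d := by
  classical
  let I : Type := {c : T → G → ℤ // (∀ t g, g ∉ H → c t g = 0) ∧ bd1 τ c = 0}
  let M : AddSubgroup (G → I → ℤ) := NearM H (I → ℤ)
  have hM : Inv M := inv_NearM H
  have hHM : ∀ F : G → I → ℤ, (∀ g, g ∉ H → F g = 0) → F ∈ M := by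
    intro F hF
    refine ⟨{1}, fun g hg => ⟨1, Finset.mem_singleton_self 1, ?_⟩⟩
    rw [inv_one, mul_one]
    by_contra h
    exact hg (hF g h)
  have hτm : ∀ t, τ t ∈ H := fun t => by
    rw [← hτ]
    exact Subgroup.subset_closure ⟨t, rfl⟩
  let U : T → G → I → ℤ := fun t g i => i.1 t g
  have hU : ∀ t g, g ∉ H → U t g = 0 := fun t g hg => funext fun i => i.2.1 t g hg
  have hev : ∀ (X : T → G → I → ℤ) (i : I) (g : G),
      bd1 τ (fun t g => X t g i) g = bd1 τ X g i := fun X i g =>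
    congrFun (bd1_map τ (Pi.evalAddMonoidHom (fun _ : I => ℤ) i) X) g
  have hbU : bd1 τ U = 0 := by
    funext g i
    rw [← hev U i g]
    exact congrFun i.2.2 g
  let x : Qt P M := ∑ t, tt P M (τ t) (U t)
  have hx : x ∈ Sp P M H (H : Set G) :=
    AddSubgroup.sum_mem _ fun t _ => tt_mem_Sp (hτm t) (hHM _ (hU t)) (hU t)
  have hbx : bdQ P M x = 0 := by
    rw [bdQ_chain, hbU]
  have hx' := push P hM H hH hinf hHM u hc x hx hbx
  have hY : ∀ y ∈ {g : G | u⁻¹ * g ∈ H}, ∀ k ∈ H, y * k ∈ {g : G | u⁻¹ * g ∈ H} := by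
    intro y hy k hk
    change u⁻¹ * (y * k) ∈ H
    rw [← mul_assoc]
    exact H.mul_mem hy hk
  obtain ⟨U', hU'M, hU'0, hxU'⟩ := normal_form P hM hτ hY hx'
  have hbU' : bd1 τ U' = 0 := by
    rw [← bdQ_chain P M, ← hxU', hbx]
  have hmk : mk P M (chn P τ (U - U')) = 0 := by
    rw [chn_sub', map_sub, mk_chn, mk_chn, ← hxU']
    exact sub_self _
  obtain ⟨D, hDM, hD⟩ := mem_Bd.1 (mk_eq_zero.1 hmk)
  choose Φr hΦr using hDM
  refine ⟨Finset.univ.biUnion Φr, fun c hc0 hc1 => ?_⟩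
  let i : I := ⟨c, hc0, hc1⟩
  refine ⟨fun t g => U' t g i, fun t g hg => ?_, ?_, fun r g => D r g i, fun r g hg => ?_, ?_⟩
  · have := hU'0 t g hg
    change U' t g i = 0
    rw [this]
    rfl
  · funext g
    rw [hev U' i g, hbU']
    rfl
  · have h0 : D r g ≠ 0 := fun h => hg (by
      change D r g i = 0
      rw [h]
      rfl)
    obtain ⟨φ, hφ, hφ'⟩ := hΦr r g h0
    exact ⟨φ, Finset.mem_biUnion.2 ⟨r, Finset.mem_univ _, hφ⟩, hφ'⟩
  · have h1 := chn_map' P τ (Pi.evalAddMonoidHom (fun _ : I => ℤ) i) (U - U')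
    have h2 := bd2_map P (Pi.evalAddMonoidHom (fun _ : I => ℤ) i) D
    rw [hD] at h2
    exact h1.trans h2.symm

end Pool.Agent.Helper52.HS
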