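import Pool.Agent.Helper52.HS.Alg

/-!
# Project HS: chains modulo boundaries

`M` is a group of functions `G → V` invariant under the translations `act v` (all functions, or the functions
supported near a subgroup). `Bd P M`: boundaries of the 2-chains with coefficients in `M`. In the
quotient `Qt P M` the class `tt P M v F` of a path with value `v` does not depend on the path.
-/

set_option linter.unusedSectionVars false

namespace Pool.Agent.Helper52.HS

variable {G : Type} [Group G] {V : Type} [AddCommGroup V]

/-- invariance under translations -/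
def Inv (M : AddSubgroup (G → V)) : Prop := ∀ v, ∀ F ∈ M, act v F ∈ M

theorem inv_top : Inv (⊤ : AddSubgroup (G → V)) := fun _ _ _ => AddSubgroup.mem_top _

/-- the boundaries of the 2-chains with coefficients in `M` -/
def Bd (P : FinPres G) (M : AddSubgroup (G → V)) : AddSubgroup (P.S → G → V) where
  carrier := {x | ∃ d : P.R → G → V, (∀ r, d r ∈ M) ∧ bd2 P d = x}
  zero_mem' := ⟨0, fun _ => M.zero_mem, bd2_zero P⟩
  add_mem' := by
    rintro _ _ ⟨d, hd, rfl⟩ ⟨d', hd', rfl⟩
    exact ⟨d + d', fun r => M.add_mem (hd r) (hd' r), bd2_add P d d'⟩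
  neg_mem' := by
    rintro _ ⟨d, hd, rfl⟩
    exact ⟨-d, fun r => M.neg_mem (hd r), bd2_neg P d⟩

theorem mem_Bd {P : FinPres G} {M : AddSubgroup (G → V)} {x : P.S → G → V} :
    x ∈ Bd P M ↔ ∃ d : P.R → G → V, (∀ r, d r ∈ M) ∧ bd2 P d = x := Iff.rfl

/-- chains modulo boundaries -/
abbrev Qt (P : FinPres G) (M : AddSubgroup (G → V)) : Type := (P.S → G → V) ⧸ Bd P M

/-- the class of a chain -/
def mk (P : FinPres G) (M : AddSubgroup (G → V)) : (P.S → G → V) →+ Qt P M :=
  QuotientAddGroup.mk' (Bd P M)

theorem mk_eq_zero {P : FinPres G} {M : AddSubgroup (G → V)} {x : P.S → G → V} :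
    mk P M x = 0 ↔ x ∈ Bd P M := QuotientAddGroup.eq_zero_iff x

theorem mk_surjective (P : FinPres G) (M : AddSubgroup (G → V)) :
    Function.Surjective (mk P M) := QuotientAddGroup.mk'_surjective _

/-- a word with value `v` -/
noncomputable def word (P : FinPres G) (v : G) : List (P.S × Bool) := (P.surj v).choose

theorem val_word (P : FinPres G) (v : G) : val P.gen (word P v) = v := (P.surj v).choose_spec

/-- the class of the chain `∑ g, F g • (path from g to g * v)` -/
noncomputable def tt (P : FinPres G) (M : AddSubgroup (G → V)) (v : G) (F : G → V) : Qt P M :=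
  mk P M (path P.gen (word P v) F)

variable {P : FinPres G} {M : AddSubgroup (G → V)}

theorem loop_mem (hM : Inv M) {l : List (P.S × Bool)} (hl : val P.gen l = 1) {F : G → V}
    (hF : F ∈ M) : path P.gen l F ∈ Bd P M := by
  -- the subgroup of the free group of the words whose translates bound
  let N : Subgroup (FreeGroup P.S) :=
    { carrier := {w | ∀ l : List (P.S × Bool), FreeGroup.mk l = w →
        val P.gen l = 1 ∧ ∀ F ∈ M, path P.gen l F ∈ Bd P M}
      one_mem' := by
        intro l hl
        have h1 : FreeGroup.mk l = FreeGroup.mk ([] : List (P.S × Bool)) := hl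
        refine ⟨?_, fun F _ => ?_⟩
        · rw [val_eq_lift, hl, map_one]
        · rw [path_mk P.gen h1, path_nil]
          exact (Bd P M).zero_mem
      mul_mem' := by
        rintro a b ha hb l hl
        obtain ⟨la, rfl⟩ := Quot.exists_rep a
        obtain ⟨lb, rfl⟩ := Quot.exists_rep b
        have ha' := ha la rfl
        have hb' := hb lb rfl
        have h1 : FreeGroup.mk l = FreeGroup.mk (la ++ lb) := hl.trans (FreeGroup.mul_mk)
        refine ⟨?_, fun F hF => ?_⟩
        · rw [val_eq_lift, h1, ← val_eq_lift, val_append, ha'.1, hb'.1, mul_one]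
        · rw [path_mk P.gen h1, path_append, ha'.1, act_one]
          exact (Bd P M).add_mem (ha'.2 F hF) (hb'.2 F hF)
      inv_mem' := by
        rintro a ha l hl
        obtain ⟨la, rfl⟩ := Quot.exists_rep a
        have ha' := ha la rfl
        have h1 : FreeGroup.mk l = FreeGroup.mk (FreeGroup.invRev la) :=
          hl.trans (FreeGroup.inv_mk)
        refine ⟨?_, fun F hF => ?_⟩
        · rw [val_eq_lift, h1, ← val_eq_lift, val_invRev, ha'.1, inv_one]
        · rw [path_mk P.gen h1, path_invRev, ha'.1, inv_one, act_one]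
          exact (Bd P M).neg_mem (ha'.2 F hF) }
  have hnorm : N.Normal := by
    constructor
    intro a ha g l hl
    obtain ⟨la, rfl⟩ := Quot.exists_rep a
    obtain ⟨lg, rfl⟩ := Quot.exists_rep g
    have ha' := ha la rfl
    have h1 : FreeGroup.mk l = FreeGroup.mk (lg ++ la ++ FreeGroup.invRev lg) := by
      rw [hl]
      change FreeGroup.mk lg * FreeGroup.mk la * (FreeGroup.mk lg)⁻¹ = _
      rw [FreeGroup.inv_mk, FreeGroup.mul_mk, FreeGroup.mul_mk]
    refine ⟨?_, fun F hF => ?_⟩
    · rw [val_eq_lift, h1, ← val_eq_lift, val_append, val_append, ha'.1, val_invRev]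
      simp
    · rw [path_mk P.gen h1, path_append, path_append, path_invRev, val_append, ha'.1, mul_one,
        act_inv_act]
      have h2 := ha'.2 _ (hM (val P.gen lg) F hF)
      have e : path P.gen lg F + path P.gen la (act (val P.gen lg) F) + -path P.gen lg F =
          path P.gen la (act (val P.gen lg) F) := by abel
      rw [e]
      exact h2
  have hrel : Set.range (fun r => FreeGroup.mk (P.rel r)) ⊆ (N : Set (FreeGroup P.S)) := by
    rintro _ ⟨r, rfl⟩ l hl
    refine ⟨?_, fun F hF => ?_⟩
    · rw [val_eq_lift, hl, ← val_eq_lift, P.rel_one]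
    · rw [path_mk P.gen hl]
      classical
      refine ⟨Pi.single r F, fun r' => ?_, ?_⟩
      · rcases eq_or_ne r' r with rfl | h
        · rw [Pi.single_eq_same]
          exact hF
        · rw [Pi.single_eq_of_ne h]
          exact M.zero_mem
      · unfold bd2
        rw [Finset.sum_eq_single r]
        · rw [Pi.single_eq_same]
        · intro r' _ h
          rw [Pi.single_eq_of_ne h, path_zero]
        · intro h
          exact absurd (Finset.mem_univ r) h
  have hle : Subgroup.normalClosure (Set.range fun r => FreeGroup.mk (P.rel r)) ≤ N :=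
    Subgroup.normalClosure_le_normal hrel
  exact (hle (P.ker l hl) l rfl).2 F hF

theorem mk_path_eq (hM : Inv M) {l l' : List (P.S × Bool)} (h : val P.gen l = val P.gen l')
    {F : G → V} (hF : F ∈ M) : mk P M (path P.gen l F) = mk P M (path P.gen l' F) := by
  have h1 : val P.gen (l ++ FreeGroup.invRev l') = 1 := by
    rw [val_append, val_invRev, h, mul_inv_cancel]
  have h2 := loop_mem hM h1 hF
  rw [path_append, path_invRev, h, act_inv_act, ← sub_eq_add_neg] at h2
  rw [← sub_eq_zero, ← map_sub]
  exact mk_eq_zero.2 h2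

theorem mk_path (hM : Inv M) (l : List (P.S × Bool)) {F : G → V} (hF : F ∈ M) :
    mk P M (path P.gen l F) = tt P M (val P.gen l) F :=
  mk_path_eq hM (val_word P _).symm hF

theorem mk_edge (hM : Inv M) (s : P.S) {F : G → V} (hF : F ∈ M) :
    mk P M (path P.gen [(s, true)] F) = tt P M (P.gen s) F := by
  rw [mk_path hM _ hF, val_cons_true, val_nil, mul_one]

/-! ### additivity of `tt` -/

/-- `tt` as a homomorphism -/
noncomputable def ttH (P : FinPres G) (M : AddSubgroup (G → V)) (v : G) : (G → V) →+ Qt P M :=
  (mk P M).comp (pathH P.gen (word P v))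

theorem ttH_apply (v : G) (F : G → V) : ttH P M v F = tt P M v F := rfl

theorem tt_zero (v : G) : tt P M v (0 : G → V) = 0 := (ttH P M v).map_zero
theorem tt_add (v : G) (F F' : G → V) : tt P M v (F + F') = tt P M v F + tt P M v F' :=
  (ttH P M v).map_add F F'
theorem tt_neg (v : G) (F : G → V) : tt P M v (-F) = -tt P M v F := (ttH P M v).map_neg F
theorem tt_sub (v : G) (F F' : G → V) : tt P M v (F - F') = tt P M v F - tt P M v F' :=
  (ttH P M v).map_sub F F'
theorem tt_sum {ι : Type} (v : G) (I : Finset ι) (F : ι → G → V) :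
    tt P M v (∑ i ∈ I, F i) = ∑ i ∈ I, tt P M v (F i) := map_sum (ttH P M v) F I

/-! ### the cocycle rule -/

theorem tt_mul (hM : Inv M) (u v : G) {F : G → V} (hF : F ∈ M) :
    tt P M (u * v) F = tt P M u F + tt P M v (act u F) := by
  have h1 : val P.gen (word P (u * v)) = val P.gen (word P u ++ word P v) := by
    rw [val_append, val_word, val_word, val_word]
  have h2 := mk_path_eq hM h1 hF
  rw [path_append, val_word, map_add] at h2
  exact h2

theorem tt_one (hM : Inv M) {F : G → V} (hF : F ∈ M) : tt P M 1 F = 0 := by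
  have h := tt_mul (P := P) hM 1 1 hF
  rw [mul_one, act_one] at h
  exact left_eq_add.1 h

theorem tt_inv (hM : Inv M) (v : G) {F : G → V} (hF : F ∈ M) :
    tt P M v⁻¹ F = -tt P M v (act v⁻¹ F) := by
  have h := tt_mul (P := P) hM v⁻¹ v hF
  rw [inv_mul_cancel, tt_one hM hF] at h
  exact eq_neg_of_add_eq_zero_left h.symm

/-- the conjugation rule -/
theorem tt_conj (hM : Inv M) (u k : G) {F : G → V} (hF : F ∈ M) :
    tt P M u (act k F - F) = tt P M (u⁻¹ * k * u) (act u F) - tt P M k F := by
  have h1 := tt_mul (P := P) hM k u hF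
  have h2 := tt_mul (P := P) hM u (u⁻¹ * k * u) hF
  have e : u * (u⁻¹ * k * u) = k * u := by group
  rw [e] at h2
  rw [tt_sub, sub_eq_sub_iff_add_eq_add, add_comm, ← h1, h2, add_comm]

/-! ### the boundary -/

/-- the boundary of a class -/
noncomputable def bdQ (P : FinPres G) (M : AddSubgroup (G → V)) : Qt P M →+ (G → V) :=
  QuotientAddGroup.lift (Bd P M) (bd1H P.gen) (by
    rintro _ ⟨d, -, rfl⟩
    exact bd1_bd2 P d)

theorem bdQ_mk (c : P.S → G → V) : bdQ P M (mk P M c) = bd1 P.gen c := rfl

theorem bdQ_tt (v : G) (F : G → V) : bdQ P M (tt P M v F) = act v F - F := by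
  change bd1 P.gen (path P.gen (word P v) F) = _
  rw [bd1_path, val_word]

end Pool.Agent.Helper52.HS
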