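import Pool.Agent.Helper52.HS.NF

/-!
# HS-SB: chains with generators in a subgroup, restricted to a coset

The values of `act`, `path`, `bd1` at `y * h`, `h ∈ L`, only involve the coset `y L`. Inductions on the word.
-/

set_option linter.unusedSectionVars false

namespace Pool.Agent.Helper52.HS

variable {G : Type} [Group G] {V : Type} [AddCommGroup V] {S : Type} [DecidableEq S]

theorem val_sub (L : Subgroup G) (gen : S → L) (l : List (S × Bool)) :
    val (fun s => (gen s : G)) l = (val gen l : L) := by
  induction l with
  | nil => rfl
  | cons p l ih =>
    obtain ⟨s, b⟩ := p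
    cases b
    · rw [val_cons_false, val_cons_false, ih]
      rfl
    · rw [val_cons_true, val_cons_true, ih]
      rfl

theorem path_sub' (L : Subgroup G) (gen : S → L) (l : List (S × Bool)) (F : G → V) (y : G)
    (s : S) (h : L) :
    path (fun s => (gen s : G)) l F s (y * h) = path gen l (fun h : L => F (y * h)) s h := by
  induction l generalizing F with
  | nil => simp
  | cons p l ih =>
    obtain ⟨t, b⟩ := p
    have e : ∀ v : L, act v (fun h : L => F (y * h)) = fun h : L => act (v : G) F (y * h) := by
      intro v
      funext h
      simp [act, mul_assoc]
    cases b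
    · rw [path_cons_false, path_cons_false, e]
      simp only [Pi.add_apply, Pi.neg_apply, Subgroup.coe_inv]
      rw [ih]
      congr 2
      rcases eq_or_ne s t with rfl | hst
      · simp
      · simp [Pi.single_eq_of_ne hst]
    · rw [path_cons_true, path_cons_true, e]
      simp only [Pi.add_apply]
      rw [ih]
      congr 1
      rcases eq_or_ne s t with rfl | hst
      · simp
      · simp [Pi.single_eq_of_ne hst]

theorem bd1_sub' [Fintype S] (L : Subgroup G) (gen : S → L) (c : S → G → V) (y : G) (h : L) :
    bd1 (fun s => (gen s : G)) c (y * h) = bd1 gen (fun s (h : L) => c s (y * h)) h := by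
  simp [bd1, act, Finset.sum_apply, mul_assoc]

end Pool.Agent.Helper52.HS
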